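import Mathlib
set_option autoImplicit false
open Polynomial

namespace Pool.Agent.Helper999.Sq3

theorem line_lemma_gcd {K : Type*} [Field K] (a b : K[X]) (ha : a ≠ 0) :
    ∃ g a1 b1 : K[X], a = g * a1 ∧ b = g * b1 ∧ g ≠ 0 ∧ IsCoprime a1 b1 := by
  classical
  have hg : EuclideanDomain.gcd a b ≠ 0 := by
    intro h
    exact ha (EuclideanDomain.gcd_eq_zero_iff.1 h).1
  obtain ⟨a1, ha1⟩ := EuclideanDomain.gcd_dvd_left a b
  obtain ⟨b1, hb1⟩ := EuclideanDomain.gcd_dvd_right a b
  refine ⟨EuclideanDomain.gcd a b, a1, b1, ha1, hb1, hg, ?_⟩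
  have h := EuclideanDomain.gcd_eq_gcd_ab a b
  refine ⟨EuclideanDomain.gcdA a b, EuclideanDomain.gcdB a b, ?_⟩
  apply mul_left_cancel₀ hg
  calc EuclideanDomain.gcd a b * (EuclideanDomain.gcdA a b * a1 + EuclideanDomain.gcdB a b * b1)
      = (EuclideanDomain.gcd a b * a1) * EuclideanDomain.gcdA a b
        + (EuclideanDomain.gcd a b * b1) * EuclideanDomain.gcdB a b := by ring
    _ = a * EuclideanDomain.gcdA a b + b * EuclideanDomain.gcdB a b := by rw [← ha1, ← hb1]
    _ = EuclideanDomain.gcd a b * 1 := by rw [← h, mul_one]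

theorem line_lemma {K : Type*} [Field K] [CharP K 3] (a b c w : K[X])
    (hb : b ^ 2 = a ^ 2 + w) (hc : c ^ 2 = a ^ 2 - w)
    (ha0 : a ≠ 0) (hb0 : b ≠ 0) (hc0 : c ≠ 0) :
    ∃ h : K[X], a ^ 2 * derivative w - derivative (a ^ 2) * w = h * (a * b * c) ∧
      derivative (a * b * c) = -(w * h) := by
  have h3 : (3 : K[X]) = 0 := by
    have := CharP.cast_eq_zero K[X] 3
    exact_mod_cast this
  have hw : w = b * b - a * a := by linear_combination -hb
  have hsum : a * a + b * b + c * c = 0 := by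
    linear_combination hc + hb + a ^ 2 * h3
  obtain ⟨g, a1, b1, ha, hb', hg, hcop⟩ := line_lemma_gcd a b ha0
  have hgc : g ∣ c := by
    have h1 : g ^ 2 ∣ c ^ 2 := ⟨-(a1 * a1 + b1 * b1), by
      rw [ha, hb'] at hsum
      linear_combination hsum⟩
    exact (IsIntegrallyClosed.pow_dvd_pow_iff (R := K[X]) two_ne_zero).1 h1
  obtain ⟨c1, hc'⟩ := hgc
  have hsum1 : a1 * a1 + b1 * b1 + c1 * c1 = 0 := by
    have h1 : g ^ 2 * (a1 * a1 + b1 * b1 + c1 * c1) = 0 := by
      rw [ha, hb', hc'] at hsum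
      linear_combination hsum
    exact (mul_eq_zero.1 h1).resolve_left (pow_ne_zero 2 hg)
  have hb1 : b1 ≠ 0 := by
    rintro rfl
    exact hb0 (by rw [hb', mul_zero])
  -- derivative of the relation
  have hder : a1 * derivative a1 + b1 * derivative b1 + c1 * derivative c1 = 0 := by
    have h1 := congrArg derivative hsum1
    simp only [derivative_add, derivative_mul, derivative_zero] at h1
    linear_combination (a1 * derivative a1 + b1 * derivative b1 + c1 * derivative c1) * h3 - h1
  have hwr : a1 * (a1 * derivative b1 - derivative a1 * b1) =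
      c1 * (b1 * derivative c1 - derivative b1 * c1) := by
    apply mul_left_cancel₀ hb1
    linear_combination (- b1 ^ 2) * hder + (b1 * derivative b1) * hsum1
  have hcop' : IsCoprime c1 a1 := by
    obtain ⟨u, v, huv⟩ := (IsCoprime.pow (m := 2) (n := 2) hcop)
    -- u a1^2 + v b1^2 = 1, b1^2 = -(a1^2) - c1^2
    refine ⟨-(v * c1), (u - v) * a1, ?_⟩
    linear_combination huv - v * hsum1
  have hdvd : c1 ∣ (a1 * derivative b1 - derivative a1 * b1) := by
    apply hcop'.dvd_of_dvd_mul_left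
    exact ⟨_, hwr⟩
  obtain ⟨k, hk⟩ := hdvd
  have hA : a ^ 2 * derivative w - derivative (a ^ 2) * w = (2 * g * k) * (a * b * c) := by
    rw [hw, pow_two, ha, hb', hc']
    simp only [derivative_sub, derivative_mul]
    linear_combination 2 * g ^ 4 * a1 * b1 * hk
  refine ⟨2 * g * k, hA, ?_⟩
  have hG0 : a * b * c ≠ 0 := mul_ne_zero (mul_ne_zero ha0 hb0) hc0
  have hG2 : (a * b * c) * (a * b * c) = a ^ 2 * a ^ 2 * a ^ 2 - a ^ 2 * (w * w) := by
    linear_combination (a ^ 2 * c ^ 2) * hb + (a ^ 2 * (a ^ 2 + w)) * hc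
  have hd := congrArg derivative hG2
  have e1 : derivative ((a * b * c) * (a * b * c)) = 2 * (a * b * c) * derivative (a * b * c) := by
    rw [derivative_mul (f := a * b * c)]; ring
  have e2 : derivative (a ^ 2 * a ^ 2 * a ^ 2 - a ^ 2 * (w * w)) =
      w * (a ^ 2 * derivative w - derivative (a ^ 2) * w) := by
    rw [derivative_sub, derivative_mul (f := a ^ 2 * a ^ 2), derivative_mul (f := a ^ 2) (g := a ^ 2),
      derivative_mul (f := a ^ 2) (g := w * w), derivative_mul (f := w)]
    linear_combination (a ^ 2 * a ^ 2 * derivative (a ^ 2) - a ^ 2 * w * derivative w) * h3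
  rw [e1, e2, hA] at hd
  have h4 : 2 * derivative (a * b * c) = w * (2 * g * k) := by
    apply mul_left_cancel₀ hG0
    linear_combination hd
  linear_combination (derivative (a * b * c)) * h3 - h4

end Pool.Agent.Helper999.Sq3
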