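import Mathlib
set_option autoImplicit false
open Polynomial

namespace Pool.Agent.Helper999.Sq3

theorem wr_natDegree {K : Type*} [Field K] (l w : K[X]) (m : ℕ)
    (hl : l.natDegree = m) (hw : w.natDegree = m)
    (hne : l * derivative w - derivative l * w ≠ 0) :
    (l * derivative w - derivative l * w).natDegree + 2 ≤ 2 * m := by
  rcases m with _ | n
  · exfalso
    apply hne
    rw [eq_C_of_natDegree_eq_zero hl, eq_C_of_natDegree_eq_zero hw]
    simp
  · have hl' : (derivative l).natDegree ≤ n := by
      have := natDegree_derivative_le l
      omega
    have hw' : (derivative w).natDegree ≤ n := by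
      have := natDegree_derivative_le w
      omega
    have h1 : (l * derivative w).coeff ((n + 1) + n) = l.coeff (n + 1) * (derivative w).coeff n :=
      coeff_mul_add_eq_of_natDegree_le hl.le hw'
    have h2 : (derivative l * w).coeff (n + (n + 1)) = (derivative l).coeff n * w.coeff (n + 1) :=
      coeff_mul_add_eq_of_natDegree_le hl' hw.le
    have h3 : (l * derivative w - derivative l * w).coeff ((n + 1) + n) = 0 := by
      rw [coeff_sub, h1, Nat.add_comm (n + 1) n, h2, coeff_derivative, coeff_derivative]
      ring
    have h4 : (l * derivative w - derivative l * w).natDegree ≤ (n + 1) + n := by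
      refine (natDegree_sub_le _ _).trans (max_le ?_ ?_)
      · exact natDegree_mul_le.trans (by omega)
      · exact natDegree_mul_le.trans (by omega)
    have h5 : (l * derivative w - derivative l * w).natDegree ≠ (n + 1) + n := by
      intro h
      have h6 : (l * derivative w - derivative l * w).leadingCoeff = 0 := by
        rw [leadingCoeff, h]
        exact h3
      exact hne (leadingCoeff_eq_zero.1 h6)
    omega

end Pool.Agent.Helper999.Sq3
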