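import Mathlib
set_option autoImplicit false
open Polynomial

namespace Pool.Agent.Helper999.Sq3

theorem conic_param_sq {K : Type*} [Field K] [IsAlgClosed K] {a b c : K[X]} (hab : IsCoprime a b)
    (h : a * b = c ^ 2) : ∃ n : K[X], a = n ^ 2 := by
  classical
  obtain ⟨d, hd⟩ := exists_associated_pow_of_mul_eq_pow' hab h
  obtain ⟨u, hu⟩ := hd
  obtain ⟨r, _, hr⟩ := Polynomial.isUnit_iff.1 u.isUnit
  obtain ⟨v, hv⟩ := IsAlgClosed.exists_eq_mul_self r
  refine ⟨d * C v, ?_⟩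
  rw [← hu, ← hr, hv, C_mul]
  ring

theorem conic_param {K : Type*} [Field K] [IsAlgClosed K] (x y z : K[X]) (h : x * y = z ^ 2) :
    ∃ c m n : K[X], IsCoprime m n ∧ x = c * n ^ 2 ∧ y = c * m ^ 2 ∧ z = c * m * n := by
  classical
  by_cases hx : x = 0
  · have hz : z = 0 := by
      rw [hx, zero_mul] at h
      exact pow_eq_zero_iff (two_ne_zero) |>.1 h.symm
    exact ⟨y, 1, 0, isCoprime_one_left, by rw [hx]; ring, by ring, by rw [hz]; ring⟩
  by_cases hy : y = 0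
  · have hz : z = 0 := by
      rw [hy, mul_zero] at h
      exact pow_eq_zero_iff (two_ne_zero) |>.1 h.symm
    exact ⟨x, 0, 1, isCoprime_one_right, by ring, by rw [hy]; ring, by rw [hz]; ring⟩
  set g := EuclideanDomain.gcd x y with hg
  obtain ⟨x1, hx1⟩ := EuclideanDomain.gcd_dvd_left x y
  obtain ⟨y1, hy1⟩ := EuclideanDomain.gcd_dvd_right x y
  rw [← hg] at hx1 hy1
  have hg0 : g ≠ 0 := by
    intro h0
    rw [h0, zero_mul] at hx1
    exact hx hx1
  have hcop : IsCoprime x1 y1 := by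
    have h1 := EuclideanDomain.gcd_eq_gcd_ab x y
    rw [← hg] at h1
    refine ⟨EuclideanDomain.gcdA x y, EuclideanDomain.gcdB x y, ?_⟩
    apply mul_left_cancel₀ hg0
    calc g * (EuclideanDomain.gcdA x y * x1 + EuclideanDomain.gcdB x y * y1)
        = (g * x1) * EuclideanDomain.gcdA x y + (g * y1) * EuclideanDomain.gcdB x y := by ring
      _ = x * EuclideanDomain.gcdA x y + y * EuclideanDomain.gcdB x y := by rw [← hx1, ← hy1]
      _ = g * 1 := by rw [← h1, mul_one]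
  have hz2 : z ^ 2 = g ^ 2 * (x1 * y1) := by
    rw [← h]
    calc x * y = (g * x1) * (g * y1) := by rw [← hx1, ← hy1]
      _ = _ := by ring
  obtain ⟨z1, hz1⟩ : g ∣ z := by
    have : g ^ 2 ∣ z ^ 2 := ⟨x1 * y1, hz2⟩
    exact (IsIntegrallyClosed.pow_dvd_pow_iff (two_ne_zero)).1 this
  have h2 : x1 * y1 = z1 ^ 2 := by
    apply mul_left_cancel₀ (pow_ne_zero 2 hg0)
    rw [← hz2, hz1]
    ring
  obtain ⟨n, hn⟩ := conic_param_sq hcop h2
  obtain ⟨m, hm⟩ := conic_param_sq hcop.symm (by rw [mul_comm]; exact h2)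
  have hmn : IsCoprime m n := by
    rw [hn, hm] at hcop
    exact ((IsCoprime.pow_iff (by norm_num) (by norm_num)).1 hcop).symm
  have h3 : z1 ^ 2 = (m * n) ^ 2 := by
    rw [← h2, hn, hm]
    ring
  rcases sq_eq_sq_iff_eq_or_eq_neg.1 h3 with h4 | h4
  · refine ⟨g, m, n, hmn, ?_, ?_, ?_⟩
    · rw [← hn]; exact hx1
    · rw [← hm]; exact hy1
    · rw [hz1, h4]; ring
  · refine ⟨g, -m, n, hmn.neg_left, ?_, ?_, ?_⟩
    · rw [← hn]; exact hx1
    · rw [neg_sq, ← hm]; exact hy1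
    · rw [hz1, h4]; ring

end Pool.Agent.Helper999.Sq3
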