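import Mathlib
set_option autoImplicit false
open Polynomial

namespace Pool.Agent.Helper999.Sq3

theorem rows_aux_good {K : Type*} [Field K] (n : ℕ) (f g : K[X])
    (hf : f ≠ 0 → f.natDegree + 2 ≤ n) (hg : g ≠ 0 → g.natDegree + 2 ≤ n) :
    f + g ≠ 0 → (f + g).natDegree + 2 ≤ n := by
  intro hne
  by_cases h1 : f = 0
  · rw [h1, zero_add] at hne ⊢
    exact hg hne
  · by_cases h2 : g = 0
    · rw [h2, add_zero] at hne ⊢
      exact hf hne
    · have a := hf h1
      have b := hg h2
      have c := natDegree_add_le f g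
      have : max f.natDegree g.natDegree + 2 ≤ n := by
        rcases max_cases f.natDegree g.natDegree with h | h <;> omega
      omega

theorem rows_aux_good_neg {K : Type*} [Field K] (n : ℕ) (f : K[X])
    (hf : f ≠ 0 → f.natDegree + 2 ≤ n) : -f ≠ 0 → (-f).natDegree + 2 ≤ n := by
  intro hne
  rw [natDegree_neg]
  exact hf (by simpa using hne)

theorem rows_aux_deg {K : Type*} [Field K] (n : ℕ) (h3 : (3 : K[X]) = 0)
    (M N p q r : K[X]) (hcop : IsCoprime M N) (hM : M ≠ 0)
    (rel : p * M ^ 2 + r * N ^ 2 = 2 * q * M * N)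
    (hne : ¬ (p = 0 ∧ q = 0 ∧ r = 0))
    (gr : r ≠ 0 → r.natDegree + 2 ≤ n) (gq : q ≠ 0 → q.natDegree + 2 ≤ n) :
    M.natDegree + 2 ≤ n := by
  by_cases hr : r = 0
  · rw [hr] at rel
    have h1 : M * (p * M - 2 * q * N) = 0 := by linear_combination rel
    have h2 : p * M = 2 * q * N := by
      rcases mul_eq_zero.1 h1 with h | h
      · exact absurd h hM
      · linear_combination h
    have hq : q ≠ 0 := by
      intro hq
      rw [hq] at h2
      have h4 : p * M = 0 := by linear_combination h2
      rcases mul_eq_zero.1 h4 with h | h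
      · exact hne ⟨h, hq, hr⟩
      · exact hM h
    have hdvd : M ∣ q * N := by
      refine ⟨-p, ?_⟩
      linear_combination h2 + q * N * h3
    have h5 : M ∣ q := hcop.dvd_of_dvd_mul_right hdvd
    have h6 := natDegree_le_of_dvd h5 hq
    have h7 := gq hq
    omega
  · have hdvd : M ∣ r * N ^ 2 := by
      refine ⟨2 * q * N - p * M, ?_⟩
      linear_combination rel
    have h5 : M ∣ r := (hcop.pow_right).dvd_of_dvd_mul_right hdvd
    have h6 := natDegree_le_of_dvd h5 hr
    have h7 := gr hr
    omega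

theorem rows_lemma {K : Type*} [Field K] [IsAlgClosed K] [CharP K 3] (n : ℕ)
    (conic : ∀ x y z : K[X], x * y = z ^ 2 →
      ∃ c m n : K[X], IsCoprime m n ∧ x = c * n ^ 2 ∧ y = c * m ^ 2 ∧ z = c * m * n)
    (d g0 g1 g2 h0 h1 h2 : K[X]) (hd : d ≠ 0)
    (hsum : g0 ^ 2 + g1 ^ 2 + g2 ^ 2 = 0)
    (hg0 : derivative g0 = -(d * h0)) (hg1 : derivative g1 = -(d * h1))
    (hg2 : derivative g2 = -(d * h2))
    (dg0 : g0.natDegree = 3 * n)
    (dh0 : h0 ≠ 0 → h0.natDegree + 2 ≤ n) (dh1 : h1 ≠ 0 → h1.natDegree + 2 ≤ n)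
    (dh2 : h2 ≠ 0 → h2.natDegree + 2 ≤ n)
    (hne : g0 ^ 2 ≠ g1 ^ 2)
    (hh : ¬ (h0 = 0 ∧ h1 = 0 ∧ h2 = 0))
    (hco : ∀ x : K, ¬ (g0.eval x = 0 ∧ g1.eval x = 0 ∧ g2.eval x = 0 ∧ d.eval x = 0)) :
    derivative g0 * g1 = g0 * derivative g1 := by
  have h3 : (3 : K[X]) = 0 := by
    have := CharP.cast_eq_zero K[X] 3
    exact_mod_cast this
  obtain ⟨c, M, N, hcop, hx, hy, hz⟩ := conic (-(g0 + g1 + g2)) (-g0 + g1 + g2) (g1 - g2) (by
    linear_combination hsum - (g1 ^ 2 + g2 ^ 2) * h3)
  -- g's in terms of x y z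
  have e0 : g0 = c * N ^ 2 + c * M ^ 2 := by
    rw [← hx, ← hy]
    linear_combination g0 * h3
  have e1 : g1 = c * M ^ 2 - c * N ^ 2 - c * M * N := by
    rw [← hx, ← hy, ← hz]
    linear_combination -(g2) * h3
  have e2 : g2 = c * M ^ 2 - c * N ^ 2 + c * M * N := by
    rw [← hx, ← hy, ← hz]
    linear_combination -(g1) * h3
  have hN : N ≠ 0 := by
    intro h
    apply hne
    rw [e0, e1, h]
    ring
  have hM : M ≠ 0 := by
    intro h
    apply hne
    rw [e0, e1, h]
    ring
  have hc : c ≠ 0 := by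
    intro h
    apply hne
    rw [e0, e1, h]
    ring
  -- derivatives
  have dx : derivative (c * N ^ 2) = d * (h0 + h1 + h2) := by
    rw [← hx, derivative_neg, derivative_add, derivative_add, hg0, hg1, hg2]
    ring
  have dy : derivative (c * M ^ 2) = d * (h0 + -h1 + -h2) := by
    rw [← hy, derivative_add, derivative_add, derivative_neg, hg0, hg1, hg2]
    ring
  have dz : derivative (c * M * N) = d * (h2 + -h1) := by
    rw [← hz, derivative_sub, hg1, hg2]
    ring
  set p : K[X] := h0 + h1 + h2 with hp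
  set r : K[X] := h0 + -h1 + -h2 with hr
  set q : K[X] := h2 + -h1 with hq
  have dx' : derivative c * N ^ 2 + c * (2 * N * derivative N) = d * p := by
    have hs : derivative (N ^ 2) = 2 * N * derivative N := by
      rw [sq, derivative_mul]; ring
    rw [← dx, derivative_mul, hs]
  have dy' : derivative c * M ^ 2 + c * (2 * M * derivative M) = d * r := by
    have hs : derivative (M ^ 2) = 2 * M * derivative M := by
      rw [sq, derivative_mul]; ring
    rw [← dy, derivative_mul, hs]
  have dz' : derivative c * M * N + c * (derivative M * N + M * derivative N) = d * q := by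
    rw [← dz, derivative_mul, derivative_mul]
    ring
  have hrel : p * M ^ 2 + r * N ^ 2 = 2 * q * M * N := by
    have h : (d * c) * (p * M ^ 2 + r * N ^ 2 - 2 * q * M * N) = 0 := by
      linear_combination (-c * M ^ 2) * dx' - (c * N ^ 2) * dy' + (2 * c * M * N) * dz'
    rcases mul_eq_zero.1 h with h | h
    · rcases mul_eq_zero.1 h with h | h
      · exact absurd h hd
      · exact absurd h hc
    · linear_combination h
  have hpqr : ¬ (p = 0 ∧ q = 0 ∧ r = 0) := by
    rintro ⟨a, b, e⟩
    apply hh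
    refine ⟨?_, ?_, ?_⟩
    · linear_combination -a - e + h0 * h3
    · linear_combination a - e + b - h2 * h3
    · linear_combination a - e - b - h1 * h3
  have gp : p ≠ 0 → p.natDegree + 2 ≤ n :=
    rows_aux_good n _ _ (rows_aux_good n _ _ dh0 dh1) dh2
  have gr : r ≠ 0 → r.natDegree + 2 ≤ n :=
    rows_aux_good n _ _ (rows_aux_good n _ _ dh0 (rows_aux_good_neg n _ dh1))
      (rows_aux_good_neg n _ dh2)
  have gq : q ≠ 0 → q.natDegree + 2 ≤ n :=
    rows_aux_good n _ _ dh2 (rows_aux_good_neg n _ dh1)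
  have dM : M.natDegree + 2 ≤ n := rows_aux_deg n h3 M N p q r hcop hM hrel hpqr gr gq
  have dN : N.natDegree + 2 ≤ n := rows_aux_deg n h3 N M r q p hcop.symm hN
    (by linear_combination hrel) (fun h => hpqr ⟨h.2.2, h.2.1, h.1⟩) gp gq
  have hn2 : 2 ≤ n := by omega
  have hcd : IsCoprime c d := by
    rw [Polynomial.isCoprime_iff_aeval_ne_zero_of_isAlgClosed K K]
    intro a
    by_contra hcon
    push Not at hcon
    obtain ⟨ha, hb⟩ := hcon
    have ha' : c.eval a = 0 := by simpa [Polynomial.coe_aeval_eq_eval] using ha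
    have hb' : d.eval a = 0 := by simpa [Polynomial.coe_aeval_eq_eval] using hb
    apply hco a
    refine ⟨?_, ?_, ?_, hb'⟩
    · rw [e0]; simp [ha']
    · rw [e1]; simp [ha']
    · rw [e2]; simp [ha']
  have hid : d ^ 2 * (q ^ 2 - p * r) =
      c ^ 2 * (derivative M * N - M * derivative N) ^ 2 := by
    have : d ^ 2 * (q ^ 2 - p * r) = (d * q) ^ 2 - (d * p) * (d * r) := by ring
    rw [this, ← dx', ← dy', ← dz']
    ring
  by_cases hcase : q ^ 2 - p * r = 0
  · -- Case 2
    rw [hcase, mul_zero] at hid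
    have hW : derivative M * N = M * derivative N := by
      rcases mul_eq_zero.1 hid.symm with h | h
      · exact absurd (pow_eq_zero_iff (two_ne_zero)|>.1 h) hc
      · have := pow_eq_zero_iff (two_ne_zero)|>.1 h
        linear_combination this
    have hM' : derivative M = 0 := by
      have h1 : M ∣ derivative M := hcop.dvd_of_dvd_mul_right ⟨_, hW⟩
      exact eq_zero_of_dvd_of_degree_lt h1 (degree_derivative_lt hM)
    have hN' : derivative N = 0 := by
      have h1 : N ∣ derivative N := hcop.symm.dvd_of_dvd_mul_left ⟨derivative M, by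
        linear_combination -hW⟩
      exact eq_zero_of_dvd_of_degree_lt h1 (degree_derivative_lt hN)
    have f0 : derivative g0 = derivative c * (N ^ 2 + M ^ 2) := by
      rw [e0, derivative_add, dx, dy, ← dx', ← dy', hM', hN']
      ring
    have f1 : derivative g1 = derivative c * (M ^ 2 - N ^ 2 - M * N) := by
      rw [e1, derivative_sub, derivative_sub, dx, dy, dz, ← dx', ← dy', ← dz', hM', hN']
      ring
    rw [f0, f1, e0, e1]
    ring
  · -- Case 1
    exfalso
    have h1 : c ^ 2 ∣ (q ^ 2 - p * r) := by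
      have h2 : c ^ 2 ∣ d ^ 2 * (q ^ 2 - p * r) := ⟨_, hid⟩
      exact (hcd.pow).dvd_of_dvd_mul_left h2
    have h2 := natDegree_le_of_dvd h1 hcase
    rw [natDegree_pow] at h2
    have bnd : ∀ f : K[X], (f ≠ 0 → f.natDegree + 2 ≤ n) → f.natDegree ≤ n - 2 := by
      intro f hf
      by_cases h : f = 0
      · rw [h]; simp
      · have := hf h; omega
    have bp := bnd p gp
    have bq := bnd q gq
    have br := bnd r gr
    have h4 : (q ^ 2 - p * r).natDegree ≤ 2 * (n - 2) := by
      refine (natDegree_sub_le _ _).trans (max_le ?_ ?_)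
      · refine natDegree_pow_le.trans ?_
        omega
      · refine natDegree_mul_le.trans ?_
        omega
    have h5 : c.natDegree ≤ n - 2 := by omega
    have h6 : g0.natDegree ≤ 3 * (n - 2) := by
      rw [e0]
      refine (natDegree_add_le _ _).trans (max_le ?_ ?_)
      · refine natDegree_mul_le.trans ?_
        have : (N ^ 2).natDegree ≤ 2 * N.natDegree := natDegree_pow_le
        omega
      · refine natDegree_mul_le.trans ?_
        have : (M ^ 2).natDegree ≤ 2 * M.natDegree := natDegree_pow_le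
        omega
    omega

end Pool.Agent.Helper999.Sq3
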