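import Mathlib
set_option autoImplicit false
open Polynomial

namespace Pool.Agent.Helper999.Sq3

theorem sq_dvd_of_isSquare {K : Type*} [Field K] (g : K[X]) (x0 : K) (h : IsSquare g)
    (h0 : g.eval x0 = 0) : (X - C x0) ^ 2 ∣ g := by
  obtain ⟨r, rfl⟩ := h
  rw [eval_mul, mul_self_eq_zero] at h0
  have : X - C x0 ∣ r := dvd_iff_isRoot.mpr h0
  rw [sq]
  exact mul_dvd_mul this this

theorem pole_aux {K : Type*} [Field K] (l u b n : K[X]) (x0 : K)
    (hn : n.eval x0 ≠ 0) (hl : l.eval x0 ≠ 0) (hu : u.eval x0 = 0) (hu0 : u ≠ 0)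
    (h : b * (derivative l * u - l * derivative u) = n * (l ^ 3 * u - l * u ^ 3)) :
    ¬ (X - C x0) ^ 2 ∣ b := by
  intro hb
  obtain ⟨v, hv, hv0⟩ := exists_eq_pow_rootMultiplicity_mul_and_not_dvd u hu0 x0
  set m := rootMultiplicity x0 u with hm
  have hm1 : 1 ≤ m := by
    rw [hm]; exact (rootMultiplicity_pos hu0).mpr hu
  obtain ⟨k, hk⟩ : ∃ k, m = k + 1 := ⟨m - 1, by omega⟩
  rw [hk] at hv
  have hd : (X - C x0) ^ k ∣ derivative l * u - l * derivative u := by
    have h1 : (X - C x0) ^ k ∣ u := by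
      rw [hv, pow_succ]
      exact ⟨(X - C x0) * v, by ring⟩
    have h2 : (X - C x0) ^ k ∣ derivative u := by
      rw [hv, derivative_mul, derivative_pow]
      refine dvd_add ?_ ?_
      · refine ⟨C ((k : K) + 1) * (derivative (X - C x0)) * v, ?_⟩
        simp
        ring
      · exact ⟨(X - C x0) * derivative v, by ring⟩
    exact dvd_sub (Dvd.dvd.mul_left h1 _) (Dvd.dvd.mul_left h2 _)
  have h3 : (X - C x0) ^ (k + 2) ∣ n * (l ^ 3 * u - l * u ^ 3) := by
    rw [← h]
    have := mul_dvd_mul hb hd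
    refine dvd_trans ?_ this
    exact ⟨1, by ring⟩
  have h4 : n * (l ^ 3 * u - l * u ^ 3) =
      (X - C x0) ^ (k + 1) * (n * l * v * (l ^ 2 - u ^ 2)) := by
    linear_combination (n * l * (l ^ 2 - u ^ 2)) * hv
  rw [h4, pow_succ (X - C x0) (k + 1)] at h3
  have h5 : X - C x0 ∣ n * l * v * (l ^ 2 - u ^ 2) := by
    refine (mul_dvd_mul_iff_left (pow_ne_zero _ (X_sub_C_ne_zero x0))).mp h3
  rw [dvd_iff_isRoot] at h5
  have hv1 : v.eval x0 ≠ 0 := by
    intro hh
    exact hv0 (dvd_iff_isRoot.mpr hh)
  simp only [IsRoot.def, eval_mul, eval_sub, eval_pow, hu] at h5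
  simp at h5
  rcases h5 with h5 | h5
  · rcases h5 with h5 | h5
    · rcases h5 with h5 | h5
      · exact hn h5
      · exact hl h5
    · exact hv1 h5
  · exact hl h5

theorem pole_lemma {K : Type*} [Field K] [CharP K 3] (f d e b n : K[X]) (x0 : K)
    (hn : n.eval x0 ≠ 0) (hb : b.eval x0 = 0)
    (h1 : b * (derivative f * d - f * derivative d) = n * (f ^ 3 * d - f * d ^ 3))
    (h2 : b * (derivative f * e - f * derivative e) = n * (f ^ 3 * e - f * e ^ 3))
    (h3 : b * (derivative d * e - d * derivative e) = n * (d ^ 3 * e - d * e ^ 3))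
    (hne : ¬ (f.eval x0 = 0 ∧ d.eval x0 = 0 ∧ e.eval x0 = 0))
    (hd : d ≠ 0) (he : e ≠ 0) (hde : d + e ≠ 0) (hde' : d - e ≠ 0)
    (hsq : ∀ s t : ℤ, IsSquare (f + C (s : K) * d + C (t : K) * e)) :
    (X - C x0) ^ 2 ∣ d * e * (d + e) * (d - e) ∧ ¬ (X - C x0) ^ 2 ∣ b := by
  have key : ∀ p q : K[X], b * (derivative p * q - p * derivative q) = n * (p ^ 3 * q - p * q ^ 3) →
      eval x0 q ≠ 0 → ∃ s : ℤ, eval x0 p + s * eval x0 q = 0 := by
    intro p q h hq
    have := congrArg (eval x0) h
    simp only [eval_mul, hb, zero_mul, eval_sub, eval_pow] at this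
    have h' : eval x0 p * (eval x0 p - eval x0 q) * (eval x0 p + eval x0 q) = 0 := by
      have h2 : eval x0 n * eval x0 q * (eval x0 p * (eval x0 p - eval x0 q) * (eval x0 p + eval x0 q)) = 0 := by
        rw [← sub_eq_zero] at this
        linear_combination (-1 : K) * this
      rcases mul_eq_zero.mp h2 with h3 | h3
      · exact absurd h3 (mul_ne_zero hn hq)
      · exact h3
    rcases mul_eq_zero.mp h' with h3 | h3
    · rcases mul_eq_zero.mp h3 with h4 | h4
      · exact ⟨0, by simp [h4]⟩
      · exact ⟨-1, by push_cast; linear_combination h4⟩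
    · exact ⟨1, by push_cast; linear_combination h3⟩
  -- combination square-divisibility
  have hsqv : ∀ s t : ℤ, eval x0 f + s * eval x0 d + t * eval x0 e = 0 →
      (X - C x0) ^ 2 ∣ f + C (s : K) * d + C (t : K) * e := by
    intro s t h
    refine sq_dvd_of_isSquare _ _ (hsq s t) ?_
    simpa using h
  have hchar : (3 : K) = 0 := by exact_mod_cast CharP.cast_eq_zero K 3
  have cube_add : ∀ p q : K[X], (p + q) ^ 3 = p ^ 3 + q ^ 3 := fun p q => add_pow_char p q 3
  have cube_sub : ∀ p q : K[X], (p - q) ^ 3 = p ^ 3 - q ^ 3 := fun p q => sub_pow_char p q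
  have fin : ∀ u : K[X], eval x0 u = 0 → u ≠ 0 →
      (b * (derivative f * u - f * derivative u) = n * (f ^ 3 * u - f * u ^ 3)) →
      (b * (derivative d * u - d * derivative u) = n * (d ^ 3 * u - d * u ^ 3)) →
      (b * (derivative e * u - e * derivative u) = n * (e ^ 3 * u - e * u ^ 3)) →
      ¬ (X - C x0) ^ 2 ∣ b := by
    intro u hu hu0 e1 e2 e3
    by_cases hf0 : eval x0 f = 0
    · by_cases hd0 : eval x0 d = 0
      · have he0 : eval x0 e ≠ 0 := fun h => hne ⟨hf0, hd0, h⟩
        exact pole_aux e u b n x0 hn he0 hu hu0 e3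
      · exact pole_aux d u b n x0 hn hd0 hu hu0 e2
    · exact pole_aux f u b n x0 hn hf0 hu hu0 e1
  have h3' : eval x0 d ^ 3 * eval x0 e = eval x0 d * eval x0 e ^ 3 := by
    have := congrArg (eval x0) h3
    simp only [eval_mul, hb, zero_mul, eval_sub, eval_pow] at this
    have h4 := (mul_eq_zero.mp this.symm).resolve_left hn
    linear_combination h4
  by_cases hd0 : eval x0 d = 0
  · refine ⟨?_, fin d hd0 hd h1 (by ring) (by linear_combination -h3)⟩
    by_cases he0 : eval x0 e = 0
    · have a1 : X - C x0 ∣ d := dvd_iff_isRoot.mpr hd0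
      have a2 : X - C x0 ∣ e := dvd_iff_isRoot.mpr he0
      rw [sq]
      exact Dvd.dvd.mul_right (Dvd.dvd.mul_right (mul_dvd_mul a1 a2) _) _
    · obtain ⟨t, ht⟩ := key f e h2 he0
      have b1 := hsqv 0 t (by simpa [hd0] using ht)
      have b2 := hsqv 1 t (by simpa [hd0] using ht)
      have b3 : (X - C x0) ^ 2 ∣ d := by
        have := dvd_sub b2 b1
        simpa using this
      exact Dvd.dvd.mul_right (Dvd.dvd.mul_right (Dvd.dvd.mul_right b3 _) _) _
  · obtain ⟨s, hs⟩ := key f d h1 hd0
    by_cases he0 : eval x0 e = 0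
    · refine ⟨?_, fin e he0 he h2 h3 (by ring)⟩
      have b1 := hsqv s 0 (by simpa [he0] using hs)
      have b2 := hsqv s 1 (by simpa [he0] using hs)
      have b3 : (X - C x0) ^ 2 ∣ e := by
        have := dvd_sub b2 b1
        simpa using this
      exact Dvd.dvd.mul_right (Dvd.dvd.mul_right (Dvd.dvd.mul_left b3 _) _) _
    · have h5 : (eval x0 d - eval x0 e) * (eval x0 d + eval x0 e) = 0 := by
        have : eval x0 d * eval x0 e * ((eval x0 d - eval x0 e) * (eval x0 d + eval x0 e)) = 0 := by
          linear_combination h3'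
        exact (mul_eq_zero.mp this).resolve_left (mul_ne_zero hd0 he0)
      rcases mul_eq_zero.mp h5 with h6 | h6
      · refine ⟨?_, fin (d - e) (by simpa using h6) hde' ?_ ?_ ?_⟩
        · have b1 := hsqv s 0 (by simpa using hs)
          have b2 := hsqv (s + 1) (-1) (by push_cast; linear_combination hs + h6)
          have b3 : (X - C x0) ^ 2 ∣ d - e := by
            have := dvd_sub b2 b1
            have h7 : f + C ((s + 1 : ℤ) : K) * d + C ((-1 : ℤ) : K) * e -
              (f + C ((s : ℤ) : K) * d + C ((0 : ℤ) : K) * e) = d - e := by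
              push_cast; simp only [C_add, C_neg, C_1, C_0]; ring
            rwa [h7] at this
          exact Dvd.dvd.mul_left b3 _
        · rw [cube_sub, derivative_sub]; linear_combination h1 - h2
        · rw [cube_sub, derivative_sub]; linear_combination -h3
        · rw [cube_sub, derivative_sub]; linear_combination -h3
      · refine ⟨?_, fin (d + e) (by simpa using h6) hde ?_ ?_ ?_⟩
        · have b1 := hsqv s 0 (by simpa using hs)
          have b2 := hsqv (s + 1) 1 (by push_cast; linear_combination hs + h6)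
          have b3 : (X - C x0) ^ 2 ∣ d + e := by
            have := dvd_sub b2 b1
            have h7 : f + C ((s + 1 : ℤ) : K) * d + C ((1 : ℤ) : K) * e -
              (f + C ((s : ℤ) : K) * d + C ((0 : ℤ) : K) * e) = d + e := by
              push_cast; simp only [C_add, C_1, C_0]; ring
            rwa [h7] at this
          exact Dvd.dvd.mul_right (Dvd.dvd.mul_left b3 _) _
        · rw [cube_add, derivative_add]; linear_combination h1 + h2
        · rw [cube_add, derivative_add]; linear_combination h3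
        · rw [cube_add, derivative_add]; linear_combination -h3

end Pool.Agent.Helper999.Sq3
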