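import Mathlib
set_option autoImplicit false
open Polynomial

namespace Pool.Agent.Helper999.Sq3

theorem sq_dvd_of_roots {K : Type*} [Field K] [IsAlgClosed K] (b L : K[X]) (hb : b ≠ 0)
    (h : ∀ x0 : K, b.eval x0 = 0 → (X - C x0) ^ 2 ∣ L ∧ ¬ (X - C x0) ^ 2 ∣ b) :
    b ^ 2 ∣ L := by
  classical
  have hnd : b.roots.Nodup := by
    rw [Multiset.nodup_iff_count_le_one]
    intro a
    rw [count_roots]
    by_contra hcon
    push Not at hcon
    have h2 : (X - C a) ^ 2 ∣ b := (le_rootMultiplicity_iff hb).1 hcon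
    have h3 : b.eval a = 0 := by
      have : IsRoot b a := by
        rw [← rootMultiplicity_pos hb]; omega
      exact this
    exact (h a h3).2 h2
  have hsp : b = C b.leadingCoeff * (b.roots.map (fun a => X - C a)).prod :=
    (IsAlgClosed.splits b).eq_prod_roots
  have hfin : (b.roots.map (fun a => X - C a)).prod = ∏ a ∈ b.roots.toFinset, (X - C a) := by
    rw [Finset.prod_eq_multiset_prod, Multiset.toFinset_val, hnd.dedup]
  have hd : ∏ a ∈ b.roots.toFinset, (X - C a) ^ 2 ∣ L := by
    apply Finset.prod_dvd_of_coprime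
    · intro a _ c _ hac
      exact IsCoprime.pow (isCoprime_X_sub_C_of_isUnit_sub (sub_ne_zero.2 hac).isUnit)
    · intro a ha
      have : b.eval a = 0 := (mem_roots hb).1 (Multiset.mem_toFinset.1 ha)
      exact (h a this).1
  have hu : IsUnit (C (b.leadingCoeff ^ 2)) :=
    isUnit_C.2 (pow_ne_zero 2 (leadingCoeff_ne_zero.2 hb)).isUnit
  rw [hsp, hfin, mul_pow, ← C_pow, ← Finset.prod_pow]
  exact (hu.mul_left_dvd).2 hd

end Pool.Agent.Helper999.Sq3
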