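import Pool.Agent.Helper999.Sq3.Defs
import Mathlib
set_option autoImplicit false
open Polynomial

namespace Pool.Agent.Helper999.Sq3



theorem Sys.j13653_l00 {K : Type*} [Field K] {n : ℕ} {f d e : K[X]} (h : Sys n f d e) :
    f.degree = ((2 * n : ℕ) : WithBot ℕ) := by
  have h1 := h.deg 0 0
  simpa using h1

theorem j13653_dvd {K : Type*} [Field K] (x0 : K) (p : K[X]) (hp : IsSquare p)
    (h0 : p.eval x0 = 0) : ∃ g : K[X], p = (X - C x0) ^ 2 * (g * g) := by
  obtain ⟨g, rfl⟩ := hp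
  have h1 : g.eval x0 = 0 := by
    rw [eval_mul] at h0
    exact mul_self_eq_zero.1 h0
  obtain ⟨g1, rfl⟩ := dvd_iff_isRoot.2 h1
  exact ⟨g1, by ring⟩

theorem j13653_deg {K : Type*} [Field K] (x0 : K) (q : K[X]) (m : ℕ)
    (h : ((X - C x0) ^ 2 * q).degree = ((2 * (m + 1) : ℕ) : WithBot ℕ)) :
    q.degree = ((2 * m : ℕ) : WithBot ℕ) := by
  have hq : q ≠ 0 := by
    rintro rfl
    rw [mul_zero, degree_zero] at h
    exact WithBot.bot_ne_natCast _ h
  rw [degree_mul, degree_pow, degree_X_sub_C, degree_eq_natDegree hq] at h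
  rw [degree_eq_natDegree hq]
  have h2 : 2 • (1 : WithBot ℕ) = ((2 : ℕ) : WithBot ℕ) := by rw [two_nsmul]; rfl
  rw [h2] at h
  have h3 : 2 + q.natDegree = 2 * (m + 1) := by exact_mod_cast h
  have h4 : q.natDegree = 2 * m := by omega
  rw [h4]

theorem j13653_npos {K : Type*} [Field K] (x0 : K) (q : K[X]) (n : ℕ)
    (h : ((X - C x0) ^ 2 * q).degree = ((2 * n : ℕ) : WithBot ℕ)) : 1 ≤ n := by
  have hq : q ≠ 0 := by
    rintro rfl
    rw [mul_zero, degree_zero] at h
    exact WithBot.bot_ne_natCast _ h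
  rw [degree_mul, degree_pow, degree_X_sub_C, degree_eq_natDegree hq] at h
  have h2 : 2 • (1 : WithBot ℕ) = ((2 : ℕ) : WithBot ℕ) := by rw [two_nsmul]; rfl
  rw [h2] at h
  have h3 : 2 + q.natDegree = 2 * n := by exact_mod_cast h
  omega

theorem descend_root {K : Type*} [Field K] (n : ℕ) (f d e : K[X]) (hS : Sys n f d e)
    (x0 : K) (hf : f.eval x0 = 0) (hd : d.eval x0 = 0) (he : e.eval x0 = 0) :
    ∃ (m : ℕ) (f1 d1 e1 : K[X]), m < n ∧ Sys m f1 d1 e1 := by
  have hp0 : (X - C x0 : K[X]) ^ 2 ≠ 0 := pow_ne_zero 2 (X_sub_C_ne_zero x0)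
  have hl : ∀ s t : ℤ, ∃ g : K[X], f + C (s : K) * d + C (t : K) * e =
      (X - C x0) ^ 2 * (g * g) := fun s t =>
    j13653_dvd x0 _ (hS.sq s t) (by simp [hf, hd, he])
  obtain ⟨g0, h0⟩ := hl 0 0
  obtain ⟨g1, h1⟩ := hl 1 0
  obtain ⟨g2, h2⟩ := hl 0 1
  have e0 : f = (X - C x0) ^ 2 * (g0 * g0) := by simpa using h0
  have e1 : d = (X - C x0) ^ 2 * (g1 * g1 - g0 * g0) := by
    have i1 : f + d = (X - C x0) ^ 2 * (g1 * g1) := by simpa using h1
    have i2 : d = (f + d) - f := by ring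
    rw [i2, i1, e0]; ring
  have e2 : e = (X - C x0) ^ 2 * (g2 * g2 - g0 * g0) := by
    have i1 : f + e = (X - C x0) ^ 2 * (g2 * g2) := by simpa using h2
    have i2 : e = (f + e) - f := by ring
    rw [i2, i1, e0]; ring
  have hn : 1 ≤ n := j13653_npos x0 _ n (e0 ▸ hS.j13653_l00)
  obtain ⟨m, rfl⟩ : ∃ m, n = m + 1 := ⟨n - 1, by omega⟩
  have hlin : ∀ s t : ℤ, f + C (s : K) * d + C (t : K) * e = (X - C x0) ^ 2 *
      (g0 * g0 + C (s : K) * (g1 * g1 - g0 * g0) + C (t : K) * (g2 * g2 - g0 * g0)) := by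
    intro s t
    conv_lhs => rw [e0, e1, e2]
    ring
  refine ⟨m, g0 * g0, g1 * g1 - g0 * g0, g2 * g2 - g0 * g0, Nat.lt_succ_self m, ?_⟩
  refine ⟨?_, ?_, ?_, ?_, ?_, ?_, ?_⟩
  · intro s t
    obtain ⟨g, hg⟩ := hl s t
    rw [hlin] at hg
    exact ⟨g, mul_left_cancel₀ hp0 hg⟩
  · intro s t
    have i1 := hS.deg s t
    rw [hlin] at i1
    exact j13653_deg x0 _ m i1
  · have i1 := hS.degd
    rw [e1] at i1
    exact j13653_deg x0 _ m i1
  · have i1 := hS.dege
    rw [e2] at i1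
    exact j13653_deg x0 _ m i1
  · have i1 := hS.degp
    rw [e1, e2, ← mul_add] at i1
    exact j13653_deg x0 _ m i1
  · have i1 := hS.degm
    rw [e1, e2, ← mul_sub] at i1
    exact j13653_deg x0 _ m i1
  · intro c hc
    apply hS.nprop c
    rw [e1, e2, hc]
    ring

theorem j13653_cube {K : Type*} [Field K] [IsAlgClosed K] [CharP K 3] (f : K[X])
    (hf : derivative f = 0) : ∃ g : K[X], f = g ^ 3 := by
  have : Fact (Nat.Prime 3) := ⟨Nat.prime_three⟩
  have : ExpChar K 3 := ExpChar.prime Nat.prime_three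
  have : PerfectRing K 3 := inferInstance
  refine ⟨map (frobeniusEquiv K 3).symm.toRingHom (contract 3 f), ?_⟩
  rw [← map_frobenius_expand (R := K) (p := 3), map_expand, map_map]
  have h1 : (frobenius K 3).comp (frobeniusEquiv K 3).symm.toRingHom = RingHom.id K := by
    ext x
    show frobenius K 3 ((frobeniusEquiv K 3).symm x) = x
    exact frobenius_apply_frobeniusEquiv_symm K 3 x
  rw [h1, map_id, expand_contract 3 hf (by norm_num)]

theorem j13653_lin {K : Type*} [Field K] [CharP K 3] (f d e : K[X]) (s t : ℤ) :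
    (f + C (s : K) * d + C (t : K) * e) ^ 3 = f ^ 3 + C (s : K) * d ^ 3 + C (t : K) * e ^ 3 := by
  have : Fact (Nat.Prime 3) := ⟨Nat.prime_three⟩
  have : ExpChar K 3 := ExpChar.prime Nat.prime_three
  have hi : ∀ s : ℤ, ((s : K)) ^ 3 = (s : K) := by
    intro s
    have := map_intCast (frobenius K 3) s
    rwa [frobenius_def] at this
  rw [add_pow_expChar, add_pow_expChar, mul_pow, mul_pow, ← C_pow, ← C_pow, hi, hi]

theorem j13653_deg3 {K : Type*} [Field K] (p : K[X]) (m : ℕ)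
    (h : (p ^ 3).degree = ((2 * (3 * m) : ℕ) : WithBot ℕ)) :
    p.degree = ((2 * m : ℕ) : WithBot ℕ) := by
  have hp : p ≠ 0 := by
    rintro rfl
    rw [zero_pow (by norm_num), degree_zero] at h
    exact WithBot.bot_ne_natCast _ h
  have h1 : (p ^ 3).natDegree = 2 * (3 * m) := natDegree_eq_of_degree_eq_some h
  rw [natDegree_pow] at h1
  rw [degree_eq_natDegree hp]
  have h2 : p.natDegree = 2 * m := by omega
  rw [h2]

theorem descend_cube {K : Type*} [Field K] [IsAlgClosed K] [CharP K 3] (n : ℕ) (f d e : K[X])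
    (hS : Sys n f d e)
    (hf : derivative f = 0) (hd : derivative d = 0) (he : derivative e = 0) :
    ∃ (m : ℕ) (f1 d1 e1 : K[X]), m < n ∧ Sys m f1 d1 e1 := by
  have : Fact (Nat.Prime 3) := ⟨Nat.prime_three⟩
  have : ExpChar K 3 := ExpChar.prime Nat.prime_three
  obtain ⟨f1, rfl⟩ := j13653_cube f hf
  obtain ⟨d1, rfl⟩ := j13653_cube d hd
  obtain ⟨e1, rfl⟩ := j13653_cube e he
  have h0 := hS.j13653_l00
  obtain ⟨m, rfl⟩ : ∃ m, n = 3 * m := by
    have h1 : (f1 ^ 3).natDegree = 2 * n := natDegree_eq_of_degree_eq_some h0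
    rw [natDegree_pow] at h1
    exact ⟨n / 3, by omega⟩
  refine ⟨m, f1, d1, e1, ?_, ?_⟩
  · by_contra hcon
    have hm : m = 0 := by omega
    subst hm
    have h1 : (d1 ^ 3).degree = 0 := by simpa using hS.degd
    have h2 : (e1 ^ 3).degree = 0 := by simpa using hS.dege
    rw [eq_C_of_degree_eq_zero h1] at h1
    have h3 := eq_C_of_degree_eq_zero (p := d1 ^ 3) (by simpa using hS.degd)
    have h4 := eq_C_of_degree_eq_zero h2
    have h5 : (d1 ^ 3).coeff 0 ≠ 0 := by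
      intro h6
      rw [h6, C_0, degree_zero] at h1
      exact WithBot.bot_ne_zero h1
    apply hS.nprop ((e1 ^ 3).coeff 0 / (d1 ^ 3).coeff 0)
    have h6 : C ((e1 ^ 3).coeff 0 / (d1 ^ 3).coeff 0) * d1 ^ 3 =
        C ((e1 ^ 3).coeff 0 / (d1 ^ 3).coeff 0) * C ((d1 ^ 3).coeff 0) := by rw [← h3]
    rw [h6, ← C_mul, div_mul_cancel₀ _ h5]
    exact h4
  · refine ⟨?_, ?_, ?_, ?_, ?_, ?_, ?_⟩
    · intro s t
      have i1 := hS.sq s t
      have i2 := hS.deg s t
      rw [← j13653_lin] at i1 i2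
      set L := f1 + C (s : K) * d1 + C (t : K) * e1 with hL
      have hL0 : L ≠ 0 := by
        intro h
        rw [h, zero_pow (by norm_num), degree_zero] at i2
        exact WithBot.bot_ne_natCast _ i2
      obtain ⟨g, hg⟩ := i1
      have i3 : L ^ 2 ∣ g ^ 2 := ⟨L, by rw [pow_two g, ← hg]; ring⟩
      have i4 : L ∣ g := (IsIntegrallyClosed.pow_dvd_pow_iff (by norm_num)).1 i3
      obtain ⟨z, rfl⟩ := i4
      refine ⟨z, ?_⟩
      have i5 : L ^ 2 * L = L ^ 2 * (z * z) := by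
        rw [← pow_succ, hg]; ring
      exact mul_left_cancel₀ (pow_ne_zero 2 hL0) i5
    · intro s t
      have i2 := hS.deg s t
      rw [← j13653_lin] at i2
      exact j13653_deg3 _ m i2
    · exact j13653_deg3 _ m hS.degd
    · exact j13653_deg3 _ m hS.dege
    · have i1 := hS.degp
      rw [← add_pow_expChar] at i1
      exact j13653_deg3 _ m i1
    · have i1 := hS.degm
      rw [← sub_pow_expChar] at i1
      exact j13653_deg3 _ m i1
    · intro c hc
      apply hS.nprop (c ^ 3)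
      rw [hc, mul_pow, C_pow]

end Pool.Agent.Helper999.Sq3
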