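import Mathlib
set_option autoImplicit false
open Polynomial

namespace Pool.Agent.Helper999.Sq3

theorem deriv_zero_of_wr {K : Type*} [Field K] [IsAlgClosed K] (f d e : K[X])
    (hf0 : f ≠ 0)
    (hco : ∀ x : K, ¬ (f.eval x = 0 ∧ d.eval x = 0 ∧ e.eval x = 0))
    (h1 : f * derivative d = derivative f * d) (h2 : f * derivative e = derivative f * e) :
    derivative f = 0 ∧ derivative d = 0 ∧ derivative e = 0 := by
  set I : Ideal K[X] := Ideal.span {f, d, e} with hI
  obtain ⟨g, hg⟩ := (IsPrincipalIdealRing.principal I).principal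
  have hmem : ∀ q ∈ I, g ∣ q := by
    intro q hq
    rw [hg] at hq
    exact Ideal.mem_span_singleton.1 hq
  have hf : g ∣ f := hmem f (Ideal.subset_span (by simp))
  have hd : g ∣ d := hmem d (Ideal.subset_span (by simp))
  have he : g ∣ e := hmem e (Ideal.subset_span (by simp))
  have hg0 : g ≠ 0 := by
    rintro rfl
    exact hf0 (zero_dvd_iff.1 hf)
  have hdeg : g.degree = 0 := by
    by_contra hne
    obtain ⟨x, hx⟩ := IsAlgClosed.exists_root g hne
    apply hco x
    exact ⟨eval_eq_zero_of_dvd_of_eval_eq_zero hf hx, eval_eq_zero_of_dvd_of_eval_eq_zero hd hx,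
      eval_eq_zero_of_dvd_of_eval_eq_zero he hx⟩
  have hunit : IsUnit g := by
    rw [isUnit_iff_degree_eq_zero]; exact hdeg
  have h1I : (1 : K[X]) ∈ I := by
    rw [hg]
    exact Ideal.mem_span_singleton.2 hunit.dvd
  rw [hI, Ideal.mem_span_insert] at h1I
  obtain ⟨a, z, hz, haz⟩ := h1I
  rw [Ideal.mem_span_pair] at hz
  obtain ⟨b, c, hbc⟩ := hz
  have hdv : f ∣ derivative f := by
    refine ⟨a * derivative f + b * derivative d + c * derivative e, ?_⟩
    calc derivative f = 1 * derivative f := (one_mul _).symm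
      _ = (a * f + (b * d + c * e)) * derivative f := by rw [haz, hbc]
      _ = a * f * derivative f + b * (derivative f * d) + c * (derivative f * e) := by ring
      _ = a * f * derivative f + b * (f * derivative d) + c * (f * derivative e) := by rw [h1, h2]
      _ = _ := by ring
  have hf' : derivative f = 0 := eq_zero_of_dvd_of_degree_lt hdv (degree_derivative_lt hf0)
  refine ⟨hf', ?_, ?_⟩
  · rw [hf', zero_mul] at h1
    exact (mul_eq_zero.1 h1).resolve_left hf0
  · rw [hf', zero_mul] at h2
    exact (mul_eq_zero.1 h2).resolve_left hf0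

end Pool.Agent.Helper999.Sq3
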