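import Pool.Agent.Helper999.Sq3.Defs
import Mathlib
set_option autoImplicit false
open Polynomial

namespace Pool.Agent.Helper999.Sq3



theorem aux_neg_sq (p q : (ZMod 3)[X]) (h : p * p + q * q = 0) : p = 0 := by
  have h1 : p * p = -(q * q) := eq_neg_of_add_eq_zero_left h
  have h2 := congrArg leadingCoeff h1
  rw [leadingCoeff_neg, leadingCoeff_mul, leadingCoeff_mul] at h2
  have h3 : ∀ x y : ZMod 3, x * x = -(y * y) → x = 0 := by decide
  exact leadingCoeff_eq_zero.1 (h3 _ _ h2)

/-- move the point `x0` to infinity -/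
noncomputable def TT {F K : Type*} [Field F] [Field K] [Algebra F K] (N : ℕ) (x0 : K) (l : F[X]) :
    K[X] := reflect N (taylor x0 (l.map (algebraMap F K)))

section TT
variable {F K : Type*} [Field F] [Field K] [Algebra F K] (N : ℕ) (x0 : K)

theorem TT_add (l m : F[X]) : TT N x0 (l + m) = TT N x0 l + TT N x0 m := by
  unfold TT
  rw [Polynomial.map_add, map_add, reflect_add]

theorem TT_sub (l m : F[X]) : TT N x0 (l - m) = TT N x0 l - TT N x0 m := by
  unfold TT
  rw [Polynomial.map_sub, map_sub, reflect_sub]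

theorem TT_C_mul (c : F) (l : F[X]) : TT N x0 (C c * l) = C (algebraMap F K c) * TT N x0 l := by
  unfold TT
  rw [Polynomial.map_mul, Polynomial.map_C, taylor_mul, taylor_C, reflect_C_mul]

theorem TT_degree (l : F[X]) (hl : l.natDegree ≤ N)
    (hx : (l.map (algebraMap F K)).eval x0 ≠ 0) : (TT N x0 l).degree = (N : WithBot ℕ) := by
  have h1 : (TT N x0 l).coeff N = (l.map (algebraMap F K)).eval x0 := by
    unfold TT
    rw [coeff_reflect, revAt_le le_rfl, Nat.sub_self, taylor_coeff_zero]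
  have h2 : (TT N x0 l).natDegree ≤ N := by
    refine natDegree_reflect_le.trans ?_
    rw [natDegree_taylor]
    exact max_le le_rfl (natDegree_map_le.trans hl)
  have h3 : (TT N x0 l).coeff N ≠ 0 := by rw [h1]; exact hx
  apply le_antisymm
  · exact natDegree_le_iff_degree_le.1 h2
  · exact le_degree_of_ne_zero h3

theorem TT_square (n : ℕ) (l : F[X]) (hl : l.natDegree ≤ n) (hs : IsSquare l) :
    IsSquare (TT (2 * n) x0 l) := by
  obtain ⟨g, hg⟩ := hs
  by_cases hg0 : g = 0
  · rw [hg, hg0]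
    refine ⟨0, ?_⟩
    simp [TT]
  have hgd : g.natDegree ≤ n := by
    have h1 : l.natDegree = g.natDegree + g.natDegree := by
      rw [hg, natDegree_mul hg0 hg0]
    omega
  refine ⟨reflect n (taylor x0 (g.map (algebraMap F K))), ?_⟩
  unfold TT
  have h2 : (taylor x0 (g.map (algebraMap F K))).natDegree ≤ n := by
    rw [natDegree_taylor]; exact natDegree_map_le.trans hgd
  rw [hg, Polynomial.map_mul, taylor_mul, two_mul, reflect_mul _ _ h2 h2]

theorem TT_inj {l m : F[X]} {c : K} (h : TT N x0 l = C c * TT N x0 m) :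
    l.map (algebraMap F K) = C c * m.map (algebraMap F K) := by
  unfold TT at h
  rw [← reflect_C_mul] at h
  have h1 := congrArg (reflect N) h
  rw [reflect_reflect, reflect_reflect] at h1
  apply taylor_injective x0
  rw [h1, taylor_mul, taylor_C]

end TT

theorem no_plane_of_no_sys
    (hno : ∀ (n : ℕ) (f d e : (AlgebraicClosure (ZMod 3))[X]), ¬ Sys n f d e)
    (f d e : (ZMod 3)[X]) (h : ∀ s t : ZMod 3, IsSquare (f + C s * d + C t * e)) :
    ∃ s t : ZMod 3, (s, t) ≠ (0, 0) ∧ C s * d + C t * e = 0 := by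
  classical
  by_contra hcon
  have hcon' : ∀ s t : ZMod 3, (s, t) ≠ (0, 0) → C s * d + C t * e ≠ 0 :=
    fun s t hst h0 => hcon ⟨s, t, hst, h0⟩
  have hd : d ≠ 0 := by
    have := hcon' 1 0 (by decide)
    simpa using this
  have he : e ≠ 0 := by
    have := hcon' 0 1 (by decide)
    simpa using this
  have hp : d + e ≠ 0 := by
    have := hcon' 1 1 (by decide)
    simpa using this
  have hm : d - e ≠ 0 := by
    have := hcon' 1 (-1) (by decide)
    simpa [sub_eq_add_neg] using this
  have hf : ∀ s t : ZMod 3, f + C s * d + C t * e ≠ 0 := by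
    intro s0 t0 h0
    have h1 : IsSquare d := by
      have := h (s0 + 1) t0
      have e1 : f + C (s0 + 1) * d + C t0 * e = (f + C s0 * d + C t0 * e) + d := by
        rw [C_add, C_1]; ring
      rwa [e1, h0, zero_add] at this
    have h2 : IsSquare (-d) := by
      have := h (s0 - 1) t0
      have e1 : f + C (s0 - 1) * d + C t0 * e = (f + C s0 * d + C t0 * e) + -d := by
        rw [C_sub, C_1]; ring
      rwa [e1, h0, zero_add] at this
    obtain ⟨p, hp'⟩ := h1
    obtain ⟨q, hq'⟩ := h2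
    have h3 := aux_neg_sq p q (by rw [← hp', ← hq']; ring)
    apply hd
    rw [hp', h3]; simp
  obtain ⟨P, hP⟩ : ∃ P : (ZMod 3)[X],
      P = (∏ s : ZMod 3, ∏ t : ZMod 3, (f + C s * d + C t * e)) * (d * e * (d + e) * (d - e)) :=
    ⟨_, rfl⟩
  have hP0 : P ≠ 0 := by
    rw [hP]
    exact mul_ne_zero (Finset.prod_ne_zero_iff.2 fun s _ =>
      Finset.prod_ne_zero_iff.2 fun t _ => hf s t)
      (mul_ne_zero (mul_ne_zero (mul_ne_zero hd he) hp) hm)
  have hinj : Function.Injective (algebraMap (ZMod 3) (AlgebraicClosure (ZMod 3))) :=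
    (algebraMap (ZMod 3) (AlgebraicClosure (ZMod 3))).injective
  have hPm : P.map (algebraMap (ZMod 3) (AlgebraicClosure (ZMod 3))) ≠ 0 :=
    (Polynomial.map_ne_zero_iff hinj).2 hP0
  have : Infinite (AlgebraicClosure (ZMod 3)) := inferInstance
  obtain ⟨x0, hx0⟩ : ∃ x0 : AlgebraicClosure (ZMod 3),
      eval x0 (P.map (algebraMap (ZMod 3) (AlgebraicClosure (ZMod 3)))) ≠ 0 := by
    by_contra hc
    apply hPm
    apply Polynomial.funext
    intro x
    rw [eval_zero]
    by_contra hx
    exact hc ⟨x, hx⟩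
  have hdiv : ∀ l : (ZMod 3)[X], l ∣ P →
      eval x0 (l.map (algebraMap (ZMod 3) (AlgebraicClosure (ZMod 3)))) ≠ 0 := by
    rintro l ⟨m, hlm⟩ h0
    apply hx0
    rw [hlm, Polynomial.map_mul, eval_mul, h0, zero_mul]
  obtain ⟨n, hn⟩ : ∃ n, n = f.natDegree + d.natDegree + e.natDegree := ⟨_, rfl⟩
  have hnf : ∀ s t : ZMod 3, (f + C s * d + C t * e).natDegree ≤ n := by
    intro s t
    refine (natDegree_add_le _ _).trans (max_le ((natDegree_add_le _ _).trans (max_le ?_ ?_)) ?_)
    · omega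
    · refine (natDegree_C_mul_le _ _).trans ?_
      omega
    · refine (natDegree_C_mul_le _ _).trans ?_
      omega
  have hform : ∀ s t : ℤ, TT (2 * n) x0 f + C (s : AlgebraicClosure (ZMod 3)) * TT (2 * n) x0 d +
      C (t : AlgebraicClosure (ZMod 3)) * TT (2 * n) x0 e =
      TT (2 * n) x0 (f + C ((s : ℤ) : ZMod 3) * d + C ((t : ℤ) : ZMod 3) * e) := by
    intro s t
    have q1 : ∀ r : ℤ, (algebraMap (ZMod 3) (AlgebraicClosure (ZMod 3))) ((r : ℤ) : ZMod 3) =
        ((r : ℤ) : AlgebraicClosure (ZMod 3)) := fun r => map_intCast _ r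
    rw [TT_add, TT_add, TT_C_mul, TT_C_mul, q1, q1]
  have dP : (∏ s : ZMod 3, ∏ t : ZMod 3, (f + C s * d + C t * e)) ∣ P := by
    rw [hP]; exact dvd_mul_right _ _
  have dP2 : (d * e * (d + e) * (d - e)) ∣ P := by
    rw [hP]; exact dvd_mul_left _ _
  have dsys : ∀ s t : ZMod 3, (f + C s * d + C t * e) ∣ P := by
    intro s t
    have h1 : (f + C s * d + C t * e) ∣ ∏ t' : ZMod 3, (f + C s * d + C t' * e) :=
      Finset.dvd_prod_of_mem (fun t' : ZMod 3 => f + C s * d + C t' * e) (Finset.mem_univ t)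
    have h2 : (∏ t' : ZMod 3, (f + C s * d + C t' * e)) ∣
        ∏ s : ZMod 3, ∏ t : ZMod 3, (f + C s * d + C t * e) :=
      Finset.dvd_prod_of_mem (fun s' : ZMod 3 => ∏ t' : ZMod 3, (f + C s' * d + C t' * e))
        (Finset.mem_univ s)
    exact (h1.trans h2).trans dP
  refine hno n (TT (2 * n) x0 f) (TT (2 * n) x0 d) (TT (2 * n) x0 e) ⟨?_, ?_, ?_, ?_, ?_, ?_, ?_⟩
  · intro s t
    rw [hform]
    exact TT_square x0 n _ (hnf _ _) (h _ _)
  · intro s t
    rw [hform]
    exact TT_degree (2 * n) x0 _ ((hnf _ _).trans (by omega)) (hdiv _ (dsys _ _))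
  · refine TT_degree (2 * n) x0 _ (by omega) (hdiv _ (Dvd.dvd.trans ?_ dP2))
    exact ⟨e * (d + e) * (d - e), by ring⟩
  · refine TT_degree (2 * n) x0 _ (by omega) (hdiv _ (Dvd.dvd.trans ?_ dP2))
    exact ⟨d * (d + e) * (d - e), by ring⟩
  · rw [← TT_add]
    refine TT_degree (2 * n) x0 _ ?_ (hdiv _ (Dvd.dvd.trans ?_ dP2))
    · exact (natDegree_add_le _ _).trans (max_le (by omega) (by omega))
    · exact ⟨d * e * (d - e), by ring⟩
  · rw [← TT_sub]
    refine TT_degree (2 * n) x0 _ ?_ (hdiv _ (Dvd.dvd.trans ?_ dP2))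
    · exact (natDegree_sub_le _ _).trans (max_le (by omega) (by omega))
    · exact ⟨d * e * (d + e), by ring⟩
  · intro c hc
    have h1 := TT_inj (2 * n) x0 hc
    obtain ⟨i, hi⟩ : ∃ i, d.coeff i ≠ 0 := by
      by_contra hc'
      apply hd
      ext i
      by_contra h2
      exact hc' ⟨i, by simpa using h2⟩
    have h2 := congrArg (fun p => coeff p i) h1
    simp only [coeff_map, coeff_C_mul] at h2
    have h3 : c = algebraMap (ZMod 3) (AlgebraicClosure (ZMod 3)) (e.coeff i / d.coeff i) := by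
      rw [map_div₀, h2, mul_div_cancel_right₀]
      intro h4
      exact hi (hinj (by rw [h4, map_zero]))
    have h4 : e = C (e.coeff i / d.coeff i) * d := by
      apply Polynomial.map_injective _ hinj
      rw [h1, Polynomial.map_mul, Polynomial.map_C, ← h3]
    apply hcon' (-(e.coeff i / d.coeff i)) 1 (by simp)
    rw [C_neg, C_1, one_mul]
    have h5 : C (e.coeff i / d.coeff i) * d = e := h4.symm
    rw [neg_mul, h5]
    ring

end Pool.Agent.Helper999.Sq3
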