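import Mathlib
set_option autoImplicit false
open Polynomial

namespace Pool.Agent.Helper999.Sq3

/-- A magic plane of nine squares all of whose thirteen forms have degree exactly `2 n`. -/
structure Sys {K : Type*} [Field K] (n : ℕ) (f d e : K[X]) : Prop where
  sq : ∀ s t : ℤ, IsSquare (f + C (s : K) * d + C (t : K) * e)
  deg : ∀ s t : ℤ, (f + C (s : K) * d + C (t : K) * e).degree = ((2 * n : ℕ) : WithBot ℕ)
  degd : d.degree = ((2 * n : ℕ) : WithBot ℕ)
  dege : e.degree = ((2 * n : ℕ) : WithBot ℕ)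
  degp : (d + e).degree = ((2 * n : ℕ) : WithBot ℕ)
  degm : (d - e).degree = ((2 * n : ℕ) : WithBot ℕ)
  nprop : ∀ c : K, e ≠ C c * d

end Pool.Agent.Helper999.Sq3
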