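import Mathlib
import Pool.Agent.Helper999.Sq3.Defs
import Pool.Agent.Helper999.Sq3.A1
import Pool.Agent.Helper999.Sq3.A2
import Pool.Agent.Helper999.Sq3.A3
import Pool.Agent.Helper999.Sq3.A4
import Pool.Agent.Helper999.Sq3.A5
import Pool.Agent.Helper999.Sq3.A6
import Pool.Agent.Helper999.Sq3.A7
import Pool.Agent.Helper999.Sq3.A8
import Pool.Agent.Helper999.Sq3.A9
set_option autoImplicit false
open Polynomial

namespace Pool.Agent.Helper999.Sq3

theorem three_zero (K : Type*) [Field K] [CharP K 3] : (3 : K[X]) = 0 := by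
  have h : ((3 : ℕ) : K[X]) = 0 := by
    have := CharP.cast_eq_zero K[X] 3
    exact this
  exact_mod_cast h

/-- second half: from the foliation relation to a contradiction -/
theorem foliation_absurd {K : Type*} [Field K] [IsAlgClosed K] [CharP K 3] (n : ℕ)
    (f d e a b D0 W0 : K[X]) (hS : Sys n f d e)
    (hco : ∀ x : K, ¬ (f.eval x = 0 ∧ d.eval x = 0 ∧ e.eval x = 0))
    (ha : f = a * a) (hb : f + d = b * b)
    (hD0 : D0 ≠ 0) (hW0 : W0 ≠ 0)
    (r1 : D0 * (derivative f * d - f * derivative d) = W0 * (f ^ 3 * d - f * d ^ 3))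
    (r2 : D0 * (derivative f * e - f * derivative e) = W0 * (f ^ 3 * e - f * e ^ 3))
    (r3 : D0 * (derivative d * e - d * derivative e) = W0 * (d ^ 3 * e - d * e ^ 3)) :
    False := by
  have h3 := three_zero K
  have two : (2 : K) ≠ 0 := by
    intro h
    have h3' : (3 : K) = 0 := by
      have := CharP.cast_eq_zero K 3
      exact_mod_cast this
    have : (1 : K) = 0 := by linear_combination h3' - h
    exact one_ne_zero this
  have two' : (2 : K[X]) ≠ 0 := by
    intro h
    have : (1 : K[X]) = 0 := by linear_combination h3 - h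
    exact one_ne_zero this
  have dne : ∀ q : K[X], q.degree = ((2 * n : ℕ) : WithBot ℕ) → q ≠ 0 ∧ q.natDegree = 2 * n := by
    intro q hq
    refine ⟨fun h => ?_, natDegree_eq_of_degree_eq_some hq⟩
    rw [h, degree_zero] at hq
    exact WithBot.bot_ne_coe hq
  obtain ⟨d0, dd⟩ := dne d hS.degd
  obtain ⟨e0, de⟩ := dne e hS.dege
  obtain ⟨p0, dp⟩ := dne _ hS.degp
  obtain ⟨m0, dm⟩ := dne _ hS.degm
  obtain ⟨f0, df⟩ := dne f (by simpa using hS.deg 0 0)
  obtain ⟨fd0, dfd⟩ := dne (f + d) (by simpa using hS.deg 1 0)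
  obtain ⟨fm0, dfm⟩ := dne (f - d) (by
    have := hS.deg (-1) 0
    simpa [sub_eq_add_neg] using this)
  have a0 : a ≠ 0 := by rintro rfl; exact f0 (by rw [ha]; ring)
  have b0 : b ≠ 0 := by rintro rfl; exact fd0 (by rw [hb]; ring)
  have da : a.natDegree = n := by
    have := df
    rw [ha, natDegree_mul a0 a0] at this
    omega
  have db : b.natDegree = n := by
    have := dfd
    rw [hb, natDegree_mul b0 b0] at this
    omega
  set W : K[X] := 2 * (derivative a * b - a * derivative b) with hW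
  set D : K[X] := a * b * (a ^ 4 - b ^ 4) with hD
  have h44 : a ^ 4 - b ^ 4 = d * (f - d) := by
    have e1 : a ^ 4 - b ^ 4 = (a * a - b * b) * (a * a + b * b) := by ring
    rw [e1, ← ha, ← hb]
    linear_combination (-f * d) * h3
  have h44' : (a ^ 4 - b ^ 4).natDegree = 4 * n ∧ a ^ 4 - b ^ 4 ≠ 0 := by
    rw [h44]
    refine ⟨?_, mul_ne_zero d0 fm0⟩
    rw [natDegree_mul d0 fm0]
    omega
  have D_ne : D ≠ 0 := mul_ne_zero (mul_ne_zero a0 b0) h44'.2
  have dD : D.natDegree = 6 * n := by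
    rw [hD, natDegree_mul (mul_ne_zero a0 b0) h44'.2, natDegree_mul a0 b0, h44'.1]
    omega
  have key : D0 * W = W0 * D := by
    have hfd : derivative f = 2 * a * derivative a := by
      rw [ha, derivative_mul]; ring
    have hdd : derivative d = 2 * b * derivative b - 2 * a * derivative a := by
      have : d = b * b - a * a := by rw [← hb, ← ha]; ring
      rw [this, derivative_sub, derivative_mul, derivative_mul]; ring
    have hdv : d = b * b - a * a := by rw [← hb, ← ha]; ring
    have h1 : D0 * W * (a * b) = W0 * D * (a * b) := by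
      have lhs : derivative f * d - f * derivative d
          = 2 * (derivative a * b - a * derivative b) * (a * b) := by
        rw [hfd, hdd, hdv, ha]; ring
      have rhs : f ^ 3 * d - f * d ^ 3 = a * b * (a ^ 4 - b ^ 4) * (a * b) := by
        rw [hdv, ha]
        linear_combination (a ^ 4 * b ^ 4 - a ^ 6 * b ^ 2) * h3
      rw [lhs, rhs] at r1
      rw [hW, hD]
      linear_combination r1
    exact mul_right_cancel₀ (mul_ne_zero a0 b0) h1
  have W_ne : W ≠ 0 := by
    intro h
    rw [h, mul_zero] at key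
    exact (mul_ne_zero hW0 D_ne) key.symm
  -- relations for W, D
  have tr : ∀ x y : K[X], D0 * x = W0 * y → D * x = W * y := by
    intro x y h
    apply mul_left_cancel₀ hD0
    linear_combination D * h - y * key
  have q1 := tr _ _ r1
  have q2 := tr _ _ r2
  have q3 := tr _ _ r3
  -- lowest terms
  obtain ⟨g, b', n', hg0, hDb, hWn, hcop⟩ : ∃ g b' n' : K[X], g ≠ 0 ∧ D = g * b' ∧ W = g * n' ∧
      IsCoprime b' n' := by
    classical
    have hgcd : EuclideanDomain.gcd D W ≠ 0 := by
      intro h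
      exact D_ne (EuclideanDomain.gcd_eq_zero_iff.1 h).1
    obtain ⟨b', hb'⟩ := EuclideanDomain.gcd_dvd_left D W
    obtain ⟨n', hn'⟩ := EuclideanDomain.gcd_dvd_right D W
    refine ⟨EuclideanDomain.gcd D W, b', n', hgcd, hb', hn', ?_⟩
    have hbez := EuclideanDomain.gcd_eq_gcd_ab D W
    refine ⟨EuclideanDomain.gcdA D W, EuclideanDomain.gcdB D W, ?_⟩
    apply mul_left_cancel₀ hgcd
    linear_combination (-EuclideanDomain.gcdA D W) * hb' - (EuclideanDomain.gcdB D W) * hn' - hbez
  have b'0 : b' ≠ 0 := by rintro rfl; exact D_ne (by rw [hDb]; ring)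
  have n'0 : n' ≠ 0 := by rintro rfl; exact W_ne (by rw [hWn]; ring)
  have tr2 : ∀ x y : K[X], D * x = W * y → b' * x = n' * y := by
    intro x y h
    apply mul_left_cancel₀ hg0
    linear_combination h - x * hDb + y * hWn
  have hsqd : b' ^ 2 ∣ d * e * (d + e) * (d - e) := by
    apply sq_dvd_of_roots b' _ b'0
    intro x0 hx0
    have hn : n'.eval x0 ≠ 0 := by
      intro hn
      obtain ⟨u, v, huv⟩ := hcop
      have := congrArg (fun q => q.eval x0) huv
      simp [hx0, hn] at this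
    exact pole_lemma f d e b' n' x0 hn hx0 (tr2 _ _ q1) (tr2 _ _ q2) (tr2 _ _ q3) (hco x0)
      d0 e0 p0 m0 hS.sq
  have hL0 : d * e * (d + e) * (d - e) ≠ 0 :=
    mul_ne_zero (mul_ne_zero (mul_ne_zero d0 e0) p0) m0
  have hdL : (d * e * (d + e) * (d - e)).natDegree = 8 * n := by
    rw [natDegree_mul (mul_ne_zero (mul_ne_zero d0 e0) p0) m0,
      natDegree_mul (mul_ne_zero d0 e0) p0, natDegree_mul d0 e0]
    omega
  have h1 := natDegree_le_of_dvd hsqd hL0
  rw [natDegree_pow, hdL] at h1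
  have h2 : D.natDegree = g.natDegree + b'.natDegree := by rw [hDb, natDegree_mul hg0 b'0]
  have h4 : W.natDegree = g.natDegree + n'.natDegree := by rw [hWn, natDegree_mul hg0 n'0]
  have hwr : W.natDegree + 2 ≤ 2 * n := by
    have hne : a * derivative b - derivative a * b ≠ 0 := by
      intro h
      apply W_ne
      rw [hW]
      linear_combination (-2) * h
    have := wr_natDegree a b n da db hne
    have hWe : W = C (-2 : K) * (a * derivative b - derivative a * b) := by
      rw [hW]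
      simp only [map_neg, map_ofNat]
      ring
    rw [hWe, natDegree_C_mul (by simpa using two)]
    exact this
  omega

theorem no_sys {K : Type*} [Field K] [IsAlgClosed K] [CharP K 3] :
    ∀ (n : ℕ) (f d e : K[X]), ¬ Sys n f d e := by
  intro n
  induction n using Nat.strong_induction_on with
  | _ n ih =>
  intro f d e hS
  by_cases hco : ∀ x : K, ¬ (f.eval x = 0 ∧ d.eval x = 0 ∧ e.eval x = 0)
  swap
  · push Not at hco
    obtain ⟨x0, hf, hd, he⟩ := hco
    obtain ⟨m, f1, d1, e1, hm, hS1⟩ := descend_root n f d e hS x0 hf hd he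
    exact ih m hm f1 d1 e1 hS1
  by_cases hder : derivative f = 0 ∧ derivative d = 0 ∧ derivative e = 0
  · obtain ⟨hf, hd, he⟩ := hder
    obtain ⟨m, f1, d1, e1, hm, hS1⟩ := descend_cube n f d e hS hf hd he
    exact ih m hm f1 d1 e1 hS1
  have h3 := three_zero K
  have dne : ∀ q : K[X], q.degree = ((2 * n : ℕ) : WithBot ℕ) → q ≠ 0 ∧ q.natDegree = 2 * n := by
    intro q hq
    refine ⟨fun h => ?_, natDegree_eq_of_degree_eq_some hq⟩
    rw [h, degree_zero] at hq
    exact WithBot.bot_ne_coe hq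
  obtain ⟨d0, dd⟩ := dne d hS.degd
  obtain ⟨e0, de⟩ := dne e hS.dege
  obtain ⟨p0, dp⟩ := dne _ hS.degp
  obtain ⟨m0, dm⟩ := dne _ hS.degm
  obtain ⟨f0, df⟩ := dne f (by simpa using hS.deg 0 0)
  -- one row
  have row : ∀ t : ℤ, ∃ a b c h : K[X],
      (f + C (t : K) * e) = a * a ∧ (f + C (t : K) * e) + d = b * b ∧
      (f + C (t : K) * e) - d = c * c ∧
      (f + C (t : K) * e) * derivative d - derivative (f + C (t : K) * e) * d = h * (a * b * c) ∧
      derivative (a * b * c) = -(d * h) ∧ (a * b * c).natDegree = 3 * n ∧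
      (h ≠ 0 → h.natDegree + 2 ≤ n) := by
    intro t
    obtain ⟨a, ha⟩ := hS.sq 0 t
    obtain ⟨b, hb⟩ := hS.sq 1 t
    obtain ⟨c, hc⟩ := hS.sq (-1) t
    obtain ⟨la0, dla⟩ := dne _ (hS.deg 0 t)
    obtain ⟨lb0, dlb⟩ := dne _ (hS.deg 1 t)
    obtain ⟨lc0, dlc⟩ := dne _ (hS.deg (-1) t)
    rw [ha] at la0 dla
    rw [hb] at lb0 dlb
    rw [hc] at lc0 dlc
    have a0 : a ≠ 0 := left_ne_zero_of_mul la0
    have b0 : b ≠ 0 := left_ne_zero_of_mul lb0
    have c0 : c ≠ 0 := left_ne_zero_of_mul lc0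
    rw [natDegree_mul a0 a0] at dla
    rw [natDegree_mul b0 b0] at dlb
    rw [natDegree_mul c0 c0] at dlc
    have ha' : f + C (t : K) * e = a * a := by rw [← ha]; simp
    have hb' : f + C (t : K) * e + d = b * b := by rw [← hb]; simp; ring
    have hc' : f + C (t : K) * e - d = c * c := by rw [← hc]; simp; ring
    obtain ⟨h, h1, h2⟩ := line_lemma a b c d (by rw [pow_two, pow_two, ← ha', ← hb'])
      (by rw [pow_two, pow_two, ← ha', ← hc']) a0 b0 c0
    have hdeg : (a * b * c).natDegree = 3 * n := by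
      rw [natDegree_mul (mul_ne_zero a0 b0) c0, natDegree_mul a0 b0]
      omega
    refine ⟨a, b, c, h, ha', hb', hc', ?_, h2, hdeg, ?_⟩
    · rw [ha', ← pow_two]; exact h1
    · intro hh
      have hprod : h * (a * b * c) ≠ 0 := mul_ne_zero hh (mul_ne_zero (mul_ne_zero a0 b0) c0)
      have h5 := wr_natDegree (a ^ 2) d (2 * n) (by rw [pow_two, natDegree_mul a0 a0]; omega) dd
        (by rw [h1]; exact hprod)
      rw [h1, natDegree_mul hh (mul_ne_zero (mul_ne_zero a0 b0) c0), hdeg] at h5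
      omega
  obtain ⟨a0, b0, c0, h0, ha0, hb0, hc0, hA0, hg0, dg0, dh0⟩ := row 0
  obtain ⟨a1, b1, c1, h1, ha1, hb1, hc1, hA1, hg1, dg1, dh1⟩ := row 1
  obtain ⟨a2, b2, c2, h2, ha2, hb2, hc2, hA2, hg2, dg2, dh2⟩ := row 2
  have ct0 : C ((0 : ℤ) : K) = 0 := by simp
  have ct1 : C ((1 : ℤ) : K) = 1 := by simp
  have ct2 : C ((2 : ℤ) : K) = 2 := by
    rw [show ((2 : ℤ) : K) = 2 by norm_num]
    exact map_ofNat C 2
  rw [ct0, zero_mul, add_zero] at ha0 hb0 hc0 hA0
  rw [ct1, one_mul] at ha1 hb1 hc1 hA1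
  rw [ct2] at ha2 hb2 hc2 hA2
  have G0 : (a0 * b0 * c0) ^ 2 = f ^ 3 - f * d ^ 2 := by
    have : (a0 * b0 * c0) ^ 2 = (a0 * a0) * (b0 * b0) * (c0 * c0) := by ring
    rw [this, ← ha0, ← hb0, ← hc0]; ring
  have G1 : (a1 * b1 * c1) ^ 2 = (f + e) ^ 3 - (f + e) * d ^ 2 := by
    have : (a1 * b1 * c1) ^ 2 = (a1 * a1) * (b1 * b1) * (c1 * c1) := by ring
    rw [this, ← ha1, ← hb1, ← hc1]; ring
  have G2 : (a2 * b2 * c2) ^ 2 = (f + 2 * e) ^ 3 - (f + 2 * e) * d ^ 2 := by
    have : (a2 * b2 * c2) ^ 2 = (a2 * a2) * (b2 * b2) * (c2 * c2) := by ring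
    rw [this, ← ha2, ← hb2, ← hc2]; ring
  have hGe : (a1 * b1 * c1) ^ 2 - (a0 * b0 * c0) ^ 2 = e * (e + d) * (e - d) := by
    rw [G0, G1]
    linear_combination (f ^ 2 * e + f * e ^ 2) * h3
  have hne : (a0 * b0 * c0) ^ 2 ≠ (a1 * b1 * c1) ^ 2 := by
    intro h
    rw [h, sub_self] at hGe
    have h5 : e * (e + d) * (e - d) ≠ 0 := by
      apply mul_ne_zero (mul_ne_zero e0 (by rw [add_comm]; exact p0))
      rw [← neg_sub]; exact neg_ne_zero.2 m0
    exact h5 hGe.symm
  have hsum : (a0 * b0 * c0) ^ 2 + (a1 * b1 * c1) ^ 2 + (a2 * b2 * c2) ^ 2 = 0 := by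
    rw [G0, G1, G2]
    linear_combination (f ^ 3 + 3 * f ^ 2 * e + 5 * f * e ^ 2 + 3 * e ^ 3 - d ^ 2 * f
      - d ^ 2 * e) * h3
  -- the Wronskians do not all vanish
  have wr_absurd : f * derivative d = derivative f * d → f * derivative e = derivative f * e →
      False := fun k1 k2 => hder (deriv_zero_of_wr f d e f0 hco k1 k2)
  have hh : ¬ (h0 = 0 ∧ h1 = 0 ∧ h2 = 0) := by
    rintro ⟨k0, k1, -⟩
    rw [k0, zero_mul] at hA0
    rw [k1, zero_mul, derivative_add] at hA1
    have e1 : f * derivative d = derivative f * d := by linear_combination hA0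
    have e2 : e * derivative d = derivative e * d := by linear_combination hA1 - hA0
    refine wr_absurd e1 ?_
    apply mul_right_cancel₀ d0
    linear_combination e * e1 - f * e2
  have hco2 : ∀ x : K, ¬ ((a0 * b0 * c0).eval x = 0 ∧ (a1 * b1 * c1).eval x = 0 ∧
      (a2 * b2 * c2).eval x = 0 ∧ d.eval x = 0) := by
    rintro x ⟨k0, k1, -, kd⟩
    have r0 := congrArg (fun q => q.eval x) G0
    have r1 := congrArg (fun q => q.eval x) G1
    simp only [eval_pow, eval_sub, eval_add, eval_mul, kd] at r0 r1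
    simp only [eval_mul] at k0 k1
    rw [k0] at r0
    rw [k1] at r1
    have rf : f.eval x = 0 := by
      have : f.eval x ^ 3 = 0 := by linear_combination -r0
      exact pow_eq_zero_iff (by norm_num) |>.1 this
    have re : e.eval x = 0 := by
      rw [rf] at r1
      have : e.eval x ^ 3 = 0 := by linear_combination -r1
      exact pow_eq_zero_iff (by norm_num) |>.1 this
    exact hco x ⟨rf, kd, re⟩
  have hrow := rows_lemma n conic_param d _ _ _ h0 h1 h2 d0 hsum hg0 hg1 hg2 dg0 dh0 dh1 dh2 hne hh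
    hco2
  have hhg : h0 * (a1 * b1 * c1) = h1 * (a0 * b0 * c0) := by
    apply mul_left_cancel₀ d0
    rw [hg0, hg1] at hrow
    linear_combination -hrow
  set g0 := a0 * b0 * c0 with hg0d
  set g1 := a1 * b1 * c1 with hg1d
  have hAA : (f * derivative d - derivative f * d) * g1 ^ 2 =
      ((f + e) * derivative d - derivative (f + e) * d) * g0 ^ 2 := by
    rw [hA0, hA1]
    linear_combination (g0 * g1) * hhg
  rw [derivative_add] at hAA
  have hg00 : g0 ≠ 0 := by
    intro h
    have := dg0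
    rw [h, natDegree_zero] at this
    -- n = 0 then everything constant
    rw [h, zero_pow (by norm_num)] at G0
    have : f ^ 3 - f * d ^ 2 = f * (f + d) * (f - d) := by ring
    rw [this] at G0
    obtain ⟨fd0, -⟩ := dne (f + d) (by simpa using hS.deg 1 0)
    obtain ⟨fm0, -⟩ := dne (f - d) (by
      have := hS.deg (-1) 0
      simpa [sub_eq_add_neg] using this)
    exact mul_ne_zero (mul_ne_zero f0 fd0) fm0 G0.symm
  -- relations
  set A0 := f * derivative d - derivative f * d with hA0d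
  have r1 : (g0 ^ 2 * d) * (derivative f * d - f * derivative d) =
      (-A0) * (f ^ 3 * d - f * d ^ 3) := by
    rw [hA0d, G0]; ring
  have r3' : (g0 ^ 2 * d) * (derivative e * d - e * derivative d) =
      (-A0) * (e ^ 3 * d - e * d ^ 3) := by
    have h5 : (e * derivative d - derivative e * d) * g0 ^ 2 = A0 * (g1 ^ 2 - g0 ^ 2) := by
      linear_combination -hAA
    rw [hGe] at h5
    linear_combination (-d) * h5
  have r2 : (g0 ^ 2 * d) * (derivative f * e - f * derivative e) =
      (-A0) * (f ^ 3 * e - f * e ^ 3) := by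
    apply mul_left_cancel₀ d0
    linear_combination e * r1 - f * r3'
  have r3 : (g0 ^ 2 * d) * (derivative d * e - d * derivative e) =
      (-A0) * (d ^ 3 * e - d * e ^ 3) := by
    linear_combination -r3'
  have hD0 : g0 ^ 2 * d ≠ 0 := mul_ne_zero (pow_ne_zero 2 hg00) d0
  have hA00 : -A0 ≠ 0 := by
    intro h
    rw [h, zero_mul] at r1 r2
    have e1 := (mul_eq_zero.1 r1).resolve_left hD0
    have e2 := (mul_eq_zero.1 r2).resolve_left hD0
    exact wr_absurd (by linear_combination -e1) (by linear_combination -e2)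
  exact foliation_absurd n f d e a0 b0 (g0 ^ 2 * d) (-A0) hS hco ha0 hb0 hD0 hA00 r1 r2 r3

/-- **Theorem A.** No nondegenerate affine plane of nine squares in `𝔽₃[x]`. -/
theorem no_square_plane (f d e : (ZMod 3)[X])
    (h : ∀ s t : ZMod 3, IsSquare (f + C s * d + C t * e)) :
    ∃ s t : ZMod 3, (s, t) ≠ (0, 0) ∧ C s * d + C t * e = 0 :=
  haveI : CharP (AlgebraicClosure (ZMod 3)) 3 := inferInstance
  no_plane_of_no_sys (fun n f d e => no_sys n f d e) f d e h

end Pool.Agent.Helper999.Sq3
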