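import Pool.Agent.Helper999.Sq3.GDefs
import Mathlib
set_option autoImplicit false

namespace Pool.Agent.Helper999.Sq3



/-- exponents of total degree at most `p - 1` -/
def capset_slicesP_Th (p : ℕ) : Finset (Fin p × Fin p × Fin p) :=
  Finset.univ.filter (fun t => (t.1 : ℕ) + (t.2.1 : ℕ) + (t.2.2 : ℕ) ≤ p - 1)

/-- polynomial functions of degree at most `p - 1` in three variables -/
def capset_slicesP_Rep (p : ℕ) (F : ZMod p → ZMod p → ZMod p → ZMod p) : Prop :=
  ∃ coef : Fin p × Fin p × Fin p → ZMod p, ∀ a b c : ZMod p, F a b c =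
    ∑ t ∈ capset_slicesP_Th p, coef t * (a ^ (t.1 : ℕ) * b ^ (t.2.1 : ℕ) * c ^ (t.2.2 : ℕ))

theorem capset_slicesP_rep_add {p : ℕ} {F G : ZMod p → ZMod p → ZMod p → ZMod p}
    (hF : capset_slicesP_Rep p F) (hG : capset_slicesP_Rep p G) :
    capset_slicesP_Rep p (fun a b c => F a b c + G a b c) := by
  obtain ⟨f, hf⟩ := hF
  obtain ⟨g, hg⟩ := hG
  refine ⟨fun t => f t + g t, fun a b c => ?_⟩
  beta_reduce
  rw [hf, hg, ← Finset.sum_add_distrib]
  exact Finset.sum_congr rfl fun t _ => by ring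

theorem capset_slicesP_rep_smul {p : ℕ} {F : ZMod p → ZMod p → ZMod p → ZMod p} (k : ZMod p)
    (hF : capset_slicesP_Rep p F) : capset_slicesP_Rep p (fun a b c => k * F a b c) := by
  obtain ⟨f, hf⟩ := hF
  refine ⟨fun t => k * f t, fun a b c => ?_⟩
  beta_reduce
  rw [hf, Finset.mul_sum]
  exact Finset.sum_congr rfl fun t _ => by ring

theorem capset_slicesP_rep_zero {p : ℕ} : capset_slicesP_Rep p (fun _ _ _ => 0) :=
  ⟨fun _ => 0, fun a b c => by simp⟩

theorem capset_slicesP_rep_sum {p : ℕ} {ι : Type} (s : Finset ι)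
    (F : ι → ZMod p → ZMod p → ZMod p → ZMod p) (h : ∀ i ∈ s, capset_slicesP_Rep p (F i)) :
    capset_slicesP_Rep p (fun a b c => ∑ i ∈ s, F i a b c) := by
  classical
  induction s using Finset.induction_on with
  | empty => simpa using capset_slicesP_rep_zero
  | insert i s hi ih =>
    have h1 := capset_slicesP_rep_add (h i (Finset.mem_insert_self i s))
      (ih fun j hj => h j (Finset.mem_insert_of_mem hj))
    obtain ⟨f, hf⟩ := h1
    refine ⟨f, fun a b c => ?_⟩
    beta_reduce
    rw [Finset.sum_insert hi]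
    exact hf a b c

theorem capset_slicesP_rep_mon {p : ℕ} (hp : 0 < p) (i j k : ℕ) (h : i + j + k ≤ p - 1) :
    capset_slicesP_Rep p (fun a b c => a ^ i * b ^ j * c ^ k) := by
  classical
  have hi : i < p := by omega
  have hj : j < p := by omega
  have hk : k < p := by omega
  refine ⟨fun t => if t = (⟨i, hi⟩, ⟨j, hj⟩, ⟨k, hk⟩) then 1 else 0, fun a b c => ?_⟩
  rw [Finset.sum_eq_single ((⟨i, hi⟩, ⟨j, hj⟩, ⟨k, hk⟩) : Fin p × Fin p × Fin p)]
  · simp
  · intro t _ ht
    beta_reduce
    rw [if_neg ht, zero_mul]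
  · intro h1
    exfalso
    apply h1
    rw [capset_slicesP_Th, Finset.mem_filter]
    exact ⟨Finset.mem_univ _, h⟩

theorem capset_slicesP_single (p : ℕ) [Fact p.Prime] :
    capset_slicesP_Rep p (fun a b c => 1 - (a - 2 * b + c) ^ (p - 1)) := by
  have hp : 0 < p := (Fact.out : p.Prime).pos
  have h0 : capset_slicesP_Rep p (fun _ _ _ => 1) := by
    have := capset_slicesP_rep_mon hp 0 0 0 (by omega)
    simpa using this
  have h1 : capset_slicesP_Rep p (fun a b c => ∑ i ∈ Finset.range (p - 1 + 1),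
      ∑ j ∈ Finset.range (i + 1), (-((-2 : ZMod p) ^ (i - j) * (i.choose j : ZMod p) *
        ((p - 1).choose i : ZMod p))) * (a ^ j * b ^ (i - j) * c ^ (p - 1 - i))) := by
    refine capset_slicesP_rep_sum _ _ fun i hi => capset_slicesP_rep_sum _ _ fun j hj =>
      capset_slicesP_rep_smul _ (capset_slicesP_rep_mon hp j (i - j) (p - 1 - i) ?_)
    rw [Finset.mem_range] at hi hj
    omega
  obtain ⟨f, hf⟩ := capset_slicesP_rep_add h0 h1
  refine ⟨f, fun a b c => ?_⟩
  rw [← hf]
  have h2 : (a - 2 * b + c) ^ (p - 1) = ∑ i ∈ Finset.range (p - 1 + 1),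
      ∑ j ∈ Finset.range (i + 1), ((-2 : ZMod p) ^ (i - j) * (i.choose j : ZMod p) *
        ((p - 1).choose i : ZMod p)) * (a ^ j * b ^ (i - j) * c ^ (p - 1 - i)) := by
    have e1 : a - 2 * b + c = (a + (-2) * b) + c := by ring
    rw [e1, add_pow]
    refine Finset.sum_congr rfl fun i _ => ?_
    rw [add_pow, Finset.sum_mul, Finset.sum_mul]
    refine Finset.sum_congr rfl fun j _ => ?_
    rw [mul_pow]
    ring
  simp only
  rw [h2, sub_eq_add_neg, ← Finset.sum_neg_distrib]
  congr 1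
  refine Finset.sum_congr rfl fun i _ => ?_
  rw [← Finset.sum_neg_distrib]
  refine Finset.sum_congr rfl fun j _ => ?_
  ring

/-- monomials -/
def capset_slicesP_mon {p n : ℕ} (α : Fin n → Fin p) (x : Fin n → ZMod p) : ZMod p :=
  ∏ i, x i ^ (α i : ℕ)

theorem capset_slicesP_expand {p n : ℕ} (coef : Fin p × Fin p × Fin p → ZMod p)
    (hcoef : ∀ a b c : ZMod p, 1 - (a - 2 * b + c) ^ (p - 1) =
      ∑ t ∈ capset_slicesP_Th p, coef t * (a ^ (t.1 : ℕ) * b ^ (t.2.1 : ℕ) * c ^ (t.2.2 : ℕ)))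
    (x y z : Fin n → ZMod p) :
    ∏ i, (1 - (x i - 2 * y i + z i) ^ (p - 1)) =
      ∑ t ∈ Fintype.piFinset (fun _ : Fin n => capset_slicesP_Th p),
        (∏ i, coef (t i)) * (capset_slicesP_mon (fun i => (t i).1) x *
          capset_slicesP_mon (fun i => (t i).2.1) y * capset_slicesP_mon (fun i => (t i).2.2) z) := by
  rw [Finset.prod_congr rfl fun i _ => hcoef _ _ _, Finset.prod_univ_sum]
  refine Finset.sum_congr rfl fun t _ => ?_
  rw [Finset.prod_mul_distrib, Finset.prod_mul_distrib, Finset.prod_mul_distrib]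
  rfl

theorem capset_slicesP_ind {p n : ℕ} [Fact p.Prime] (A : Finset (Fin n → ZMod p))
    (hA : ∀ x ∈ A, ∀ y ∈ A, ∀ z ∈ A, x + z = y + y → x = y)
    (x y z : Fin n → ZMod p) (hx : x ∈ A) (hy : y ∈ A) (hz : z ∈ A) :
    (if x = y ∧ y = z then (1 : ZMod p) else 0) =
      ∏ i, (1 - (x i - 2 * y i + z i) ^ (p - 1)) := by
  have hp : 1 < p := (Fact.out : p.Prime).one_lt
  by_cases h : x = y ∧ y = z
  · rw [if_pos h]
    obtain ⟨rfl, rfl⟩ := h
    symm
    apply Finset.prod_eq_one
    intro i _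
    have h1 : x i - 2 * x i + x i = 0 := by ring
    rw [h1, zero_pow (by omega), sub_zero]
  · rw [if_neg h]
    symm
    have h1 : x + z ≠ y + y := by
      intro h2
      have h3 := hA x hx y hy z hz h2
      apply h
      refine ⟨h3, ?_⟩
      rw [h3] at h2
      exact (add_left_cancel h2).symm
    obtain ⟨i, hi⟩ := Function.ne_iff.1 h1
    apply Finset.prod_eq_zero (Finset.mem_univ i)
    have h4 : x i - 2 * y i + z i ≠ 0 := by
      intro h5
      apply hi
      simp only [Pi.add_apply]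
      linear_combination h5
    rw [ZMod.pow_card_sub_one_eq_one h4, sub_self]

theorem capset_slicesP_low {p n : ℕ} (t : Fin n → Fin p × Fin p × Fin p)
    (ht : t ∈ Fintype.piFinset (fun _ : Fin n => capset_slicesP_Th p))
    (h1 : (fun i => (t i).1) ∉ LowP p n) (h2 : (fun i => (t i).2.1) ∉ LowP p n) :
    (fun i => (t i).2.2) ∈ LowP p n := by
  rw [LowP, Finset.mem_filter] at *
  simp only [Finset.mem_univ, true_and, not_le] at *
  have h3 : ∑ i, (((t i).1 : ℕ) + ((t i).2.1 : ℕ) + ((t i).2.2 : ℕ)) ≤ ∑ i : Fin n, (p - 1) := by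
    refine Finset.sum_le_sum fun i _ => ?_
    have := Fintype.mem_piFinset.1 ht i
    rw [capset_slicesP_Th, Finset.mem_filter] at this
    exact this.2
  rw [Finset.sum_add_distrib, Finset.sum_add_distrib] at h3
  simp only [Finset.sum_const, Finset.card_univ, Fintype.card_fin, smul_eq_mul] at h3
  rw [mul_comm n (p - 1)] at h3
  omega

theorem capset_slicesP_fiber {p n : ℕ} (P : Finset (Fin n → Fin p × Fin p × Fin p))
    (g : (Fin n → Fin p × Fin p × Fin p) → (Fin n → Fin p)) (hg : ∀ t ∈ P, g t ∈ LowP p n)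
    (m : (Fin n → Fin p) → ZMod p) (f : (Fin n → Fin p × Fin p × Fin p) → ZMod p) :
    ∑ t ∈ P, m (g t) * f t = ∑ α : {α // α ∈ LowP p n}, m α * ∑ t ∈ P with g t = α, f t := by
  rw [← Finset.sum_fiberwise_of_maps_to hg]
  rw [← Finset.sum_coe_sort (LowP p n)]
  refine Finset.sum_congr rfl fun α _ => ?_
  rw [Finset.mul_sum]
  refine Finset.sum_congr rfl fun t ht => ?_
  rw [(Finset.mem_filter.1 ht).2]

theorem capset_slicesP (p : ℕ) [Fact p.Prime] (hp2 : p ≠ 2) (n : ℕ)
    (slice : ∀ {A I J L : Type} [Fintype A] [DecidableEq A] [Fintype I] [Fintype J] [Fintype L]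
      (u : I → A → ZMod p) (U : I → A → A → ZMod p) (v : J → A → ZMod p) (V : J → A → A → ZMod p)
      (w : L → A → ZMod p) (W : L → A → A → ZMod p)
      (_ : ∀ x y z : A, (if x = y ∧ y = z then (1 : ZMod p) else 0) =
        ∑ i, u i x * U i y z + ∑ j, v j y * V j x z + ∑ l, w l z * W l x y),
      Fintype.card A ≤ Fintype.card I + Fintype.card J + Fintype.card L)
    (A : Finset (Fin n → ZMod p))
    (hA : ∀ x ∈ A, ∀ y ∈ A, ∀ z ∈ A, x + z = y + y → x = y) :
    A.card ≤ 3 * (LowP p n).card := by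
  classical
  obtain ⟨coef, hcoef⟩ := capset_slicesP_single p
  obtain ⟨P, hP⟩ : ∃ P, P = Fintype.piFinset (fun _ : Fin n => capset_slicesP_Th p) := ⟨_, rfl⟩
  have key := slice (A := {x // x ∈ A}) (I := {α // α ∈ LowP p n}) (J := {α // α ∈ LowP p n})
    (L := {α // α ∈ LowP p n})
    (fun α x => capset_slicesP_mon α.1 x.1)
    (fun α y z => ∑ t ∈ (P.filter (fun t => (fun i => (t i).1) ∈ LowP p n)) with
      (fun i => (t i).1) = α.1, (∏ i, coef (t i)) *
        (capset_slicesP_mon (fun i => (t i).2.1) y.1 * capset_slicesP_mon (fun i => (t i).2.2) z.1))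
    (fun α y => capset_slicesP_mon α.1 y.1)
    (fun α x z => ∑ t ∈ (P.filter (fun t => ¬ (fun i => (t i).1) ∈ LowP p n ∧
      (fun i => (t i).2.1) ∈ LowP p n)) with (fun i => (t i).2.1) = α.1,
        (∏ i, coef (t i)) *
        (capset_slicesP_mon (fun i => (t i).1) x.1 * capset_slicesP_mon (fun i => (t i).2.2) z.1))
    (fun α z => capset_slicesP_mon α.1 z.1)
    (fun α x y => ∑ t ∈ (P.filter (fun t => ¬ (fun i => (t i).1) ∈ LowP p n ∧
      ¬ (fun i => (t i).2.1) ∈ LowP p n)) with (fun i => (t i).2.2) = α.1,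
        (∏ i, coef (t i)) *
        (capset_slicesP_mon (fun i => (t i).1) x.1 * capset_slicesP_mon (fun i => (t i).2.1) y.1))
    (fun x y z => by
      have h0 : (if x = y ∧ y = z then (1 : ZMod p) else 0) =
          (if x.1 = y.1 ∧ y.1 = z.1 then (1 : ZMod p) else 0) := by
        simp only [Subtype.ext_iff]
      rw [h0, capset_slicesP_ind A hA x.1 y.1 z.1 x.2 y.2 z.2, capset_slicesP_expand coef hcoef, ← hP]
      rw [← capset_slicesP_fiber (P.filter (fun t => (fun i => (t i).1) ∈ LowP p n))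
        (fun t i => (t i).1) (fun t ht => (Finset.mem_filter.1 ht).2)
        (fun α => capset_slicesP_mon α x.1)]
      rw [← capset_slicesP_fiber (P.filter (fun t => ¬ (fun i => (t i).1) ∈ LowP p n ∧
          (fun i => (t i).2.1) ∈ LowP p n)) (fun t i => (t i).2.1)
        (fun t ht => (Finset.mem_filter.1 ht).2.2) (fun α => capset_slicesP_mon α y.1)]
      rw [← capset_slicesP_fiber (P.filter (fun t => ¬ (fun i => (t i).1) ∈ LowP p n ∧
          ¬ (fun i => (t i).2.1) ∈ LowP p n)) (fun t i => (t i).2.2)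
        (fun t ht => by
          rw [Finset.mem_filter, hP] at ht
          exact capset_slicesP_low t ht.1 ht.2.1 ht.2.2) (fun α => capset_slicesP_mon α z.1)]
      rw [← Finset.sum_filter_add_sum_filter_not P (fun t => (fun i => (t i).1) ∈ LowP p n),
        ← Finset.sum_filter_add_sum_filter_not (P.filter (fun t => ¬ (fun i => (t i).1) ∈ LowP p n))
          (fun t => (fun i => (t i).2.1) ∈ LowP p n), Finset.filter_filter, Finset.filter_filter,
        ← add_assoc]
      congr 1
      · congr 1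
        · exact Finset.sum_congr rfl fun t _ => by ring
        · exact Finset.sum_congr rfl fun t _ => by ring
      · exact Finset.sum_congr rfl fun t _ => by ring)
  simp only [Fintype.card_coe] at key
  omega

end Pool.Agent.Helper999.Sq3
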