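import Pool.Agent.Helper999.Sq3.GDefs
import Mathlib
set_option autoImplicit false

namespace Pool.Agent.Helper999.Sq3



theorem lowP_card_bound (p n : ℕ) (t : ℝ) (ht0 : 0 < t) (ht1 : t ≤ 1) :
    ((LowP p n).card : ℝ) * (t ^ (p - 1)) ^ n ≤ (∑ j : Fin p, (t ^ 3) ^ (j : ℕ)) ^ n := by
  rw [Fintype.sum_pow]
  calc ((LowP p n).card : ℝ) * (t ^ (p - 1)) ^ n
      = ∑ _α ∈ LowP p n, (t ^ (p - 1)) ^ n := by rw [Finset.sum_const, nsmul_eq_mul]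
    _ ≤ ∑ α ∈ LowP p n, ∏ i, (t ^ 3) ^ (α i : ℕ) := by
        apply Finset.sum_le_sum
        intro α hα
        rw [Finset.prod_pow_eq_pow_sum, ← pow_mul, ← pow_mul]
        apply pow_le_pow_of_le_one ht0.le ht1
        exact (Finset.mem_filter.1 hα).2
    _ ≤ ∑ α : Fin n → Fin p, ∏ i, (t ^ 3) ^ (α i : ℕ) := by
        apply Finset.sum_le_sum_of_subset_of_nonneg (Finset.subset_univ _)
        intro α _ _
        positivity

theorem lowP_card_exists (p : ℕ) (hp : 2 ≤ p) :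
    ∃ t : ℝ, 0 < t ∧ t ≤ 1 ∧ ∑ j : Fin p, (t ^ 3) ^ (j : ℕ) < p * t ^ (p - 1) := by
  have hd : HasDerivAt (fun t : ℝ => ∑ j : Fin p, (t ^ 3) ^ (j : ℕ) - p * t ^ (p - 1))
      (∑ j : Fin p, ((j : ℕ) * ((1 : ℝ) ^ 3) ^ ((j : ℕ) - 1) * ((3 : ℕ) * (1 : ℝ) ^ (3 - 1))) -
        p * (((p - 1 : ℕ) : ℝ) * (1 : ℝ) ^ (p - 1 - 1))) 1 := by
    apply HasDerivAt.sub
    · apply HasDerivAt.fun_sum
      intro j _
      have h1 : HasDerivAt (fun t : ℝ => t ^ 3) ((3 : ℕ) * (1 : ℝ) ^ (3 - 1)) 1 :=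
        hasDerivAt_pow 3 1
      exact h1.pow (j : ℕ)
    · exact (hasDerivAt_pow (p - 1) (1 : ℝ)).const_mul (p : ℝ)
  have hval : (∑ j : Fin p, ((j : ℕ) * ((1 : ℝ) ^ 3) ^ ((j : ℕ) - 1) * ((3 : ℕ) * (1 : ℝ) ^ (3 - 1))) -
        p * (((p - 1 : ℕ) : ℝ) * (1 : ℝ) ^ (p - 1 - 1))) = (p : ℝ) * (p - 1) / 2 := by
    simp only [one_pow, mul_one]
    rw [← Finset.sum_mul]
    have h1 : (∑ j : Fin p, ((j : ℕ) : ℝ)) = (p : ℝ) * (p - 1) / 2 := by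
      rw [Fin.sum_univ_eq_sum_range (fun j => (j : ℝ)) p]
      have h2 := Finset.sum_range_id_mul_two p
      have h3 : ((∑ i ∈ Finset.range p, i : ℕ) : ℝ) * 2 = (p : ℝ) * ((p - 1 : ℕ) : ℝ) := by
        exact_mod_cast h2
      rw [Nat.cast_sub (by omega), Nat.cast_one, Nat.cast_sum] at h3
      linarith
    rw [h1, Nat.cast_sub (by omega)]
    push_cast
    ring
  rw [hval] at hd
  have hp' : (2 : ℝ) ≤ p := by exact_mod_cast hp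
  have hpos : (0 : ℝ) < (p : ℝ) * (p - 1) / 2 := by
    have : (0 : ℝ) < (p : ℝ) * (p - 1) := mul_pos (by linarith) (by linarith)
    linarith
  have h2 := (hasDerivAt_iff_tendsto_slope.1 hd).eventually (lt_mem_nhds hpos)
  have h3 : ∀ᶠ t in nhdsWithin (1 : ℝ) (Set.Iio 1), 0 < slope (fun t : ℝ =>
      ∑ j : Fin p, (t ^ 3) ^ (j : ℕ) - p * t ^ (p - 1)) 1 t :=
    h2.filter_mono (nhdsWithin_mono _ (fun x hx => ne_of_lt hx))
  have h4 : ∀ᶠ t in nhdsWithin (1 : ℝ) (Set.Iio 1), t ∈ Set.Ioo (0 : ℝ) 1 :=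
    Ioo_mem_nhdsLT (by norm_num)
  obtain ⟨t, ht1, ht2⟩ := (h3.and h4).exists
  refine ⟨t, ht2.1, ht2.2.le, ?_⟩
  rw [slope_def_field] at ht1
  have h5 : (∑ j : Fin p, (t ^ 3) ^ (j : ℕ) - p * t ^ (p - 1)) -
      (∑ j : Fin p, ((1 : ℝ) ^ 3) ^ (j : ℕ) - p * (1 : ℝ) ^ (p - 1)) < 0 := by
    by_contra h6
    push Not at h6
    have : (∑ j : Fin p, (t ^ 3) ^ (j : ℕ) - p * t ^ (p - 1) -
      (∑ j : Fin p, ((1 : ℝ) ^ 3) ^ (j : ℕ) - p * (1 : ℝ) ^ (p - 1))) / (t - 1) ≤ 0 :=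
      div_nonpos_of_nonneg_of_nonpos h6 (by linarith [ht2.2])
    linarith
  simp only [one_pow, mul_one, Finset.sum_const, Finset.card_univ, Fintype.card_fin,
    nsmul_eq_mul, sub_self, sub_zero] at h5
  linarith

theorem lowP_card (p : ℕ) (hp : 2 ≤ p) :
    ∃ ρ : ℝ, 1 ≤ ρ ∧ ρ < p ∧ ∀ n : ℕ, ((LowP p n).card : ℝ) ≤ ρ ^ n := by
  obtain ⟨t, ht0, ht1, ht⟩ := lowP_card_exists p hp
  have hp' : (2 : ℝ) ≤ p := by exact_mod_cast hp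
  have htp : 0 < t ^ (p - 1) := by positivity
  refine ⟨max 1 ((∑ j : Fin p, (t ^ 3) ^ (j : ℕ)) / t ^ (p - 1)), le_max_left _ _, ?_, ?_⟩
  · apply max_lt (by linarith)
    rw [div_lt_iff₀ htp]
    exact ht
  · intro n
    have h1 := lowP_card_bound p n t ht0 ht1
    have h2 : ((LowP p n).card : ℝ) ≤ ((∑ j : Fin p, (t ^ 3) ^ (j : ℕ)) / t ^ (p - 1)) ^ n := by
      rw [div_pow, le_div_iff₀ (by positivity)]
      exact h1
    refine h2.trans ?_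
    apply pow_le_pow_left₀ _ (le_max_right _ _)
    have : 0 ≤ ∑ j : Fin p, (t ^ 3) ^ (j : ℕ) := Finset.sum_nonneg (fun _ _ => by positivity)
    positivity

end Pool.Agent.Helper999.Sq3
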