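import Mathlib
set_option autoImplicit false

namespace Pool.Agent.Helper999.Sq3

theorem supersatP_fib {V W : Type} [AddCommGroup V] [AddCommGroup W] [Fintype V] [Fintype W]
    [DecidableEq V] (f : W →+ V) (hf : Function.Surjective f) (F : V → ℕ) :
    (∑ v, F (f v)) * Fintype.card V = (∑ x, F x) * Fintype.card W := by
  have hK : ∀ x : V, (Finset.univ.filter (fun v => f v = x)).card =
      (Finset.univ.filter (fun v => f v = 0)).card := fun x =>
    AddMonoidHom.card_fiber_eq_of_mem_range f (hf x) (hf 0)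
  set K := (Finset.univ.filter (fun v => f v = 0)).card with hKdef
  have h1 : ∑ v, F (f v) = (∑ x, F x) * K := by
    rw [← Finset.sum_fiberwise Finset.univ (fun v => f v) (fun v => F (f v)), Finset.sum_mul]
    refine Finset.sum_congr rfl fun x _ => ?_
    rw [Finset.sum_congr rfl (g := fun _ => F x) (fun v hv => by rw [(Finset.mem_filter.1 hv).2]),
      Finset.sum_const, smul_eq_mul, hK, mul_comm]
  have h2 : Fintype.card W = Fintype.card V * K := by
    rw [← Finset.card_univ, Finset.card_eq_sum_card_fiberwise (f := fun v => f v) (t := Finset.univ)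
      (fun _ _ => Finset.mem_coe.2 (Finset.mem_univ _))]
    rw [Finset.sum_congr rfl (fun x _ => hK x), Finset.sum_const, smul_eq_mul, Finset.card_univ]
  rw [h1, h2]; ring

theorem supersatP_local {V Y : Type} [AddCommGroup V] [AddCommGroup Y] [Fintype Y] [DecidableEq Y]
    [DecidableEq V] (c : ℕ) (A : Finset V)
    (hc : ∀ S : Finset Y, (∀ x ∈ S, ∀ y ∈ S, ∀ z ∈ S, x + z = y + y → x = y) → S.card ≤ c)
    (v0 : V) (L : Y →+ V) :
    (∑ y, if v0 + L y ∈ A then 1 else 0) ≤ c + ∑ y, ∑ h ∈ Finset.univ.filter (fun h : Y => h ≠ 0),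
      (if (v0 + L y ∈ A ∧ v0 + L y + L h ∈ A ∧ v0 + L y - L h ∈ A) then 1 else 0) := by
  set S : Finset Y := Finset.univ.filter (fun y => v0 + L y ∈ A) with hS
  have hmemS : ∀ y, y ∈ S ↔ v0 + L y ∈ A := fun y => by simp [hS]
  have h0 : (∑ y, if v0 + L y ∈ A then 1 else 0) = S.card := by
    rw [hS, Finset.card_filter]
  set S1 : Finset Y := S.filter (fun y => ∀ h : Y, h ≠ 0 → ¬ (y + h ∈ S ∧ y - h ∈ S)) with hS1
  have h1 : S1.card ≤ c := by
    apply hc
    intro x hx y hy z hz hxyz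
    by_contra hne
    have h2 := (Finset.mem_filter.1 hy).2 (x - y) (sub_ne_zero.2 hne)
    apply h2
    constructor
    · rw [add_sub_cancel]; exact (Finset.mem_filter.1 hx).1
    · have : y - (x - y) = z := by
        have h3 : z = y + y - x := by rw [← hxyz]; abel
        rw [h3]; abel
      rw [this]; exact (Finset.mem_filter.1 hz).1
  have h2 : (S \ S1).card ≤ ∑ y, ∑ h ∈ Finset.univ.filter (fun h : Y => h ≠ 0),
      (if (v0 + L y ∈ A ∧ v0 + L y + L h ∈ A ∧ v0 + L y - L h ∈ A) then 1 else 0) := by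
    rw [Finset.card_eq_sum_ones]
    refine (Finset.sum_le_sum ?_).trans (Finset.sum_le_sum_of_subset (Finset.subset_univ _))
    intro y hy
    have hy' := Finset.mem_sdiff.1 hy
    have hyS := hy'.1
    have hy3 : ¬ ∀ h : Y, h ≠ 0 → ¬ (y + h ∈ S ∧ y - h ∈ S) := fun hall =>
      hy'.2 (Finset.mem_filter.2 ⟨hyS, hall⟩)
    push Not at hy3
    obtain ⟨h, hh, h3, h4⟩ := hy3
    have h5 : (1 : ℕ) = if (v0 + L y ∈ A ∧ v0 + L y + L h ∈ A ∧ v0 + L y - L h ∈ A) then 1 else 0 := by
      rw [if_pos]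
      rw [hmemS] at hyS h3 h4
      rw [map_add] at h3
      rw [map_sub] at h4
      refine ⟨hyS, ?_, ?_⟩
      · rw [add_assoc]; exact h3
      · rw [add_sub_assoc]; exact h4
    have hh' : h ∈ Finset.univ.filter (fun h : Y => h ≠ 0) :=
      Finset.mem_filter.2 ⟨Finset.mem_univ _, hh⟩
    exact h5.le.trans (Finset.single_le_sum (f := fun h => if (v0 + L y ∈ A ∧ v0 + L y + L h ∈ A ∧
      v0 + L y - L h ∈ A) then 1 else 0) (fun _ _ => Nat.zero_le _) hh')
  rw [h0]
  have h3 : S.card = (S \ S1).card + S1.card := by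
    rw [Finset.card_sdiff_add_card_eq_card (Finset.filter_subset _ _)]
  omega

/-- evaluation of the affine map, as a function of the point -/
def supersatP_L (p n m : ℕ) (v : Fin m → Fin n → ZMod p) : (Fin m → ZMod p) →+ (Fin n → ZMod p) where
  toFun := fun y => ∑ i, y i • v i
  map_zero' := by simp
  map_add' := fun y y' => by simp [add_smul, Finset.sum_add_distrib]

/-- evaluation of the affine map, as a function of the coefficients -/
def supersatP_R (p n m : ℕ) (y : Fin m → ZMod p) : (Fin m → Fin n → ZMod p) →+ (Fin n → ZMod p) where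
  toFun := fun v => ∑ i, y i • v i
  map_zero' := by simp
  map_add' := fun v v' => by simp [smul_add, Finset.sum_add_distrib]

theorem supersatP (p : ℕ) [Fact p.Prime] (n m c : ℕ) (A : Finset (Fin n → ZMod p))
    (hc : ∀ S : Finset (Fin m → ZMod p),
      (∀ x ∈ S, ∀ y ∈ S, ∀ z ∈ S, x + z = y + y → x = y) → S.card ≤ c) :
    p ^ n * p ^ m * A.card ≤
      p ^ (2 * m) * ((Finset.univ : Finset ((Fin n → ZMod p) × (Fin n → ZMod p))).filter
        (fun q => q.1 ∈ A ∧ q.1 + q.2 ∈ A ∧ q.1 - q.2 ∈ A)).card + p ^ (2 * n) * c := by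
  classical
  have hp : 0 < p := (Fact.out : p.Prime).pos
  let V := Fin n → ZMod p
  let Y := Fin m → ZMod p
  let W := Fin m → V
  have cV : Fintype.card V = p ^ n := by simp [V, ZMod.card]
  have cY : Fintype.card Y = p ^ m := by simp [Y, ZMod.card]
  have cW : Fintype.card W = (p ^ n) ^ m := by simp [W, V, ZMod.card]
  let L : W → (Y →+ V) := supersatP_L p n m
  let R : Y → (W →+ V) := supersatP_R p n m
  have hLR : ∀ v y, L v y = R y v := fun v y => rfl
  have hR : ∀ y : Y, y ≠ 0 → Function.Surjective (R y) := by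
    intro y hy x
    obtain ⟨i, hi⟩ := Function.ne_iff.1 hy
    refine ⟨Pi.single i ((y i)⁻¹ • x), ?_⟩
    show ∑ k, y k • (Pi.single i ((y i)⁻¹ • x) : W) k = x
    rw [Finset.sum_eq_single i]
    · rw [Pi.single_eq_same, smul_smul, mul_inv_cancel₀ hi, one_smul]
    · intro k _ hk
      rw [Pi.single_eq_of_ne hk, smul_zero]
    · intro h; exact absurd (Finset.mem_univ i) h
  let G : V → V → ℕ := fun a d => if (a ∈ A ∧ a + d ∈ A ∧ a - d ∈ A) then 1 else 0
  let T : ℕ := ((Finset.univ : Finset ((Fin n → ZMod p) × (Fin n → ZMod p))).filter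
        (fun q => q.1 ∈ A ∧ q.1 + q.2 ∈ A ∧ q.1 - q.2 ∈ A)).card
  have hT : ∑ d, ∑ a, G a d = T := by
    show _ = ((Finset.univ : Finset ((Fin n → ZMod p) × (Fin n → ZMod p))).filter
        (fun q => q.1 ∈ A ∧ q.1 + q.2 ∈ A ∧ q.1 - q.2 ∈ A)).card
    rw [Finset.card_filter, Fintype.sum_prod_type, Finset.sum_comm]
  -- the local inequality, summed
  have hsum : ∑ v : W, ∑ v0 : V, (∑ y : Y, if v0 + L v y ∈ A then 1 else 0) ≤
      ∑ v : W, ∑ v0 : V, (c + ∑ y : Y, ∑ h ∈ Finset.univ.filter (fun h : Y => h ≠ 0),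
        G (v0 + L v y) (L v h)) :=
    Finset.sum_le_sum fun v _ => Finset.sum_le_sum fun v0 _ => supersatP_local c A hc v0 (L v)
  have hleft : ∑ v : W, ∑ v0 : V, (∑ y : Y, if v0 + L v y ∈ A then 1 else 0) =
      (p ^ n) ^ m * (p ^ m * A.card) := by
    have h1 : ∀ v : W, ∑ v0 : V, (∑ y : Y, if v0 + L v y ∈ A then 1 else 0) = p ^ m * A.card := by
      intro v
      rw [Finset.sum_comm]
      have h2 : ∀ y : Y, ∑ v0 : V, (if v0 + L v y ∈ A then 1 else 0) = A.card := by
        intro y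
        have h3 := Equiv.sum_comp (Equiv.addRight (L v y)) (fun x : V => if x ∈ A then 1 else 0)
        refine Eq.trans h3 ?_
        simp
      rw [Finset.sum_congr rfl (fun y _ => h2 y), Finset.sum_const, smul_eq_mul, Finset.card_univ, cY]
    rw [Finset.sum_congr rfl (fun v _ => h1 v), Finset.sum_const, smul_eq_mul, Finset.card_univ, cW]
  have hright : ∑ v : W, ∑ v0 : V, (c + ∑ y : Y, ∑ h ∈ Finset.univ.filter (fun h : Y => h ≠ 0),
        G (v0 + L v y) (L v h)) = (p ^ n) ^ m * (p ^ n * c) +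
        ∑ y : Y, ∑ h ∈ Finset.univ.filter (fun h : Y => h ≠ 0), ∑ v : W, ∑ a, G a (R h v) := by
    simp only [Finset.sum_add_distrib]
    congr 1
    · simp only [Finset.sum_const, smul_eq_mul, Finset.card_univ, cV, cW]
    · have h1 : ∀ v : W, ∑ v0 : V, ∑ y : Y, ∑ h ∈ Finset.univ.filter (fun h : Y => h ≠ 0),
          G (v0 + L v y) (L v h) =
          ∑ y : Y, ∑ h ∈ Finset.univ.filter (fun h : Y => h ≠ 0), ∑ a, G a (R h v) := by
        intro v
        rw [Finset.sum_comm]
        refine Finset.sum_congr rfl fun y _ => ?_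
        rw [Finset.sum_comm]
        refine Finset.sum_congr rfl fun h _ => ?_
        exact Equiv.sum_comp (Equiv.addRight (L v y)) (fun x : V => G x (L v h))
      rw [Finset.sum_congr rfl (fun v _ => h1 v), Finset.sum_comm]
      refine Finset.sum_congr rfl fun y _ => ?_
      rw [Finset.sum_comm]
  rw [hleft, hright] at hsum
  have hfib : ∀ h : Y, h ≠ 0 → (∑ v : W, ∑ a, G a (R h v)) * p ^ n = T * (p ^ n) ^ m := by
    intro h hh
    have h1 := supersatP_fib (R h) (hR h hh) (fun d => ∑ a, G a d)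
    rw [cV, cW, hT] at h1
    exact h1
  have hmul := Nat.mul_le_mul_right (p ^ n) hsum
  rw [add_mul, Finset.sum_mul] at hmul
  have hY : ∑ y : Y, (∑ h ∈ Finset.univ.filter (fun h : Y => h ≠ 0), ∑ v : W, ∑ a, G a (R h v)) * p ^ n ≤
      p ^ m * (p ^ m * (T * (p ^ n) ^ m)) := by
    have h1 : ∀ y : Y, (∑ h ∈ Finset.univ.filter (fun h : Y => h ≠ 0), ∑ v : W, ∑ a, G a (R h v)) * p ^ n
        ≤ p ^ m * (T * (p ^ n) ^ m) := by
      intro y
      rw [Finset.sum_mul, Finset.sum_congr rfl (fun h hh => hfib h (Finset.mem_filter.1 hh).2),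
        Finset.sum_const, smul_eq_mul]
      apply Nat.mul_le_mul_right
      rw [← cY, ← Finset.card_univ]
      exact Finset.card_le_card (Finset.filter_subset _ _)
    refine (Finset.sum_le_sum fun y _ => h1 y).trans ?_
    rw [Finset.sum_const, smul_eq_mul, Finset.card_univ, cY]
  have hfin : (p ^ n * p ^ m * A.card) * (p ^ n) ^ m ≤
      (p ^ (2 * m) * T + p ^ (2 * n) * c) * (p ^ n) ^ m := by
    calc (p ^ n * p ^ m * A.card) * (p ^ n) ^ m = (p ^ n) ^ m * (p ^ m * A.card) * p ^ n := by ring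
      _ ≤ _ := hmul
      _ ≤ (p ^ n) ^ m * (p ^ n * c) * p ^ n + p ^ m * (p ^ m * (T * (p ^ n) ^ m)) :=
          Nat.add_le_add_left hY _
      _ = (p ^ (2 * m) * T + p ^ (2 * n) * c) * (p ^ n) ^ m := by ring
  exact Nat.le_of_mul_le_mul_right hfin (by positivity)

end Pool.Agent.Helper999.Sq3
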