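import Pool.Agent.Helper999.Sq3.GDefs
import Mathlib
set_option autoImplicit false

namespace Pool.Agent.Helper999.Sq3



/-- choice of the exponent -/
theorem exists_M {p : ℕ} (hp : 0 < p) {ρ : ℝ} (h1 : 1 ≤ ρ) (h2 : ρ < p) :
    ∃ M : ℕ, ∀ a : ℕ, 6 * (p : ℝ) ^ a * ρ ^ (M * (a + 1)) ≤ (p : ℝ) ^ (M * (a + 1)) := by
  have hρ : 0 < ρ := by linarith
  have hp' : (1 : ℝ) ≤ p := by exact_mod_cast hp
  have hq : 1 < (p : ℝ) / ρ := by rw [lt_div_iff₀ hρ]; linarith
  obtain ⟨M, hM⟩ := pow_unbounded_of_one_lt (6 * (p : ℝ)) hq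
  refine ⟨M, fun a => ?_⟩
  have h3 : (6 * (p : ℝ)) ^ (a + 1) ≤ ((p : ℝ) / ρ) ^ (M * (a + 1)) := by
    rw [pow_mul]
    exact pow_le_pow_left₀ (by positivity) hM.le _
  have h4 : 6 * (p : ℝ) ^ a ≤ (6 * (p : ℝ)) ^ (a + 1) := by
    rw [mul_pow]
    apply mul_le_mul
    · calc (6 : ℝ) = 6 ^ 1 := by norm_num
        _ ≤ 6 ^ (a + 1) := pow_le_pow_right₀ (by norm_num) (by omega)
    · exact pow_le_pow_right₀ hp' (by omega)
    · positivity
    · positivity
  have h5 := h4.trans h3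
  rw [div_pow, le_div_iff₀ (by positivity)] at h5
  exact h5

theorem cons_grid (p : ℕ) [Fact p.Prime] {n K : ℕ} {A : Set (Fin n → ZMod p)}
    {h : Fin n → ZMod p} {i : Fin n} (hi : h i ≠ 0) {B : Set (Fin n → ZMod p)} {c0 : ZMod p}
    (hB : ∀ x ∈ B, x ∈ A ∧ x + h ∈ A ∧ x - h ∈ A ∧ x i = c0) (hg : HasGrid p K B) :
    HasGrid p (K + 1) A := by
  obtain ⟨x, d, hd, hx⟩ := hg
  have hxB : x ∈ B := by
    have := hx (fun _ => 0) (fun _ => Or.inl rfl)
    simpa using this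
  have hdi : ∀ j, d j i = 0 := by
    intro j
    have h1 := hx (Pi.single j 1) (fun l => by
      by_cases hl : l = j
      · subst hl; simp
      · simp [Pi.single_eq_of_ne hl])
    have h2 : x + ∑ l, (Pi.single j 1 : Fin K → ZMod p) l • d l = x + d j := by
      congr 1
      rw [Finset.sum_eq_single j]
      · simp
      · intro b _ hb
        rw [Pi.single_eq_of_ne hb, zero_smul]
      · intro h; exact absurd (Finset.mem_univ _) h
    rw [h2] at h1
    have h3 := (hB _ h1).2.2.2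
    have h4 := (hB _ hxB).2.2.2
    rw [Pi.add_apply, h4] at h3
    simpa using h3
  refine ⟨x, Fin.cons h d, ?_, ?_⟩
  · rw [linearIndependent_finCons]
    refine ⟨hd, fun hmem => ?_⟩
    have h1 : Submodule.span (ZMod p) (Set.range d) ≤
        LinearMap.ker (LinearMap.proj i : (Fin n → ZMod p) →ₗ[ZMod p] ZMod p) := by
      rw [Submodule.span_le]
      rintro _ ⟨j, rfl⟩
      exact hdi j
    exact hi (h1 hmem)
  · intro s hs
    have h1 := hx (fun j => s j.succ) (fun j => hs j.succ)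
    obtain ⟨hA0, hA1, hA2, -⟩ := hB _ h1
    rw [Fin.sum_univ_succ]
    simp only [Fin.cons_zero, Fin.cons_succ]
    have h2 : x + (s 0 • h + ∑ j : Fin K, s j.succ • d j) =
        (x + ∑ j : Fin K, s j.succ • d j) + s 0 • h := by abel
    rw [h2]
    rcases hs 0 with h3 | h3 | h3
    · rw [h3, zero_smul, add_zero]; exact hA0
    · rw [h3, one_smul]; exact hA1
    · rw [h3, neg_smul, one_smul, ← sub_eq_add_neg]; exact hA2

/-- counting step -/
theorem count_step (p : ℕ) [Fact p.Prime] (hp3 : 3 ≤ p) {n a m c : ℕ}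
    (A : Finset (Fin n → ZMod p)) (hA : p ^ n ≤ p ^ a * A.card) (hc : 2 * p ^ a * c ≤ p ^ m)
    (hn : a + m + 2 ≤ n)
    (hsup : p ^ n * p ^ m * A.card ≤
        p ^ (2 * m) * ((Finset.univ : Finset ((Fin n → ZMod p) × (Fin n → ZMod p))).filter
          (fun q => q.1 ∈ A ∧ q.1 + q.2 ∈ A ∧ q.1 - q.2 ∈ A)).card + p ^ (2 * n) * c) :
    ∃ h : Fin n → ZMod p, h ≠ 0 ∧ p ^ n ≤ p ^ (a + m + 2) *
      ((Finset.univ : Finset (Fin n → ZMod p)).filter
        (fun x => x ∈ A ∧ x + h ∈ A ∧ x - h ∈ A)).card := by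
  have hp0 : 0 < p := by omega
  set T := ((Finset.univ : Finset ((Fin n → ZMod p) × (Fin n → ZMod p))).filter
          (fun q => q.1 ∈ A ∧ q.1 + q.2 ∈ A ∧ q.1 - q.2 ∈ A)).card with hT
  set N : (Fin n → ZMod p) → ℕ := fun h => ((Finset.univ : Finset (Fin n → ZMod p)).filter
        (fun x => x ∈ A ∧ x + h ∈ A ∧ x - h ∈ A)).card with hN
  have hTN : T = ∑ h, N h := by
    rw [hT]
    simp only [hN, Finset.card_filter, Fintype.sum_prod_type_right]
  have hcardV : Fintype.card (Fin n → ZMod p) = p ^ n := by simp [ZMod.card]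
  -- `p ^ (2n) ≤ 2 p ^ (a + m) T`
  have h1 : p ^ (2 * n) ≤ 2 * p ^ (a + m) * T := by
    have e1 : p ^ (2 * n) * p ^ m ≤ p ^ a * (p ^ n * p ^ m * A.card) := by
      calc p ^ (2 * n) * p ^ m = p ^ n * p ^ m * p ^ n := by ring
        _ ≤ p ^ n * p ^ m * (p ^ a * A.card) := Nat.mul_le_mul_left _ hA
        _ = _ := by ring
    have e2 := e1.trans (Nat.mul_le_mul_left (p ^ a) hsup)
    have e3 : p ^ (2 * n) * (2 * p ^ a * c) ≤ p ^ (2 * n) * p ^ m := Nat.mul_le_mul_left _ hc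
    have e4 : p ^ a * (p ^ (2 * m) * T + p ^ (2 * n) * c) =
        p ^ m * (p ^ (a + m) * T) + p ^ (2 * n) * p ^ a * c := by ring
    rw [e4] at e2
    have e5 : p ^ (2 * n) * p ^ m ≤ p ^ m * (2 * p ^ (a + m) * T) := by nlinarith
    have e6 : p ^ m * p ^ (2 * n) ≤ p ^ m * (2 * p ^ (a + m) * T) := by linarith
    exact Nat.le_of_mul_le_mul_left e6 (pow_pos hp0 m)
  -- remove `h = 0`
  have hN0 : N 0 ≤ p ^ n := by
    rw [← hcardV]
    exact Finset.card_le_univ _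
  have h2 : T = N 0 + ∑ h ∈ Finset.univ.erase 0, N h := by
    rw [hTN, ← Finset.add_sum_erase _ _ (Finset.mem_univ 0)]
  have h3 : 4 * p ^ (a + m) * p ^ n ≤ p ^ (2 * n) := by
    have e1 : 4 * p ^ (a + m) ≤ p ^ n := by
      calc 4 * p ^ (a + m) ≤ p ^ 2 * p ^ (a + m) := Nat.mul_le_mul_right _ (by nlinarith)
        _ = p ^ (a + m + 2) := by ring
        _ ≤ p ^ n := Nat.pow_le_pow_right hp0 hn
    calc 4 * p ^ (a + m) * p ^ n ≤ p ^ n * p ^ n := Nat.mul_le_mul_right _ e1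
      _ = _ := by ring
  have h4 : p ^ (2 * n) ≤ 4 * p ^ (a + m) * ∑ h ∈ Finset.univ.erase 0, N h := by
    rw [h2] at h1
    have e1 : 4 * p ^ (a + m) * N 0 ≤ 4 * p ^ (a + m) * p ^ n := Nat.mul_le_mul_left _ hN0
    have e2 : 2 * p ^ (a + m) * (N 0 + ∑ h ∈ Finset.univ.erase 0, N h) =
      2 * p ^ (a + m) * N 0 + 2 * p ^ (a + m) * ∑ h ∈ Finset.univ.erase 0, N h := by ring
    rw [e2] at h1
    have e3 : 4 * p ^ (a + m) * N 0 = 2 * (2 * p ^ (a + m) * N 0) := by ring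
    have e4 : 4 * p ^ (a + m) * ∑ h ∈ Finset.univ.erase 0, N h =
      2 * (2 * p ^ (a + m) * ∑ h ∈ Finset.univ.erase 0, N h) := by ring
    rw [e4]
    omega
  rw [Finset.mul_sum] at h4
  have hne : ((Finset.univ : Finset (Fin n → ZMod p)).erase 0).Nonempty := by
    by_contra hempty
    rw [Finset.not_nonempty_iff_eq_empty] at hempty
    rw [hempty, Finset.sum_empty] at h4
    exact absurd h4 (Nat.not_le.mpr (pow_pos hp0 _))
  have h5 : ∑ _h ∈ (Finset.univ : Finset (Fin n → ZMod p)).erase 0, p ^ n ≤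
      ∑ h ∈ Finset.univ.erase 0, 4 * p ^ (a + m) * N h := by
    refine le_trans ?_ h4
    rw [Finset.sum_const, smul_eq_mul]
    calc ((Finset.univ : Finset (Fin n → ZMod p)).erase 0).card * p ^ n ≤ p ^ n * p ^ n := by
          apply Nat.mul_le_mul_right
          rw [← hcardV]
          exact Finset.card_le_univ _
      _ = _ := by ring
  obtain ⟨h, hh, hle⟩ := Finset.exists_le_of_sum_le hne h5
  refine ⟨h, Finset.ne_of_mem_erase hh, hle.trans ?_⟩
  apply Nat.mul_le_mul_right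
  calc 4 * p ^ (a + m) ≤ p ^ 2 * p ^ (a + m) := Nat.mul_le_mul_right _ (by nlinarith)
    _ = p ^ (a + m + 2) := by ring

theorem grid_of_dense (p : ℕ) [Fact p.Prime] (hp2 : p ≠ 2)
    (cap : ∃ ρ : ℝ, 1 ≤ ρ ∧ ρ < p ∧ ∀ (m : ℕ) (S : Finset (Fin m → ZMod p)),
      (∀ x ∈ S, ∀ y ∈ S, ∀ z ∈ S, x + z = y + y → x = y) → (S.card : ℝ) ≤ 3 * ρ ^ m)
    (sup : ∀ (n m c : ℕ) (A : Finset (Fin n → ZMod p)),
      (∀ S : Finset (Fin m → ZMod p),
        (∀ x ∈ S, ∀ y ∈ S, ∀ z ∈ S, x + z = y + y → x = y) → S.card ≤ c) →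
      p ^ n * p ^ m * A.card ≤
        p ^ (2 * m) * ((Finset.univ : Finset ((Fin n → ZMod p) × (Fin n → ZMod p))).filter
          (fun q => q.1 ∈ A ∧ q.1 + q.2 ∈ A ∧ q.1 - q.2 ∈ A)).card + p ^ (2 * n) * c)
    (K : ℕ) :
    ∃ C : ℕ, ∀ (a n : ℕ) (A : Finset (Fin n → ZMod p)), p ^ n ≤ p ^ a * A.card →
      C * (a + 1) < n → HasGrid p K (A : Set (Fin n → ZMod p)) := by
  have hprime : p.Prime := Fact.out
  have hp3 : 3 ≤ p := by
    have := hprime.two_le
    omega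
  have hp0 : 0 < p := by omega
  obtain ⟨ρ, hρ1, hρ2, hcap⟩ := cap
  obtain ⟨M, hM⟩ := exists_M hp0 hρ1 hρ2
  induction K with
  | zero =>
    refine ⟨0, fun a n A hA _ => ?_⟩
    have hne : A.Nonempty := by
      by_contra h
      rw [Finset.not_nonempty_iff_eq_empty] at h
      rw [h, Finset.card_empty, mul_zero] at hA
      exact absurd hA (Nat.not_le.mpr (pow_pos hp0 n))
    obtain ⟨x, hx⟩ := hne
    exact ⟨x, Fin.elim0, linearIndependent_empty_type, fun s _ => by simpa using hx⟩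
  | succ K ih =>
    obtain ⟨C, hC⟩ := ih
    refine ⟨(C + 1) * (M + 5), fun a n A hA hn => ?_⟩
    set m := M * (a + 1) with hm
    have hn1 : a + m + 2 ≤ n := by
      have h1 : a + m + 2 ≤ (M + 5) * (a + 1) := by rw [hm]; nlinarith
      have h2 : (M + 5) * (a + 1) ≤ (C + 1) * (M + 5) * (a + 1) := by
        rw [mul_assoc]; exact Nat.le_mul_of_pos_left _ (Nat.succ_pos C)
      omega
    have hn2 : C * (a + m + 3 + 1) < n := by
      have h1 : a + m + 3 + 1 ≤ (M + 5) * (a + 1) := by rw [hm]; nlinarith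
      have h2 : C * (a + m + 3 + 1) ≤ C * ((M + 5) * (a + 1)) := Nat.mul_le_mul_left _ h1
      have h3 : C * ((M + 5) * (a + 1)) ≤ (C + 1) * (M + 5) * (a + 1) := by nlinarith
      omega
    have hMa := hM a
    rw [← hm] at hMa
    set c := ⌊3 * ρ ^ m⌋₊ with hc
    have hρ0 : 0 < ρ := by linarith
    have hcle : (c : ℝ) ≤ 3 * ρ ^ m := Nat.floor_le (by positivity)
    have hc2 : 2 * p ^ a * c ≤ p ^ m := by
      have h1 : (2 * (p : ℝ) ^ a * c) ≤ (p : ℝ) ^ m := by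
        calc (2 * (p : ℝ) ^ a * c) ≤ 2 * (p : ℝ) ^ a * (3 * ρ ^ m) :=
              mul_le_mul_of_nonneg_left hcle (by positivity)
          _ = 6 * (p : ℝ) ^ a * ρ ^ m := by ring
          _ ≤ _ := hMa
      exact_mod_cast h1
    have hsup := sup n m c A (fun S hS => Nat.le_floor (hcap m S hS))
    obtain ⟨h, hh, hAh⟩ := count_step p hp3 A hA hc2 hn1 hsup
    obtain ⟨i, hi⟩ : ∃ i, h i ≠ 0 := by
      by_contra hcon
      push Not at hcon
      exact hh (funext hcon)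
    set Ah := (Finset.univ : Finset (Fin n → ZMod p)).filter
        (fun x => x ∈ A ∧ x + h ∈ A ∧ x - h ∈ A) with hAhdef
    have hfib : ∃ c0 : ZMod p, Ah.card ≤ p * (Ah.filter (fun x => x i = c0)).card := by
      have h1 : Ah.card = ∑ c0 : ZMod p, (Ah.filter (fun x => x i = c0)).card :=
        Finset.card_eq_sum_card_fiberwise (fun x _ => Finset.mem_coe.2 (Finset.mem_univ _))
      have h2 : ∑ _c0 : ZMod p, Ah.card ≤ ∑ c0 : ZMod p, p * (Ah.filter (fun x => x i = c0)).card := by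
        rw [Finset.sum_const, Finset.card_univ, ZMod.card, smul_eq_mul, ← Finset.mul_sum, ← h1]
      obtain ⟨c0, -, hc0⟩ := Finset.exists_le_of_sum_le
        (Finset.univ_nonempty (α := ZMod p)) h2
      exact ⟨c0, hc0⟩
    obtain ⟨c0, hc0⟩ := hfib
    have hB : p ^ n ≤ p ^ (a + m + 3) * (Ah.filter (fun x => x i = c0)).card := by
      calc p ^ n ≤ p ^ (a + m + 2) * Ah.card := hAh
        _ ≤ p ^ (a + m + 2) * (p * (Ah.filter (fun x => x i = c0)).card) :=
            Nat.mul_le_mul_left _ hc0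
        _ = _ := by ring
    have hgrid := hC (a + m + 3) n _ hB hn2
    refine cons_grid p hi (c0 := c0) ?_ hgrid
    intro x hx
    rw [Finset.mem_coe, Finset.mem_filter, hAhdef, Finset.mem_filter] at hx
    exact ⟨hx.1.2.1, hx.1.2.2.1, hx.1.2.2.2, hx.2⟩

end Pool.Agent.Helper999.Sq3
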