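import Mathlib
set_option autoImplicit false
open Pointwise

namespace Pool.Agent.Helper999.Sq3

theorem modellingP (p : ℕ) [Fact p.Prime] {V : Type*} [AddCommGroup V] [Module (ZMod p) V]
    [DecidableEq V] (A : Finset V) (hA : A.Nonempty) :
    ∃ (n : ℕ) (φ : V →ₗ[ZMod p] (Fin n → ZMod p)),
      (∀ a ∈ A, ∀ b ∈ A, ∀ c ∈ A, ∀ d ∈ A, φ (a + b) = φ (c + d) → a + b = c + d) ∧
      p ^ n * A.card ^ 3 ≤ p * (A + A).card ^ 4 := by
  classical
  set D : Finset V := (2 • A) - (2 • A) with hD
  have hDmem : ∀ a ∈ A, ∀ b ∈ A, ∀ c ∈ A, ∀ d ∈ A, (a + b) - (c + d) ∈ D := by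
    intro a ha b hb c hc d hd
    rw [hD, two_nsmul]
    exact Finset.sub_mem_sub (Finset.add_mem_add ha hb) (Finset.add_mem_add hc hd)
  have hDex : ∀ x ∈ D, ∃ a ∈ A, ∃ b ∈ A, ∃ c ∈ A, ∃ d ∈ A, x = (a + b) - (c + d) := by
    intro x hx
    rw [hD, two_nsmul, Finset.mem_sub] at hx
    obtain ⟨y, hy, z, hz, rfl⟩ := hx
    rw [Finset.mem_add] at hy hz
    obtain ⟨a, ha, b, hb, rfl⟩ := hy
    obtain ⟨c, hc, d, hd, rfl⟩ := hz
    exact ⟨a, ha, b, hb, c, hc, d, hd, rfl⟩
  have hDneg : ∀ x ∈ D, -x ∈ D := by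
    intro x hx
    obtain ⟨a, ha, b, hb, c, hc, d, hd, rfl⟩ := hDex x hx
    rw [neg_sub]
    exact hDmem c hc d hd a ha b hb
  have hDspan : ∀ x ∈ D, x ∈ Submodule.span (ZMod p) (A : Set V) := by
    intro x hx
    obtain ⟨a, ha, b, hb, c, hc, d, hd, rfl⟩ := hDex x hx
    exact sub_mem (add_mem (Submodule.subset_span ha) (Submodule.subset_span hb))
      (add_mem (Submodule.subset_span hc) (Submodule.subset_span hd))
  have hex : ∃ n : ℕ, ∃ φ : V →ₗ[ZMod p] (Fin n → ZMod p), ∀ x ∈ D, φ x = 0 → x = 0 := by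
    obtain ⟨g, hg⟩ := LinearMap.exists_leftInverse_of_injective
      (Submodule.span (ZMod p) (A : Set V)).subtype (by simp)
    have : Module.Finite (ZMod p) (Submodule.span (ZMod p) (A : Set V)) :=
      Module.Finite.span_finset (ZMod p) A
    let e := (Module.finBasis (ZMod p) (Submodule.span (ZMod p) (A : Set V))).equivFun
    refine ⟨_, e.toLinearMap ∘ₗ g, ?_⟩
    intro x hx h
    have h1 : g x = 0 := by
      apply e.injective
      simpa using h
    have h2 : g ((Submodule.span (ZMod p) (A : Set V)).subtype ⟨x, hDspan x hx⟩) = ⟨x, hDspan x hx⟩ := by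
      have := LinearMap.congr_fun hg ⟨x, hDspan x hx⟩
      simpa using this
    have h3 : g x = ⟨x, hDspan x hx⟩ := h2
    rw [h1] at h3
    have := congrArg Subtype.val h3
    simpa using this.symm
  obtain ⟨φ, hφ⟩ := Nat.find_spec hex
  refine ⟨Nat.find hex, φ, ?_, ?_⟩
  · intro a ha b hb c hc d hd h
    have := hφ _ (hDmem a ha b hb c hc d hd) (by rw [map_sub, h, sub_self])
    exact sub_eq_zero.1 this
  · have h0D : (0 : V) ∈ D := by
      obtain ⟨a, ha⟩ := hA
      have := hDmem a ha a ha a ha a ha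
      simpa using this
    have hsurj : ∀ w : Fin (Nat.find hex) → ZMod p, ∃ c : ZMod p, ∃ x ∈ D, c • φ x = w := by
      intro w
      by_contra hcon
      push Not at hcon
      have hw : w ≠ 0 := by
        rintro rfl
        exact hcon 0 0 h0D (by rw [map_zero, smul_zero])
      let W := Submodule.span (ZMod p) {w}
      let e := (Module.finBasis (ZMod p) ((Fin (Nat.find hex) → ZMod p) ⧸ W)).equivFun
      have hlt : Module.finrank (ZMod p) ((Fin (Nat.find hex) → ZMod p) ⧸ W) < Nat.find hex := by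
        have h1 := Submodule.finrank_quotient_add_finrank W
        rw [finrank_span_singleton hw, Module.finrank_fin_fun] at h1
        omega
      apply Nat.find_min hex hlt
      refine ⟨e.toLinearMap ∘ₗ W.mkQ ∘ₗ φ, ?_⟩
      intro x hx h
      have h1 : W.mkQ (φ x) = 0 := by
        apply e.injective
        simpa using h
      rw [Submodule.mkQ_apply, Submodule.Quotient.mk_eq_zero, Submodule.mem_span_singleton] at h1
      obtain ⟨t, ht⟩ := h1
      by_cases ht0 : t = 0
      · apply hφ x hx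
        rw [← ht, ht0, zero_smul]
      · refine absurd ?_ (hcon t⁻¹ x hx)
        rw [← ht, smul_smul, inv_mul_cancel₀ ht0, one_smul]
    have hcard : p ^ (Nat.find hex) ≤ p * D.card := by
      have hsub : (Finset.univ : Finset (Fin (Nat.find hex) → ZMod p)) ⊆
          ((Finset.univ : Finset (ZMod p)) ×ˢ D).image (fun q => q.1 • φ q.2) := by
        intro w _
        obtain ⟨c, x, hx, hxw⟩ := hsurj w
        exact Finset.mem_image.2 ⟨(c, x), Finset.mem_product.2 ⟨Finset.mem_univ _, hx⟩, hxw⟩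
      have h1 := Finset.card_le_card hsub
      rw [Finset.card_univ, Fintype.card_fun, ZMod.card, Fintype.card_fin] at h1
      refine h1.trans (Finset.card_image_le.trans ?_)
      rw [Finset.card_product, Finset.card_univ, ZMod.card]
    have hP := Finset.pluennecke_ruzsa_inequality_nsmul_sub_nsmul_add hA A 2 2
    rw [← hD] at hP
    have hA0 : (0 : ℚ≥0) < (A.card : ℚ≥0) := by exact_mod_cast hA.card_pos
    have h2 : (D.card : ℚ≥0) * (A.card : ℚ≥0) ^ 3 ≤ ((A + A).card : ℚ≥0) ^ 4 := by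
      calc (D.card : ℚ≥0) * (A.card : ℚ≥0) ^ 3
          ≤ ((((A + A).card : ℚ≥0) / A.card) ^ (2 + 2) * A.card) * (A.card : ℚ≥0) ^ 3 :=
            mul_le_mul_of_nonneg_right hP (by positivity)
        _ = ((A + A).card : ℚ≥0) ^ 4 := by
            rw [div_pow]
            have h5 : (A.card : ℚ≥0) ≠ 0 := hA0.ne'
            rw [mul_assoc, ← pow_succ', div_mul_cancel₀]
            positivity
    have h3 : D.card * A.card ^ 3 ≤ (A + A).card ^ 4 := by exact_mod_cast h2
    calc p ^ Nat.find hex * A.card ^ 3 ≤ (p * D.card) * A.card ^ 3 := Nat.mul_le_mul_right _ hcard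
      _ = p * (D.card * A.card ^ 3) := by ring
      _ ≤ p * (A + A).card ^ 4 := Nat.mul_le_mul_left _ h3

end Pool.Agent.Helper999.Sq3
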