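import Pool.Agent.Helper999.Sq3.GDefs
import Mathlib
set_option autoImplicit false
open Pointwise

namespace Pool.Agent.Helper999.Sq3



theorem lift_grid (p : ℕ) [Fact p.Prime] {V W : Type*} [AddCommGroup V] [Module (ZMod p) V]
    [AddCommGroup W] [Module (ZMod p) W] (K : ℕ) (A : Set V) (φ : V →ₗ[ZMod p] W)
    (hφ : ∀ a ∈ A, ∀ b ∈ A, ∀ c ∈ A, ∀ d ∈ A, φ (a + b) = φ (c + d) → a + b = c + d)
    (h : HasGrid p K (φ '' A)) : HasGrid p K A := by
  classical
  obtain ⟨x, u, hu, hg⟩ := h
  let ok : (Fin K → ZMod p) → Prop := fun s => ∀ i, s i = 0 ∨ s i = 1 ∨ s i = -1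
  have hex : ∀ s, ∃ v, ok s → v ∈ A ∧ φ v = x + ∑ i, s i • u i := by
    intro s
    by_cases hs : ok s
    · obtain ⟨v, hv, hv2⟩ := hg s hs
      exact ⟨v, fun _ => ⟨hv, hv2⟩⟩
    · exact ⟨0, fun h => absurd h hs⟩
  choose a ha using hex
  have hok0 : ok 0 := fun i => Or.inl rfl
  have hoks : ∀ j c, (c = 0 ∨ c = 1 ∨ c = -1) → ok (Pi.single j c) := by
    intro j c hc i
    by_cases hij : i = j
    · subst hij; simpa using hc
    · left; simp [hij]
  have hoku : ∀ s j, ok s → ok (Function.update s j 0) := by
    intro s j hs i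
    by_cases hij : i = j
    · subst hij; left; simp
    · rw [Function.update_of_ne hij]; exact hs i
  -- the parallelogram rule
  have hpar : ∀ s t s' t', ok s → ok t → ok s' → ok t' → s + t = s' + t' →
      a s + a t = a s' + a t' := by
    intro s t s' t' h1 h2 h3 h4 h5
    refine hφ _ (ha s h1).1 _ (ha t h2).1 _ (ha s' h3).1 _ (ha t' h4).1 ?_
    rw [map_add, map_add, (ha s h1).2, (ha t h2).2, (ha s' h3).2, (ha t' h4).2]
    have e1 : ∀ s t : Fin K → ZMod p, (x + ∑ i, s i • u i) + (x + ∑ i, t i • u i) =
        x + x + ∑ i, (s + t) i • u i := by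
      intro s t
      simp only [Pi.add_apply, add_smul, Finset.sum_add_distrib]
      abel
    rw [e1, e1, h5]
  let d : Fin K → V := fun i => a (Pi.single i 1) - a 0
  have hsingle : ∀ j c, (c = 0 ∨ c = 1 ∨ c = -1) → a (Pi.single j c) = a 0 + c • d j := by
    intro j c hc
    rcases hc with rfl | rfl | rfl
    · rw [Pi.single_zero, zero_smul, add_zero]
    · rw [one_smul]; simp [d]
    · have h1 := hpar (Pi.single j (-1)) (Pi.single j 1) 0 0 (hoks j _ (Or.inr (Or.inr rfl)))
        (hoks j _ (Or.inr (Or.inl rfl))) hok0 hok0 (by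
          rw [← Pi.single_add]; simp)
      have h2 : a (Pi.single j 1) = a 0 + d j := by simp [d]
      rw [h2] at h1
      rw [neg_smul, one_smul]
      have h3 : a (Pi.single j (-1)) + (a 0 + d j) = (a 0 + -d j) + (a 0 + d j) := by
        rw [h1]; abel
      exact add_right_cancel h3
  have hmain : ∀ T : Finset (Fin K), ∀ s, ok s → (∀ i, i ∉ T → s i = 0) →
      a s = a 0 + ∑ i, s i • d i := by
    intro T
    induction T using Finset.induction_on with
    | empty =>
      intro s hs h0
      have : s = 0 := funext fun i => h0 i (Finset.notMem_empty i)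
      rw [this]; simp
    | insert j T hj ih =>
      intro s hs h0
      have h1 := ih (Function.update s j 0) (hoku s j hs) (by
        intro i hi
        by_cases hij : i = j
        · subst hij; simp
        · rw [Function.update_of_ne hij]
          exact h0 i (by rw [Finset.mem_insert]; tauto))
      have h2 := hpar s 0 (Function.update s j 0) (Pi.single j (s j)) hs hok0 (hoku s j hs)
        (hoks j _ (hs j)) (by
          ext i
          by_cases hij : i = j
          · subst hij; simp
          · simp [hij])
      rw [h1, hsingle j _ (hs j)] at h2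
      have h3 : ∑ i, s i • d i = ∑ i, (Function.update s j 0) i • d i + s j • d j := by
        rw [← Finset.add_sum_erase Finset.univ (fun i => s i • d i) (Finset.mem_univ j),
          ← Finset.add_sum_erase Finset.univ (fun i => (Function.update s j 0) i • d i)
            (Finset.mem_univ j)]
        rw [Function.update_self, zero_smul, zero_add, add_comm]
        congr 1
        refine Finset.sum_congr rfl fun i hi => ?_
        rw [Function.update_of_ne (Finset.ne_of_mem_erase hi)]
      rw [h3]
      have h4 : a s + a 0 = (a 0 + (∑ i, (Function.update s j 0) i • d i + s j • d j)) + a 0 := by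
        rw [h2]; abel
      exact add_right_cancel h4
  refine ⟨a 0, d, ?_, ?_⟩
  · apply LinearIndependent.of_comp φ
    have : (φ : V → W) ∘ d = u := by
      funext i
      show φ (a (Pi.single i 1) - a 0) = u i
      rw [map_sub, (ha _ (hoks i 1 (Or.inr (Or.inl rfl)))).2, (ha _ hok0).2]
      simp [Pi.single_apply, ite_smul]
    rw [this]
    exact hu
  · intro s hs
    rw [← hmain Finset.univ s hs (fun i hi => absurd (Finset.mem_univ i) hi)]
    exact (ha s hs).1

end Pool.Agent.Helper999.Sq3
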