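import Pool.Agent.Helper999.Sq3.GDefs
import Mathlib
set_option autoImplicit false
open Pointwise

namespace Pool.Agent.Helper999.Sq3



theorem HasGrid.mono' {p : ℕ} {V : Type*} [AddCommGroup V] [Module (ZMod p) V] {K : ℕ}
    {A B : Set V} (h : HasGrid p K A) (hAB : A ⊆ B) : HasGrid p K B := by
  obtain ⟨x, d, hd, hs⟩ := h
  exact ⟨x, d, hd, fun s hs' => hAB (hs s hs')⟩

theorem growthP_large (p C a N M : ℕ) (hp : 2 ≤ p) (hN : 1 ≤ N) (ha : 1 ≤ a)
    (h1 : N ≤ p ^ (C * (a + 2))) (h2 : p ^ (a - 1) * N ^ 4 < M ^ 4) (h3 : p ^ (6 * C) ≤ N) :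
    N ^ (8 * C + 1) ≤ M ^ (8 * C) := by
  obtain ⟨b, rfl⟩ : ∃ b, a = b + 1 := ⟨a - 1, by omega⟩
  rw [Nat.add_sub_cancel] at h2
  have e1 : (p ^ b) ^ C * N ^ (4 * C) ≤ M ^ (4 * C) := by
    have := Nat.pow_le_pow_left h2.le C
    rw [mul_pow, ← pow_mul, ← pow_mul, ← pow_mul] at this
    rw [← pow_mul]
    exact this
  have e2 : N * N ^ (4 * C) ≤ p ^ (3 * C) * M ^ (4 * C) := by
    calc N * N ^ (4 * C) ≤ p ^ (C * (b + 1 + 2)) * N ^ (4 * C) := Nat.mul_le_mul_right _ h1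
      _ = p ^ (3 * C) * ((p ^ b) ^ C * N ^ (4 * C)) := by
        rw [← mul_assoc, ← pow_mul, ← pow_add]
        congr 2
        ring
      _ ≤ p ^ (3 * C) * M ^ (4 * C) := Nat.mul_le_mul_left _ e1
  have e3 : N ^ (8 * C + 1) * N ≤ M ^ (8 * C) * N := by
    calc N ^ (8 * C + 1) * N = (N * N ^ (4 * C)) ^ 2 := by ring
      _ ≤ (p ^ (3 * C) * M ^ (4 * C)) ^ 2 := Nat.pow_le_pow_left e2 2
      _ = p ^ (6 * C) * M ^ (8 * C) := by ring
      _ ≤ N * M ^ (8 * C) := Nat.mul_le_mul_right _ h3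
      _ = _ := Nat.mul_comm _ _
  exact Nat.le_of_mul_le_mul_right e3 hN

theorem growthP_main (p : ℕ) [Fact p.Prime] {V : Type} [AddCommGroup V] [Module (ZMod p) V]
    [DecidableEq V] (K : ℕ) (P : Set V) (Q : ℕ → Prop)
    (hP : ¬ HasGrid p K P)
    (hsmall : ∀ A : Finset V, (∀ x ∈ A, x ∈ P) → Q A.card → 2 ≤ A.card →
      A.card < (A + A).card)
    (modelling : ∀ (A : Finset V), A.Nonempty →
      ∃ (n : ℕ) (φ : V →ₗ[ZMod p] (Fin n → ZMod p)),
        (∀ a ∈ A, ∀ b ∈ A, ∀ c ∈ A, ∀ d ∈ A, φ (a + b) = φ (c + d) → a + b = c + d) ∧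
        p ^ n * A.card ^ 3 ≤ p * (A + A).card ^ 4)
    (lift : ∀ (n : ℕ) (A : Set V) (φ : V →ₗ[ZMod p] (Fin n → ZMod p)),
      (∀ a ∈ A, ∀ b ∈ A, ∀ c ∈ A, ∀ d ∈ A, φ (a + b) = φ (c + d) → a + b = c + d) →
      HasGrid p K (φ '' A) → HasGrid p K A)
    (C : ℕ) (dense : ∀ (a n : ℕ) (A : Finset (Fin n → ZMod p)), p ^ n ≤ p ^ a * A.card →
      C * (a + 1) < n → HasGrid p K (A : Set (Fin n → ZMod p)))
    (A : Finset V) (hA : ∀ x ∈ A, x ∈ P) (hQ : Q A.card) (h2 : 2 ≤ A.card)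
    (hR : p ^ (6 * C) ≤ A.card) :
    A.card ^ (8 * C + 1) ≤ (A + A).card ^ (8 * C) := by
  classical
  have hp : 2 ≤ p := (Fact.out : p.Prime).two_le
  have hlt := hsmall A hA hQ h2
  have hAne : A.Nonempty := Finset.card_pos.1 (by omega)
  obtain ⟨n, φ, hφ, hn⟩ := modelling A hAne
  set N := A.card with hN
  set M := (A + A).card with hM
  have hN0 : 0 < N := by omega
  -- existence of `a`
  have hex : ∃ a : ℕ, M ^ 4 ≤ p ^ a * N ^ 4 := by
    refine ⟨M ^ 4, ?_⟩
    have h1 : M ^ 4 < p ^ (M ^ 4) := Nat.lt_pow_self (by omega)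
    calc M ^ 4 ≤ p ^ (M ^ 4) * 1 := by rw [mul_one]; exact h1.le
      _ ≤ p ^ (M ^ 4) * N ^ 4 := Nat.mul_le_mul_left _ (Nat.one_le_pow _ _ hN0)
  set a := Nat.find hex with ha
  have ha1 : M ^ 4 ≤ p ^ a * N ^ 4 := Nat.find_spec hex
  have ha0 : 1 ≤ a := by
    by_contra h0
    have h0' : a = 0 := by omega
    rw [h0', pow_zero, one_mul] at ha1
    have := Nat.pow_lt_pow_left hlt (n := 4) (by norm_num)
    omega
  have hmin : p ^ (a - 1) * N ^ 4 < M ^ 4 := by
    have := Nat.find_min hex (m := a - 1) (by omega)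
    omega
  -- the image
  have hinj : Set.InjOn φ (A : Set V) := by
    intro x hx y hy hxy
    have hx' : x ∈ A := hx
    have hy' : y ∈ A := hy
    have := hφ x hx' x hx' y hy' x hx' (by rw [map_add, map_add, hxy])
    exact add_right_cancel this
  have hB : (A.image φ).card = N := Finset.card_image_of_injOn hinj
  have hNp : N ≤ p ^ n := by
    have h1 := Finset.card_le_univ (A.image φ)
    rw [hB, Fintype.card_fun, ZMod.card, Fintype.card_fin] at h1
    exact h1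
  have hdens : p ^ n ≤ p ^ (a + 1) * (A.image φ).card := by
    rw [hB]
    have h1 : p ^ n * N ^ 3 ≤ (p ^ (a + 1) * N) * N ^ 3 := by
      calc p ^ n * N ^ 3 ≤ p * M ^ 4 := hn
        _ ≤ p * (p ^ a * N ^ 4) := Nat.mul_le_mul_left _ ha1
        _ = (p ^ (a + 1) * N) * N ^ 3 := by ring
    exact Nat.le_of_mul_le_mul_right h1 (by positivity)
  have hnle : n ≤ C * (a + 2) := by
    by_contra hcon
    have h1 := dense (a + 1) n (A.image φ) hdens (by
      have : C * (a + 1 + 1) = C * (a + 2) := rfl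
      omega)
    rw [Finset.coe_image] at h1
    have h2 := lift n (A : Set V) φ (fun a ha b hb c hc d hd => hφ a ha b hb c hc d hd) h1
    exact hP (h2.mono' fun x hx => hA x hx)
  exact growthP_large p C a N M hp hN0 ha0
    (hNp.trans (Nat.pow_le_pow_right (by omega) hnle)) hmin hR

theorem growthP (p : ℕ) [Fact p.Prime] {V : Type} [AddCommGroup V] [Module (ZMod p) V]
    [DecidableEq V] (K : ℕ) (P : Set V) (Q : ℕ → Prop)
    (hP : ¬ HasGrid p K P)
    (hsmall : ∀ A : Finset V, (∀ x ∈ A, x ∈ P) → Q A.card → 2 ≤ A.card →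
      A.card < (A + A).card)
    (modelling : ∀ (A : Finset V), A.Nonempty →
      ∃ (n : ℕ) (φ : V →ₗ[ZMod p] (Fin n → ZMod p)),
        (∀ a ∈ A, ∀ b ∈ A, ∀ c ∈ A, ∀ d ∈ A, φ (a + b) = φ (c + d) → a + b = c + d) ∧
        p ^ n * A.card ^ 3 ≤ p * (A + A).card ^ 4)
    (lift : ∀ (n : ℕ) (A : Set V) (φ : V →ₗ[ZMod p] (Fin n → ZMod p)),
      (∀ a ∈ A, ∀ b ∈ A, ∀ c ∈ A, ∀ d ∈ A, φ (a + b) = φ (c + d) → a + b = c + d) →
      HasGrid p K (φ '' A) → HasGrid p K A)
    (dense : ∃ C : ℕ, ∀ (a n : ℕ) (A : Finset (Fin n → ZMod p)), p ^ n ≤ p ^ a * A.card →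
      C * (a + 1) < n → HasGrid p K (A : Set (Fin n → ZMod p))) :
    ∃ ε : ℝ, 0 < ε ∧ ∀ A : Finset V, (∀ x ∈ A, x ∈ P) → Q A.card →
      (A.card : ℝ) ^ (1 + ε) ≤ ((A + A).card : ℝ) := by
  have hp : 2 ≤ p := (Fact.out : p.Prime).two_le
  obtain ⟨C₀, dense₀⟩ := dense
  set C := C₀ + 1 with hC
  have dense' : ∀ (a n : ℕ) (A : Finset (Fin n → ZMod p)), p ^ n ≤ p ^ a * A.card →
      C * (a + 1) < n → HasGrid p K (A : Set (Fin n → ZMod p)) := by
    intro a n A h1 h2
    refine dense₀ a n A h1 (lt_of_le_of_lt ?_ h2)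
    exact Nat.mul_le_mul_right _ (Nat.le_succ _)
  have hC0 : 0 < C := Nat.succ_pos _
  obtain ⟨R, hRdef⟩ : ∃ R : ℕ, R = p ^ (6 * C) := ⟨_, rfl⟩
  have hR1 : 1 < R := by
    rw [hRdef]
    exact Nat.one_lt_pow (by omega) (by omega)
  have hR1' : (1 : ℝ) < R := by exact_mod_cast hR1
  have hlogR : 0 < Real.log R := Real.log_pos hR1'
  set m : ℕ := 8 * C with hm
  have hm0 : m ≠ 0 := by omega
  have hmpos : (0 : ℝ) < m := by positivity
  set ε₀ : ℝ := Real.log (1 + 1 / R) / Real.log R with hε₀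
  have hε₀pos : 0 < ε₀ := by
    refine div_pos (Real.log_pos ?_) hlogR
    have : (0 : ℝ) < 1 / R := by positivity
    linarith
  refine ⟨min (1 / m) ε₀, lt_min (by positivity) hε₀pos, ?_⟩
  intro A hA hQ
  rcases Nat.lt_or_ge A.card 2 with hlt | hge
  · have hcases : A.card = 0 ∨ A.card = 1 := by omega
    rcases hcases with h0 | h1
    · rw [h0, Nat.cast_zero, Real.zero_rpow]
      · positivity
      · have : 0 < min (1 / (m : ℝ)) ε₀ := lt_min (by positivity) hε₀pos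
        linarith
    · obtain ⟨x, hx⟩ := Finset.card_eq_one.1 h1
      rw [h1, Nat.cast_one, Real.one_rpow, hx, Finset.singleton_add_singleton,
        Finset.card_singleton, Nat.cast_one]
  · have hN1 : (1 : ℝ) ≤ (A.card : ℝ) := by
      have : 1 ≤ A.card := by omega
      exact_mod_cast this
    have hNpos : (0 : ℝ) < (A.card : ℝ) := by linarith
    rcases Nat.lt_or_ge A.card R with hNR | hRN
    · -- small sets
      have hs := hsmall A hA hQ hge
      have hs' : (A.card : ℝ) + 1 ≤ ((A + A).card : ℝ) := by exact_mod_cast hs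
      have hNR' : (A.card : ℝ) ≤ (R : ℝ) := by exact_mod_cast hNR.le
      have hRe : (R : ℝ) ^ ε₀ = 1 + 1 / R := by
        rw [Real.rpow_def_of_pos (by linarith), hε₀, mul_div_cancel₀ _ hlogR.ne',
          Real.exp_log (by positivity)]
      calc (A.card : ℝ) ^ (1 + min (1 / (m : ℝ)) ε₀) ≤ (A.card : ℝ) ^ (1 + ε₀) := by
            refine Real.rpow_le_rpow_of_exponent_le hN1 ?_
            have := min_le_right (1 / (m : ℝ)) ε₀
            linarith
        _ = (A.card : ℝ) * (A.card : ℝ) ^ ε₀ := by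
            rw [Real.rpow_add hNpos, Real.rpow_one]
        _ ≤ (A.card : ℝ) * (R : ℝ) ^ ε₀ := by
            refine mul_le_mul_of_nonneg_left ?_ hNpos.le
            exact Real.rpow_le_rpow hNpos.le hNR' hε₀pos.le
        _ = (A.card : ℝ) * (1 + 1 / R) := by rw [hRe]
        _ ≤ (A.card : ℝ) + 1 := by
            rw [mul_add, mul_one, mul_one_div]
            have : (A.card : ℝ) / R ≤ 1 := by
              rw [div_le_one (by linarith)]
              exact hNR'
            linarith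
        _ ≤ _ := hs'
    · have hmain := growthP_main p K P Q hP hsmall modelling lift C dense' A hA hQ hge
        (by rw [← hRdef]; exact hRN)
      have hmain' : (A.card : ℝ) ^ (m + 1) ≤ ((A + A).card : ℝ) ^ m := by
        exact_mod_cast hmain
      calc (A.card : ℝ) ^ (1 + min (1 / (m : ℝ)) ε₀) ≤ (A.card : ℝ) ^ (1 + 1 / (m : ℝ)) := by
            refine Real.rpow_le_rpow_of_exponent_le hN1 ?_
            have := min_le_left (1 / (m : ℝ)) ε₀
            linarith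
        _ ≤ ((A + A).card : ℝ) := by
            refine le_of_pow_le_pow_left₀ hm0 (by positivity) ?_
            rw [← Real.rpow_mul_natCast hNpos.le]
            have e : (1 + 1 / (m : ℝ)) * (m : ℝ) = ((m + 1 : ℕ) : ℝ) := by
              push_cast
              field_simp
            rw [e, Real.rpow_natCast]
            exact hmain'

end Pool.Agent.Helper999.Sq3
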