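import Mathlib
set_option autoImplicit false

namespace Pool.Agent.Helper999.Sq3

/-- Exponent vectors in `{0,...,p-1}^n` of total degree at most `(p-1)n/3`. -/
def LowP (p n : ℕ) : Finset (Fin n → Fin p) :=
  Finset.univ.filter (fun α => 3 * ∑ i, (α i : ℕ) ≤ (p - 1) * n)

/-- `A` contains a `K`-dimensional `{-1,0,1}`-grid with independent differences. -/
def HasGrid (p : ℕ) {V : Type*} [AddCommGroup V] [Module (ZMod p) V] (K : ℕ) (A : Set V) : Prop :=
  ∃ (x : V) (d : Fin K → V), LinearIndependent (ZMod p) d ∧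
    ∀ s : Fin K → ZMod p, (∀ i, s i = 0 ∨ s i = 1 ∨ s i = -1) → x + ∑ i, s i • d i ∈ A

end Pool.Agent.Helper999.Sq3
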