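import Mathlib
set_option autoImplicit false

namespace Pool.Agent.Helper999.Sq3

theorem exists_ker13751 {F A K : Type} [Field F] [Fintype A] [Fintype K] (M : K → A → F)
    (h : Fintype.card K < Fintype.card A) :
    ∃ g : A → F, g ≠ 0 ∧ ∀ k, ∑ x, M k x * g x = 0 := by
  have hlt : Module.finrank F (K → F) < Module.finrank F (A → F) := by
    rw [Module.finrank_fintype_fun_eq_card, Module.finrank_fintype_fun_eq_card]; exact h
  have hne := LinearMap.ker_ne_bot_of_finrank_lt (f := (Matrix.of M).mulVecLin) hlt
  obtain ⟨v, hv, hne⟩ := (Submodule.ne_bot_iff _).1 hne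
  refine ⟨v, hne, fun k => ?_⟩
  have h1 : (Matrix.of M).mulVecLin v = 0 := hv
  exact congrFun h1 k

theorem large_support13751 {F A I : Type} [Field F] [Fintype A] [DecidableEq A] [Fintype I]
    (u : I → A → F) (n : ℕ) (hn : n + Fintype.card I ≤ Fintype.card A) :
    ∃ (h : A → F) (S : Finset A), (∀ i, ∑ x, u i x * h x = 0) ∧ (∀ x ∈ S, h x ≠ 0) ∧ 
      (∀ x, x ∉ S → h x = 0) ∧ n ≤ S.card := by
  classical
  induction n with
  | zero => exact ⟨0, ∅, by simp, by simp, by simp, by simp⟩
  | succ n ih =>
    obtain ⟨h, S, h1, h2, h3, h4⟩ := ih (by omega)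
    by_cases hc : n + 1 ≤ S.card
    · exact ⟨h, S, h1, h2, h3, hc⟩
    · have hS : S.card = n := by omega
      obtain ⟨g, hg, hgk⟩ := exists_ker13751 (K := I ⊕ {x // x ∈ S})
        (Sum.elim u (fun s x => if x = s.1 then (1 : F) else 0)) (by
          rw [Fintype.card_sum, Fintype.card_coe, hS]; omega)
      obtain ⟨a, ha⟩ := Function.ne_iff.1 hg
      have hgS : ∀ x ∈ S, g x = 0 := by
        intro x hx
        have := hgk (Sum.inr ⟨x, hx⟩)
        simpa using this
      have haS : a ∉ S := fun h => ha (hgS a h)
      refine ⟨h + g, Finset.univ.filter (fun x => (h + g) x ≠ 0), ?_, ?_, ?_, ?_⟩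
      · intro i
        have e1 := hgk (Sum.inl i)
        simp only [Sum.elim_inl] at e1
        simp only [Pi.add_apply, mul_add, Finset.sum_add_distrib, h1, e1, add_zero]
      · intro x hx
        exact (Finset.mem_filter.1 hx).2
      · intro x hx
        by_contra hne
        exact hx (Finset.mem_filter.2 ⟨Finset.mem_univ _, hne⟩)
      · have hsub : insert a S ⊆ Finset.univ.filter (fun x => (h + g) x ≠ 0) := by
          intro x hx
          refine Finset.mem_filter.2 ⟨Finset.mem_univ _, ?_⟩
          rw [Pi.add_apply]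
          rcases Finset.mem_insert.1 hx with rfl | hx
          · rw [h3 x haS, zero_add]; exact ha
          · rw [hgS x hx, add_zero]; exact h2 x hx
        have := Finset.card_le_card hsub
        rw [Finset.card_insert_of_notMem haS, hS] at this
        exact this

theorem slice_rank_diag {F A I J L : Type} [Field F] [Fintype A] [DecidableEq A]
    [Fintype I] [Fintype J] [Fintype L]
    (u : I → A → F) (U : I → A → A → F) (v : J → A → F) (V : J → A → A → F)
    (w : L → A → F) (W : L → A → A → F)
    (h : ∀ x y z : A, (if x = y ∧ y = z then (1 : F) else 0) =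
      ∑ i, u i x * U i y z + ∑ j, v j y * V j x z + ∑ l, w l z * W l x y) :
    Fintype.card A ≤ Fintype.card I + Fintype.card J + Fintype.card L := by
  classical
  by_contra hlt
  push Not at hlt
  obtain ⟨p, S, h1, h2, h3, h4⟩ := large_support13751 u (Fintype.card A - Fintype.card I)
    (by omega)
  have hScard : S.card ≤ Fintype.card A := Finset.card_le_univ S
  obtain ⟨g, hg, hgk⟩ := exists_ker13751 (K := (J ⊕ L) ⊕ {x // x ∈ Sᶜ})
    (Sum.elim (Sum.elim (fun j z => ∑ x, p x * V j x z) w)
      (fun s x => if x = s.1 then (1 : F) else 0)) (by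
      rw [Fintype.card_sum, Fintype.card_sum, Fintype.card_coe, Finset.card_compl]; omega)
  have k1 : ∀ j, ∑ z, (∑ x, p x * V j x z) * g z = 0 := fun j => by
    simpa using hgk (Sum.inl (Sum.inl j))
  have k2 : ∀ l, ∑ z, w l z * g z = 0 := fun l => by
    simpa using hgk (Sum.inl (Sum.inr l))
  have k3 : ∀ x, x ∉ S → g x = 0 := fun x hx => by
    have := hgk (Sum.inr ⟨x, Finset.mem_compl.2 hx⟩)
    simpa using this
  apply hg
  funext y
  show g y = 0
  by_cases hy : y ∈ S
  swap
  · exact k3 y hy
  have hpy := h2 y hy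
  have key : ∑ z, ∑ x, (if x = y ∧ y = z then (1 : F) else 0) * (p x * g z) = 0 := by
    have e1 : ∀ z x, (if x = y ∧ y = z then (1 : F) else 0) * (p x * g z) =
        (∑ i, u i x * p x * (U i y z * g z)) + (∑ j, v j y * (p x * V j x z * g z)) +
        ∑ l, (w l z * g z) * (p x * W l x y) := by
      intro z x
      rw [h x y z, add_mul, add_mul, Finset.sum_mul, Finset.sum_mul, Finset.sum_mul]
      congr 1
      · congr 1
        · exact Finset.sum_congr rfl fun i _ => by ring
        · exact Finset.sum_congr rfl fun i _ => by ring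
      · exact Finset.sum_congr rfl fun i _ => by ring
    simp only [e1, Finset.sum_add_distrib]
    have t1 : ∑ z, ∑ x, ∑ i, u i x * p x * (U i y z * g z) = 0 := by
      apply Finset.sum_eq_zero
      intro z _
      rw [Finset.sum_comm]
      apply Finset.sum_eq_zero
      intro i _
      rw [← Finset.sum_mul, h1 i, zero_mul]
    have t2 : ∑ z, ∑ x, ∑ j, v j y * (p x * V j x z * g z) = 0 := by
      have : ∀ z, ∑ x, ∑ j, v j y * (p x * V j x z * g z) =
          ∑ j, v j y * ((∑ x, p x * V j x z) * g z) := by
        intro z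
        rw [Finset.sum_comm]
        apply Finset.sum_congr rfl
        intro j _
        rw [← Finset.mul_sum, Finset.sum_mul]
      simp only [this]
      rw [Finset.sum_comm]
      apply Finset.sum_eq_zero
      intro j _
      rw [← Finset.mul_sum, k1 j, mul_zero]
    have t3 : ∑ z, ∑ x, ∑ l, (w l z * g z) * (p x * W l x y) = 0 := by
      rw [Finset.sum_comm]
      apply Finset.sum_eq_zero
      intro x _
      rw [Finset.sum_comm]
      apply Finset.sum_eq_zero
      intro l _
      rw [← Finset.sum_mul, k2 l, zero_mul]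
    rw [t1, t2, t3]
    ring
  have key2 : ∑ z, ∑ x, (if x = y ∧ y = z then (1 : F) else 0) * (p x * g z) = p y * g y := by
    rw [Finset.sum_eq_single y, Finset.sum_eq_single y]
    · simp
    · intro x _ hx
      rw [if_neg (fun hh => hx hh.1), zero_mul]
    · intro hh; exact absurd (Finset.mem_univ _) hh
    · intro z _ hz
      apply Finset.sum_eq_zero
      intro x _
      rw [if_neg (fun hh => hz hh.2.symm), zero_mul]
    · intro hh; exact absurd (Finset.mem_univ _) hh
  rw [key2] at key
  exact (mul_eq_zero.1 key).resolve_left hpy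

end Pool.Agent.Helper999.Sq3
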