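import Mathlib
import Pool.Agent.Helper999.Sq3.GDefs
import Pool.Agent.Helper999.Sq3.Slice
import Pool.Agent.Helper999.Sq3.G2
import Pool.Agent.Helper999.Sq3.G3
import Pool.Agent.Helper999.Sq3.G5
import Pool.Agent.Helper999.Sq3.G6
import Pool.Agent.Helper999.Sq3.G7
import Pool.Agent.Helper999.Sq3.G7b
import Pool.Agent.Helper999.Sq3.G8
set_option autoImplicit false
open Pointwise

namespace Pool.Agent.Helper999.Sq3

/-- the cap set theorem over `𝔽_p` for three term progressions -/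
theorem capP (p : ℕ) [Fact p.Prime] (hp2 : p ≠ 2) :
    ∃ ρ : ℝ, 1 ≤ ρ ∧ ρ < p ∧ ∀ (m : ℕ) (S : Finset (Fin m → ZMod p)),
      (∀ x ∈ S, ∀ y ∈ S, ∀ z ∈ S, x + z = y + y → x = y) → (S.card : ℝ) ≤ 3 * ρ ^ m := by
  obtain ⟨ρ, h1, h2, h3⟩ := lowP_card p (Fact.out : p.Prime).two_le
  refine ⟨ρ, h1, h2, fun m S hS => ?_⟩
  have h4 := capset_slicesP p hp2 m
    (fun {A I J L} _ _ _ _ _ u U v V w W h => slice_rank_diag u U v V w W h) S hS
  have h5 : (S.card : ℝ) ≤ 3 * ((LowP p m).card : ℝ) := by exact_mod_cast h4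
  have h6 := h3 m
  linarith

/-- A set without `K`-dimensional `{-1,0,1}`-grids grows. -/
theorem growth (p : ℕ) [Fact p.Prime] (hp2 : p ≠ 2) {V : Type} [AddCommGroup V]
    [Module (ZMod p) V] [DecidableEq V] (K : ℕ) (P : Set V) (Q : ℕ → Prop)
    (hP : ¬ HasGrid p K P)
    (hsmall : ∀ A : Finset V, (∀ x ∈ A, x ∈ P) → Q A.card → 2 ≤ A.card →
      A.card < (A + A).card) :
    ∃ ε : ℝ, 0 < ε ∧ ∀ A : Finset V, (∀ x ∈ A, x ∈ P) → Q A.card →
      (A.card : ℝ) ^ (1 + ε) ≤ ((A + A).card : ℝ) :=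
  growthP p K P Q hP hsmall (fun A hA => modellingP p A hA)
    (fun _ A φ hφ h => lift_grid p K A φ hφ h)
    (grid_of_dense p hp2 (capP p hp2) (fun n m c A hc => supersatP p n m c A hc) K)

/-- If `|A + A| ≤ |A|` then `A` is a coset of a subgroup. -/
theorem coset_add {V : Type*} [AddCommGroup V] [DecidableEq V] (A : Finset V)
    (h : (A + A).card ≤ A.card) (a0 : V) (ha0 : a0 ∈ A) :
    ∀ a ∈ A, ∀ b ∈ A, a + b - a0 ∈ A := by
  intro a ha b hb
  have hsub : A.image (fun c => a0 + c) ⊆ A + A := by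
    intro x hx
    obtain ⟨c, hc, rfl⟩ := Finset.mem_image.1 hx
    exact Finset.add_mem_add ha0 hc
  have hcard : (A.image (fun c => a0 + c)).card = A.card :=
    Finset.card_image_of_injective _ (add_right_injective a0)
  have heq : A.image (fun c => a0 + c) = A + A :=
    Finset.eq_of_subset_of_card_le hsub (by rw [hcard]; exact h)
  have hab : a + b ∈ A.image (fun c => a0 + c) := by
    rw [heq]; exact Finset.add_mem_add ha hb
  obtain ⟨c, hc, hce⟩ := Finset.mem_image.1 hab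
  have : a + b - a0 = c := by rw [← hce]; abel
  rw [this]; exact hc

theorem coset_smul {p : ℕ} [Fact p.Prime] {V : Type*} [AddCommGroup V] [Module (ZMod p) V]
    [DecidableEq V] (A : Finset V) (h : (A + A).card ≤ A.card) (a0 : V) (ha0 : a0 ∈ A)
    (x w : V) (hx : x ∈ A) (hw : a0 + w ∈ A) (t : ZMod p) : x + t • w ∈ A := by
  have key : ∀ n : ℕ, x + n • w ∈ A := by
    intro n
    induction n with
    | zero => simpa using hx
    | succ n ih =>
      have := coset_add A h a0 ha0 _ ih _ hw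
      have e : x + n • w + (a0 + w) - a0 = x + (n + 1) • w := by
        rw [succ_nsmul]; abel
      rwa [e] at this
  have h1 := key t.val
  have h2 : (t.val : ℕ) • w = t • w := by
    rw [← Nat.cast_smul_eq_nsmul (ZMod p), ZMod.natCast_zmod_val]
  rwa [h2] at h1

end Pool.Agent.Helper999.Sq3
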