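import Mathlib
import Pool.Agent.Helper999.Sq3.Core
import Pool.Agent.Helper999.Sq3.Growth
set_option autoImplicit false
open Polynomial Pointwise

namespace Pool.Agent.Helper999.Sq3

theorem three_cases : ∀ z : ZMod 3, z = 0 ∨ z = 1 ∨ z = -1 := by decide

theorem noGrid3 : ¬ HasGrid 3 2 {f : (ZMod 3)[X] | IsSquare f} := by
  rintro ⟨x, d, hd, h⟩
  have all : ∀ z : ZMod 3, z = 0 ∨ z = 1 ∨ z = -1 := by decide
  obtain ⟨s, t, hst, hrel⟩ := no_square_plane x (d 0) (d 1) (by
    intro s t
    have := h ![s, t] (fun i => all _)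
    simp only [Set.mem_ofPred_eq, Fin.sum_univ_two, Matrix.cons_val_zero, Matrix.cons_val_one] at this
    rw [smul_eq_C_mul, smul_eq_C_mul, ← add_assoc] at this
    exact this)
  have h2 := (Fintype.linearIndependent_iff.1 hd) ![s, t] (by
    rw [Fin.sum_univ_two]
    simp only [Matrix.cons_val_zero, Matrix.cons_val_one]
    rw [smul_eq_C_mul, smul_eq_C_mul]
    exact hrel)
  apply hst
  have h0 := h2 0
  have h1 := h2 1
  simp only [Matrix.cons_val_zero, Matrix.cons_val_one] at h0 h1
  rw [h0, h1]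

theorem small3 (A : Finset (ZMod 3)[X]) (hA : ∀ x ∈ A, IsSquare x) (h3 : A.card ≠ 3)
    (h2 : 2 ≤ A.card) : A.card < (A + A).card := by
  by_contra hcon
  push Not at hcon
  obtain ⟨a0, ha0⟩ : A.Nonempty := Finset.card_pos.1 (by omega)
  obtain ⟨a, ha, hne⟩ := Finset.exists_mem_ne (by omega : 1 < A.card) a0
  set w := a - a0 with hw
  have hw0 : w ≠ 0 := sub_ne_zero.2 hne
  have hwA : a0 + w ∈ A := by rw [hw]; simpa using ha
  have hline : ∀ t : ZMod 3, a0 + t • w ∈ A := fun t => coset_smul A hcon a0 ha0 a0 w ha0 hwA t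
  -- the line has exactly three elements
  have hcardline : (Finset.univ.image (fun t : ZMod 3 => a0 + t • w)).card = 3 := by
    rw [Finset.card_image_of_injective]
    · rfl
    · intro s t hst
      have h5 : s • w = t • w := add_left_cancel hst
      have h6 : (s - t) • w = 0 := by rw [sub_smul, h5, sub_self]
      rcases smul_eq_zero.1 h6 with h7 | h7
      · exact sub_eq_zero.1 h7
      · exact absurd h7 hw0
  have hsub : Finset.univ.image (fun t : ZMod 3 => a0 + t • w) ⊆ A := by
    intro x hx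
    obtain ⟨t, -, rfl⟩ := Finset.mem_image.1 hx
    exact hline t
  have hlt : (Finset.univ.image (fun t : ZMod 3 => a0 + t • w)).card < A.card := by
    have := Finset.card_le_card hsub
    omega
  obtain ⟨b, hb, hbn⟩ := Finset.exists_mem_notMem_of_card_lt_card hlt
  set v := b - a0 with hv
  have hvA : a0 + v ∈ A := by rw [hv]; simpa using hb
  have hplane : ∀ s t : ZMod 3, IsSquare (a0 + C s * w + C t * v) := by
    intro s t
    have h5 := coset_smul A hcon a0 ha0 (a0 + s • w) v (hline s) hvA t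
    rw [smul_eq_C_mul, smul_eq_C_mul] at h5
    exact hA _ h5
  obtain ⟨s, t, hst, hrel⟩ := no_square_plane a0 w v hplane
  by_cases ht : t = 0
  · rw [ht, C_0, zero_mul, add_zero] at hrel
    rcases mul_eq_zero.1 hrel with h5 | h5
    · rw [C_eq_zero] at h5
      exact hst (by rw [h5, ht])
    · exact hw0 h5
  · apply hbn
    rw [Finset.mem_image]
    refine ⟨-(t⁻¹ * s), Finset.mem_univ _, ?_⟩
    have h5 : v = (-(t⁻¹ * s)) • w := by
      have h6 : t • v = -(s • w) := by
        rw [smul_eq_C_mul, smul_eq_C_mul]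
        linear_combination hrel
      have h7 : v = t⁻¹ • (t • v) := by rw [smul_smul, inv_mul_cancel₀ ht, one_smul]
      rw [h7, h6, smul_neg, smul_smul, neg_smul]
    rw [← h5, hv]
    abel

/-- **The case `p = 3`.** -/
theorem growth3 : ∃ ε : ℝ, 0 < ε ∧ ∀ A : Finset (ZMod 3)[X], (∀ f ∈ A, IsSquare f) →
    A.card ≠ 3 → (A.card : ℝ) ^ (1 + ε) ≤ ((A + A).card : ℝ) :=
  growth 3 (by decide) 2 {f : (ZMod 3)[X] | IsSquare f} (fun n => n ≠ 3) noGrid3
    (fun A hA h3 h2 => small3 A hA h3 h2)

/-- the three squares `(x²+1)²`, `(x²-x-1)²`, `(x²+x-1)²` form a coset of a subgroup -/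
theorem coset3 : ∃ A : Finset (ZMod 3)[X], (∀ f ∈ A, IsSquare f) ∧ A.card = 3 ∧
    (A + A).card = 3 := by
  classical
  have h3 : (3 : (ZMod 3)[X]) = 0 := by
    have := CharP.cast_eq_zero (ZMod 3)[X] 3
    exact_mod_cast this
  set f0 : (ZMod 3)[X] := (X ^ 2 + 1) * (X ^ 2 + 1) with hf0
  set w : (ZMod 3)[X] := X ^ 3 - X with hw
  have hw0 : w ≠ 0 := by
    intro h
    have h5 := congrArg (fun q => q.coeff 3) h
    simp only [hw, coeff_sub, coeff_X_pow, coeff_zero, coeff_X] at h5
    norm_num at h5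
  set A : Finset (ZMod 3)[X] := Finset.univ.image (fun t : ZMod 3 => f0 + t • w) with hAdef
  have hinj : Function.Injective (fun t : ZMod 3 => f0 + t • w) := by
    intro s t hst
    have h5 : s • w = t • w := add_left_cancel hst
    have h6 : (s - t) • w = 0 := by rw [sub_smul, h5, sub_self]
    rcases smul_eq_zero.1 h6 with h7 | h7
    · exact sub_eq_zero.1 h7
    · exact absurd h7 hw0
  have hcard : A.card = 3 := by
    rw [hAdef, Finset.card_image_of_injective _ hinj]
    rfl
  refine ⟨A, ?_, hcard, ?_⟩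
  · intro f hf
    obtain ⟨t, -, rfl⟩ := Finset.mem_image.1 hf
    have ht : t = 0 ∨ t = 1 ∨ t = -1 := three_cases t
    rcases ht with rfl | rfl | rfl
    · exact ⟨X ^ 2 + 1, by simp [hf0]⟩
    · refine ⟨X ^ 2 - X - 1, ?_⟩
      rw [one_smul, hf0, hw]
      linear_combination (X ^ 3 + X ^ 2 - X) * h3
    · refine ⟨X ^ 2 + X - 1, ?_⟩
      rw [neg_one_smul, hf0, hw]
      linear_combination (-X ^ 3 + X ^ 2 + X) * h3
  · have hAA : A + A = Finset.univ.image (fun t : ZMod 3 => (f0 + f0) + t • w) := by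
      ext x
      rw [Finset.mem_add, Finset.mem_image]
      constructor
      · rintro ⟨y, hy, z, hz, rfl⟩
        obtain ⟨s, -, rfl⟩ := Finset.mem_image.1 hy
        obtain ⟨t, -, rfl⟩ := Finset.mem_image.1 hz
        exact ⟨s + t, Finset.mem_univ _, by rw [add_smul]; abel⟩
      · rintro ⟨t, -, rfl⟩
        refine ⟨f0 + t • w, Finset.mem_image.2 ⟨t, Finset.mem_univ _, rfl⟩,
          f0 + (0 : ZMod 3) • w, Finset.mem_image.2 ⟨0, Finset.mem_univ _, rfl⟩, ?_⟩
        rw [zero_smul]; abel
    have hinj2 : Function.Injective (fun t : ZMod 3 => (f0 + f0) + t • w) := by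
      intro s t hst
      have h5 : s • w = t • w := add_left_cancel hst
      exact hinj (by simp [h5])
    rw [hAA, Finset.card_image_of_injective _ hinj2]
    rfl

end Pool.Agent.Helper999.Sq3
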