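import Mathlib
import Pool.Agent.Helper999.Sq3.Growth
set_option autoImplicit false
open Polynomial Pointwise

namespace Pool.Agent.Helper999.Sq3

/-- **The case `p ≥ 5`** from the two facts on squares in `𝔽_p[x]`. -/
theorem growth5_of (p : ℕ) [Fact p.Prime] (hp : 5 ≤ p)
    (grid : ∀ (f : (ZMod p)[X]) (d : Fin 11 → (ZMod p)[X]),
      (∀ s : Fin 11 → ZMod p, (∀ i, s i = 0 ∨ s i = 1 ∨ s i = -1) →
        IsSquare (f + ∑ i, s i • d i)) → ¬ LinearIndependent (ZMod p) d)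
    (coset : ∀ f w : (ZMod p)[X], w ≠ 0 → ¬ ∀ t : ZMod p, IsSquare (f + t • w)) :
    ∃ ε : ℝ, 0 < ε ∧ ∀ A : Finset (ZMod p)[X], (∀ f ∈ A, IsSquare f) →
      (A.card : ℝ) ^ (1 + ε) ≤ ((A + A).card : ℝ) := by
  have h := growth p (by omega) 11 {f : (ZMod p)[X] | IsSquare f} (fun _ => True)
    (by
      rintro ⟨x, d, hd, h⟩
      exact grid x d (fun s hs => h s hs) hd)
    (by
      intro A hA _ h2
      by_contra hcon
      push Not at hcon
      obtain ⟨a0, ha0⟩ : A.Nonempty := Finset.card_pos.1 (by omega)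
      obtain ⟨a, ha, hne⟩ := Finset.exists_mem_ne (by omega : 1 < A.card) a0
      have hwA : a0 + (a - a0) ∈ A := by simpa using ha
      exact coset a0 (a - a0) (sub_ne_zero.2 hne)
        (fun t => hA _ (coset_smul A hcon a0 ha0 a0 (a - a0) ha0 hwA t)))
  obtain ⟨ε, hε, h⟩ := h
  exact ⟨ε, hε, fun A hA => h A hA trivial⟩

end Pool.Agent.Helper999.Sq3
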