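import Mathlib
import Pool.Agent.Helper999.Sq3.P3
import Pool.Agent.Helper999.Sq3.P5
import Pool.Agent.Helper329.SQ.Main5
set_option autoImplicit false
open Polynomial Pointwise

namespace Pool.Agent.Helper999.Sq3

theorem growth5 (p : ℕ) [Fact p.Prime] (hp : 5 ≤ p) (LP : Pool.Helper329.SQ.LemmaP (ZMod p)) :
    ∃ ε : ℝ, 0 < ε ∧ ∀ A : Finset (ZMod p)[X], (∀ f ∈ A, IsSquare f) →
      (A.card : ℝ) ^ (1 + ε) ≤ ((A + A).card : ℝ) :=
  growth5_of p hp (fun f d h => Pool.Helper329.SQ.grid5 LP hp f d h)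
    (fun f w hw h => Pool.Helper329.SQ.coset5 LP hp f w hw h)

theorem full_of (LP : ∀ (p : ℕ) [Fact p.Prime], 5 ≤ p → Pool.Helper329.SQ.LemmaP (ZMod p)) :
    (∀ (p : ℕ) [Fact p.Prime], p ≠ 2 →
      ∃ ε : ℝ, 0 < ε ∧ ∀ A : Finset (ZMod p)[X], (∀ f ∈ A, IsSquare f) →
        (p = 3 → A.card ≠ 3) → (A.card : ℝ) ^ (1 + ε) ≤ ((A + A).card : ℝ)) := by
  intro p hp hp2
  rcases Nat.lt_or_ge p 5 with h5 | h5
  · have h3 : p = 3 := by
      have h2 := hp.out.two_le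
      have h4 : p ≠ 4 := by
        rintro rfl
        exact absurd hp.out (by norm_num)
      omega
    subst h3
    obtain ⟨ε, hε, h⟩ := growth3
    exact ⟨ε, hε, fun A hA h3 => h A hA (h3 rfl)⟩
  · obtain ⟨ε, hε, h⟩ := growth5 p h5 (LP p h5)
    exact ⟨ε, hε, fun A hA _ => h A hA⟩

end Pool.Agent.Helper999.Sq3
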